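import Mathlib

/-! Definitions for the quantitative Faber–Krahn inequality: first Dirichlet eigenvalue, Fraenkel
asymmetry, deficit and the optimal constant, in a Euclidean space `E` of dimension
`N = Module.finrank ℝ E`. -/

set_option autoImplicit false

namespace Pool.Agent.Helper500.FK

open MeasureTheory Set Metric
open scoped ContDiff

variable {E : Type*} [NormedAddCommGroup E] [InnerProductSpace ℝ E] [FiniteDimensional ℝ E]
  [MeasurableSpace E] [BorelSpace E]

/-- `v` is a nonzero smooth function with compact support in `Ω`. -/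
def IsTest (Ω : Set E) (v : E → ℝ) : Prop :=
  ContDiff ℝ ∞ v ∧ HasCompactSupport v ∧ tsupport v ⊆ Ω ∧ ∃ x, v x ≠ 0

/-- The Rayleigh quotient `∫ |∇ v|² / ∫ v²`. -/
noncomputable def ray (v : E → ℝ) : ℝ := (∫ x, ‖fderiv ℝ v x‖ ^ 2) / ∫ x, v x ^ 2

/-- The first Dirichlet eigenvalue of the open set `Ω`: the infimum of the Rayleigh quotients of the
test functions (`H¹₀(Ω)` is the closure of the test functions). -/
noncomputable def lam1 (Ω : Set E) : ℝ := sInf {r | ∃ v, IsTest Ω v ∧ r = ray v}

/-- The volume of `Ω` as a real number. -/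
noncomputable def vol (Ω : Set E) : ℝ := (volume Ω).toReal

/-- The Fraenkel asymmetry of `Ω`: the infimum of `|Ω Δ B| / |Ω|` over the balls `B` with
`|B| = |Ω|`. -/
noncomputable def asym (Ω : Set E) : ℝ :=
  sInf {r | ∃ (c : E) (ρ : ℝ), volume (ball c ρ) = volume Ω ∧ r = vol (symmDiff Ω (ball c ρ)) / vol Ω}

/-- The radius of the balls with the volume of `Ω`. -/
noncomputable def rad (Ω : Set E) : ℝ :=
  (vol Ω / vol (ball (0 : E) 1)) ^ ((1 : ℝ) / Module.finrank ℝ E)

/-- The deficit `|Ω| ^ (2/N) (λ₁(Ω) - λ₁(Ω*))`, with `Ω*` the ball around `0` of volume `|Ω|`. -/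
noncomputable def deficit (Ω : Set E) : ℝ :=
  vol Ω ^ ((2 : ℝ) / Module.finrank ℝ E) * (lam1 Ω - lam1 (ball (0 : E) (rad Ω)))

variable (E) in
/-- The optimal constant `γ*` of the quantitative Faber–Krahn inequality in `E`: the infimum (in the
extended reals) of `D(Ω) / A(Ω)²` over all open sets `Ω` of finite positive volume with
`A(Ω) > 0`. -/
noncomputable def gam : EReal :=
  ⨅ (Ω : Set E) (_ : IsOpen Ω ∧ 0 < volume Ω ∧ volume Ω < ⊤ ∧ 0 < asym Ω),
    ((deficit Ω / asym Ω ^ 2 : ℝ) : EReal)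

end Pool.Agent.Helper500.FK
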