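import Mathlib
import Pool.Agent.Helper500.FKDefs

/-! The one dimensional Poincaré inequality on open sets without long intervals. -/

set_option autoImplicit false

namespace Pool.Agent.Helper500.FK

open MeasureTheory Set Metric Filter Topology
open scoped ContDiff

/-- Poincaré inequality on an interval, strict version (no singular weight needed). -/
theorem poinc_interval {v : ℝ → ℝ} (hv : ContDiff ℝ ∞ v) {a b l c : ℝ} (hab : a ≤ b)
    (hbl : b ≤ a + l) (hc : 0 < c) (hcl : c * l < Real.pi) (ha : v a = 0) (hb : v b = 0) :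
    c ^ 2 * ∫ x in a..b, v x ^ 2 ≤ ∫ x in a..b, deriv v x ^ 2 := by
  have hl : 0 ≤ l := by linarith
  set δ : ℝ := (Real.pi - c * l) / 2 with hδ
  have hδ0 : 0 < δ := by rw [hδ]; linarith
  set w : ℝ → ℝ := fun x => c * (Real.cos (c * (x - a) + δ) / Real.sin (c * (x - a) + δ)) with hw
  have hsin : ∀ x ∈ Icc a b, 0 < Real.sin (c * (x - a) + δ) := by
    intro x hx
    apply Real.sin_pos_of_pos_of_lt_pi
    · have : 0 ≤ c * (x - a) := mul_nonneg hc.le (by linarith [hx.1])
      linarith
    · have : c * (x - a) ≤ c * l := mul_le_mul_of_nonneg_left (by linarith [hx.2]) hc.le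
      rw [hδ]
      linarith
  have hvd : ∀ x, HasDerivAt v (deriv v x) x := fun x =>
    ((hv.differentiable (by simp)) x).hasDerivAt
  have hvc : Continuous v := hv.continuous
  have hvc' : Continuous (deriv v) := hv.continuous_deriv (by simp)
  have hwd : ∀ x ∈ Icc a b, HasDerivAt w (-(c ^ 2) - w x ^ 2) x := by
    intro x hx
    have hs := (hsin x hx).ne'
    have h1 : HasDerivAt (fun y => c * (y - a) + δ) c x := by
      have := (((hasDerivAt_id x).sub_const a).const_mul c).add_const δ
      simpa using this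
    have h2 := (h1.cos.div h1.sin hs).const_mul c
    convert! h2 using 1
    rw [hw]
    simp only
    field_simp
  have hwc : ContinuousOn w (Icc a b) := fun x hx => (hwd x hx).continuousAt.continuousWithinAt
  have hu : uIcc a b = Icc a b := uIcc_of_le hab
  have hFTC : ∫ x in a..b, ((-(c ^ 2) - w x ^ 2) * v x ^ 2 + w x * (2 * v x * deriv v x)) = 0 := by
    rw [intervalIntegral.integral_eq_sub_of_hasDerivAt (f := fun x => w x * v x ^ 2)]
    · rw [ha, hb]
      ring
    · intro x hx
      rw [hu] at hx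
      have h3 : HasDerivAt (fun y => v y ^ 2) (2 * v x * deriv v x) x := by
        have := (hvd x).pow 2
        convert! this using 1
        ring
      exact (hwd x hx).mul h3
    · apply ContinuousOn.intervalIntegrable
      rw [hu]
      exact ((continuousOn_const.sub (hwc.pow 2)).mul (hvc.pow 2).continuousOn).add
        (hwc.mul ((continuous_const.mul hvc).mul hvc').continuousOn)
  have hi1 : IntervalIntegrable (fun x => (deriv v x - w x * v x) ^ 2) volume a b := by
    apply ContinuousOn.intervalIntegrable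
    rw [hu]
    exact ((hvc'.continuousOn).sub (hwc.mul hvc.continuousOn)).pow 2
  have hi2 : IntervalIntegrable (fun x => (-(c ^ 2) - w x ^ 2) * v x ^ 2 + w x * (2 * v x * deriv v x))
      volume a b := by
    apply ContinuousOn.intervalIntegrable
    rw [hu]
    exact ((continuousOn_const.sub (hwc.pow 2)).mul (hvc.pow 2).continuousOn).add
        (hwc.mul ((continuous_const.mul hvc).mul hvc').continuousOn)
  have hnn : 0 ≤ ∫ x in a..b, (deriv v x - w x * v x) ^ 2 :=
    intervalIntegral.integral_nonneg hab fun x _ => sq_nonneg _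
  have hsum : ∫ x in a..b, (deriv v x ^ 2 - c ^ 2 * v x ^ 2) =
      (∫ x in a..b, (deriv v x - w x * v x) ^ 2) +
      ∫ x in a..b, ((-(c ^ 2) - w x ^ 2) * v x ^ 2 + w x * (2 * v x * deriv v x)) := by
    rw [← intervalIntegral.integral_add hi1 hi2]
    congr 1
    funext x
    ring
  rw [hFTC, add_zero, intervalIntegral.integral_sub, intervalIntegral.integral_const_mul] at hsum
  · linarith
  · exact (hvc'.pow 2).intervalIntegrable _ _
  · exact (continuous_const.mul (hvc.pow 2)).intervalIntegrable _ _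

/-- Poincaré inequality on an open set all of whose intervals have length at most `l`. -/
theorem poinc_open_aux {Ω : Set ℝ} (hΩ : IsOpen Ω) {l : ℝ} (hl : 0 < l)
    (hlong : ∀ x t : ℝ, l < t → ¬ Ioo x (x + t) ⊆ Ω) {v : ℝ → ℝ} (hv : ContDiff ℝ ∞ v)
    (hvc : HasCompactSupport v) (hvs : tsupport v ⊆ Ω) {c : ℝ} (hc : 0 < c)
    (hcl : c * l < Real.pi) :
    c ^ 2 * ∫ x, v x ^ 2 ≤ ∫ x, deriv v x ^ 2 := by
  have hcont : Continuous v := hv.continuous
  have hcont' : Continuous (deriv v) := hv.continuous_deriv (by simp)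
  have hvz : ∀ x, x ∉ Ω → v x = 0 := fun x hx => by
    by_contra h
    exact hx (hvs (subset_tsupport v h))
  -- the next zero
  have hnext : ∀ x, v x = 0 → ∃ y, x < y ∧ y ≤ x + l ∧ v y = 0 ∧ ∀ z, y < z → z ≤ x + l → v z ≠ 0 := by
    intro x hx
    by_cases hex : ∃ y, x < y ∧ y ≤ x + l ∧ v y = 0
    · obtain ⟨y, hy1, hy2, hy3⟩ := hex
      have hcomp : IsCompact ({z | v z = 0} ∩ Icc y (x + l)) :=
        isCompact_Icc.inter_left (isClosed_eq hcont continuous_const)
      have hne : ({z | v z = 0} ∩ Icc y (x + l)).Nonempty := ⟨y, hy3, le_refl _, hy2⟩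
      obtain ⟨m, hm1, hm2⟩ := hcomp.exists_isGreatest hne
      refine ⟨m, lt_of_lt_of_le hy1 hm1.2.1, hm1.2.2, hm1.1, fun z hz1 hz2 hz3 => ?_⟩
      have := hm2 ⟨hz3, hm1.2.1.trans hz1.le, hz2⟩
      linarith
    · exfalso
      push Not at hex
      have h1 : x + l ∈ Ω := by
        by_contra h
        exact hex (x + l) (by linarith) le_rfl (hvz _ h)
      obtain ⟨ε, hε, hball⟩ := Metric.isOpen_iff.1 hΩ _ h1
      apply hlong x (l + ε) (by linarith)
      intro z hz
      by_cases hzl : z ≤ x + l
      · by_contra h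
        exact hex z hz.1 hzl (hvz _ h)
      · apply hball
        rw [Metric.mem_ball, Real.dist_eq, abs_lt]
        constructor
        · push Not at hzl
          linarith
        · linarith [hz.2]
  have hc1 : HasCompactSupport (fun x => v x ^ 2) :=
    hvc.comp_left (g := fun t : ℝ => t ^ 2) (by simp)
  have hc2 : HasCompactSupport (fun x => deriv v x ^ 2) :=
    hvc.deriv.comp_left (g := fun t : ℝ => t ^ 2) (by simp)
  have hcc1 : Continuous (fun x => v x ^ 2) := hcont.pow 2
  have hcc2 : Continuous (fun x => deriv v x ^ 2) := hcont'.pow 2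
  have hi1 : Integrable (fun x => v x ^ 2) := hcc1.integrable_of_hasCompactSupport hc1
  have hi2 : Integrable (fun x => deriv v x ^ 2) := hcc2.integrable_of_hasCompactSupport hc2
  obtain ⟨R, hR⟩ := hvc.isCompact.isBounded.exists_norm_le
  have hout : ∀ x, R < |x| → x ∉ tsupport v := fun x hx h => by
    have := hR x h
    rw [Real.norm_eq_abs] at this
    linarith
  have hout' : ∀ x, R < |x| → deriv v x = 0 := fun x hx => by
    by_contra h
    exact hout x hx (support_deriv_subset h)
  have hout0 : ∀ x, R < |x| → v x = 0 := fun x hx => by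
    by_contra h
    exact hout x hx (subset_tsupport v h)
  -- induction on the number of steps
  have hind : ∀ n : ℕ, ∀ x, v x = 0 → R - n * l < x →
      c ^ 2 * ∫ y in Ioi x, v y ^ 2 ≤ ∫ y in Ioi x, deriv v y ^ 2 := by
    intro n
    induction n with
    | zero =>
      intro x _ hx
      have hx' : R < x := by simpa using hx
      have e1 : ∫ y in Ioi x, v y ^ 2 = 0 := by
        apply setIntegral_eq_zero_of_forall_eq_zero
        intro y hy
        have h1 : x < y := hy
        rw [hout0 y (lt_of_lt_of_le (hx'.trans h1) (le_abs_self y))]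
        norm_num
      rw [e1, mul_zero]
      exact setIntegral_nonneg measurableSet_Ioi fun _ _ => sq_nonneg _
    | succ n ih =>
      -- one step
      have hstep : ∀ x y, v x = 0 → v y = 0 → x < y → y ≤ x + l →
          c ^ 2 * ∫ t in Ioi y, v t ^ 2 ≤ ∫ t in Ioi y, deriv v t ^ 2 →
          c ^ 2 * ∫ t in Ioi x, v t ^ 2 ≤ ∫ t in Ioi x, deriv v t ^ 2 := by
        intro x y hx hy hxy hyl h
        have hp := poinc_interval hv hxy.le hyl hc hcl hx hy
        rw [intervalIntegral.integral_of_le hxy.le, intervalIntegral.integral_of_le hxy.le] at hp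
        have hu : Ioi x = Ioc x y ∪ Ioi y := (Ioc_union_Ioi_eq_Ioi hxy.le).symm
        have hd : Disjoint (Ioc x y) (Ioi y) := Ioc_disjoint_Ioi le_rfl
        rw [hu, setIntegral_union hd measurableSet_Ioi hi1.integrableOn hi1.integrableOn,
          setIntegral_union hd measurableSet_Ioi hi2.integrableOn hi2.integrableOn]
        linarith
      intro x hx hxn
      obtain ⟨y, hy1, hy2, hy3, hy4⟩ := hnext x hx
      obtain ⟨z, hz1, hz2, hz3, -⟩ := hnext y hy3
      have hzx : x + l < z := by
        by_contra h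
        exact hy4 z hz1 (not_lt.1 h) hz3
      apply hstep x y hx hy3 hy1 hy2
      apply hstep y z hy3 hz3 hz1 hz2
      apply ih z hz3
      push_cast at hxn
      linarith
  -- start left of the support
  obtain ⟨x, hx⟩ : ∃ x : ℝ, x < -R ∧ x < 0 := ⟨min (-R) 0 - 1, by
    constructor
    · linarith [min_le_left (-R) 0]
    · linarith [min_le_right (-R) 0]⟩
  have habs : ∀ y, y ≤ x → R < |y| := fun y hy => by
    rw [abs_of_neg (by linarith)]
    linarith
  obtain ⟨n, hn⟩ := exists_nat_gt ((R - x) / l)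
  have hfin := hind n x (hout0 x (habs x le_rfl)) (by
    rw [div_lt_iff₀ hl] at hn
    linarith)
  have e1 : ∫ y in Ioi x, v y ^ 2 = ∫ y, v y ^ 2 := by
    apply setIntegral_eq_integral_of_forall_compl_eq_zero
    intro y hy
    rw [hout0 y (habs y (not_lt.1 hy))]
    norm_num
  have e2 : ∫ y in Ioi x, deriv v y ^ 2 = ∫ y, deriv v y ^ 2 := by
    apply setIntegral_eq_integral_of_forall_compl_eq_zero
    intro y hy
    rw [hout' y (habs y (not_lt.1 hy))]
    norm_num
  rwa [e1, e2] at hfin

theorem poinc_open {Ω : Set ℝ} (hΩ : IsOpen Ω) {l : ℝ} (hl : 0 < l)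
    (hlong : ∀ x t : ℝ, l < t → ¬ Ioo x (x + t) ⊆ Ω) {v : ℝ → ℝ} (hv : ContDiff ℝ ∞ v)
    (hvc : HasCompactSupport v) (hvs : tsupport v ⊆ Ω) :
    (Real.pi / l) ^ 2 * ∫ x, v x ^ 2 ≤ ∫ x, deriv v x ^ 2 := by
  have hlim : Tendsto (fun c : ℝ => c ^ 2 * ∫ x, v x ^ 2) (𝓝[<] (Real.pi / l))
      (𝓝 ((Real.pi / l) ^ 2 * ∫ x, v x ^ 2)) := by
    apply Tendsto.mono_left _ nhdsWithin_le_nhds
    exact ((continuous_id.pow 2).mul continuous_const).tendsto _
  refine le_of_tendsto hlim ?_
  have hpos : 0 < Real.pi / l := div_pos Real.pi_pos hl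
  filter_upwards [Ioo_mem_nhdsLT hpos] with c hc
  refine poinc_open_aux hΩ hl hlong hv hvc hvs hc.1 ?_
  rw [← lt_div_iff₀ hl]
  exact hc.2

end Pool.Agent.Helper500.FK
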