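import Mathlib
import Pool.Agent.Helper500.FKOne

/-! The first eigenvalue of an interval. -/

set_option autoImplicit false

namespace Pool.Agent.Helper500.FK

open MeasureTheory Set Metric Filter Topology
open scoped ContDiff

section gen

variable {E : Type*} [NormedAddCommGroup E] [InnerProductSpace ℝ E] [FiniteDimensional ℝ E]
  [MeasurableSpace E] [BorelSpace E]

theorem ray_nonneg (v : E → ℝ) : 0 ≤ ray v :=
  div_nonneg (integral_nonneg fun _ => sq_nonneg _) (integral_nonneg fun _ => sq_nonneg _)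

theorem bdd_ray (Ω : Set E) : BddBelow {r | ∃ v, IsTest Ω v ∧ r = ray v} :=
  ⟨0, by rintro _ ⟨v, _, rfl⟩; exact ray_nonneg v⟩

theorem lam1_le {Ω : Set E} {v : E → ℝ} (hv : IsTest Ω v) : lam1 Ω ≤ ray v :=
  csInf_le (bdd_ray Ω) ⟨v, hv, rfl⟩

theorem lam1_nonneg (Ω : Set E) : 0 ≤ lam1 Ω :=
  Real.sInf_nonneg (by rintro _ ⟨v, _, rfl⟩; exact ray_nonneg v)

theorem le_lam1 {Ω : Set E} {c : ℝ} (hne : ∃ v, IsTest Ω v) (h : ∀ v, IsTest Ω v → c ≤ ray v) :
    c ≤ lam1 Ω := by
  obtain ⟨v, hv⟩ := hne
  exact le_csInf ⟨_, v, hv, rfl⟩ (by rintro _ ⟨w, hw, rfl⟩; exact h w hw)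

theorem IsTest.sq_pos {Ω : Set E} {v : E → ℝ} (hv : IsTest Ω v) : 0 < ∫ x, v x ^ 2 := by
  obtain ⟨h1, h2, h3, x, hx⟩ := hv
  have hc : Continuous (fun x => v x ^ 2) := h1.continuous.pow 2
  have hs : HasCompactSupport (fun x => v x ^ 2) :=
    h2.comp_left (g := fun t : ℝ => t ^ 2) (by simp)
  exact hc.integral_pos_of_hasCompactSupport_nonneg_nonzero hs (fun _ => sq_nonneg _)
    (x := x) (pow_ne_zero 2 hx)

/-- every nonempty open set has a test function -/
theorem exists_test {Ω : Set E} (hΩ : IsOpen Ω) (hne : Ω.Nonempty) : ∃ v, IsTest Ω v := by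
  obtain ⟨x, hx⟩ := hne
  obtain ⟨ε, hε, hball⟩ := Metric.isOpen_iff.1 hΩ x hx
  let χ : ContDiffBump x := ⟨ε / 4, ε / 2, by positivity, by linarith⟩
  refine ⟨χ, χ.contDiff, χ.hasCompactSupport, ?_, x, ?_⟩
  · rw [χ.tsupport_eq]
    refine (closedBall_subset_ball ?_).trans hball
    show ε / 2 < ε
    linarith
  · have : χ x = 1 := χ.one_of_mem_closedBall (mem_closedBall_self (by positivity))
    rw [this]
    exact one_ne_zero

end gen

theorem ray_real (v : ℝ → ℝ) : ray v = (∫ x, deriv v x ^ 2) / ∫ x, v x ^ 2 := by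
  unfold ray
  congr 2
  funext x
  rw [← norm_deriv_eq_norm_fderiv, Real.norm_eq_abs, sq_abs]

theorem le_lam1_real {Ω : Set ℝ} (hΩ : IsOpen Ω) (hne : Ω.Nonempty) {l : ℝ} (hl : 0 < l)
    (hlong : ∀ x t : ℝ, l < t → ¬ Ioo x (x + t) ⊆ Ω) : (Real.pi / l) ^ 2 ≤ lam1 Ω := by
  apply le_lam1 (exists_test hΩ hne)
  intro v hv
  rw [ray_real, le_div_iff₀ hv.sq_pos]
  exact poinc_open hΩ hl hlong hv.1 hv.2.1 hv.2.2.1

/-- cut-off of the identity near zero -/
noncomputable def cutF (u : ℝ) : ℝ := u * Real.smoothTransition (u - 1)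

theorem cutF_smooth : ContDiff ℝ ∞ cutF := by
  unfold cutF
  exact contDiff_id.mul (Real.smoothTransition.contDiff.comp (contDiff_id.sub contDiff_const))

theorem cutF_zero {u : ℝ} (hu : u ≤ 1) : cutF u = 0 := by
  unfold cutF
  rw [Real.smoothTransition.zero_of_nonpos (by linarith), mul_zero]

theorem cutF_eq {u : ℝ} (hu : 2 ≤ u) : cutF u = u := by
  unfold cutF
  rw [Real.smoothTransition.one_of_one_le (by linarith), mul_one]

theorem cutF_abs_le (u : ℝ) : |cutF u| ≤ |u| := by
  unfold cutF
  rw [abs_mul, abs_of_nonneg (Real.smoothTransition.nonneg _)]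
  exact mul_le_of_le_one_right (abs_nonneg _) (Real.smoothTransition.le_one _)

theorem cutF_deriv_one {u : ℝ} (hu : 2 < u) : deriv cutF u = 1 := by
  have h : cutF =ᶠ[𝓝 u] fun x => x := by
    filter_upwards [lt_mem_nhds hu] with y hy
    exact cutF_eq hy.le
  rw [h.deriv_eq]
  simp

theorem cutF_deriv_bdd : ∃ C : ℝ, ∀ u, |deriv cutF u| ≤ C := by
  have hc : Continuous (deriv cutF) := cutF_smooth.continuous_deriv (by simp)
  obtain ⟨C, hC⟩ := (isCompact_Icc (a := (0 : ℝ)) (b := 3)).exists_bound_of_continuousOn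
    hc.continuousOn
  refine ⟨max C 1, fun u => ?_⟩
  rcases lt_or_ge u 0 with h | h
  · have h0 : cutF =ᶠ[𝓝 u] fun _ => 0 := by
      filter_upwards [gt_mem_nhds h] with y hy
      exact cutF_zero (by linarith)
    rw [h0.deriv_eq]
    simp
  · rcases le_or_gt u 3 with h3 | h3
    · exact (hC u ⟨h, h3⟩).trans (le_max_left _ _)
    · rw [cutF_deriv_one (by linarith)]
      simp

/-- approximate eigenfunctions of the interval `(-m/2, m/2)` -/
noncomputable def apx (m : ℝ) (n : ℕ) (x : ℝ) : ℝ :=
  if |x| < m / 2 then cutF ((n + 1) * Real.cos (Real.pi / m * x)) / (n + 1) else 0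

theorem apx_near {m : ℝ} (hm : 0 < m) (n : ℕ) {x : ℝ} (hx : m / 2 ≤ |x|) :
    apx m n =ᶠ[𝓝 x] fun _ => 0 := by
  rcases hx.lt_or_eq with h | h
  · have h1 : ∀ᶠ y in 𝓝 x, m / 2 < |y| := continuous_abs.continuousAt.eventually (lt_mem_nhds h)
    filter_upwards [h1] with y hy
    unfold apx
    rw [if_neg (not_lt.2 hy.le)]
  · have hcos : Real.cos (Real.pi / m * x) = 0 := by
      rw [← Real.cos_abs, abs_mul, ← h, abs_of_pos (by positivity)]
      have : Real.pi / m * (m / 2) = Real.pi / 2 := by field_simp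
      rw [this, Real.cos_pi_div_two]
    have hc : ContinuousAt (fun y => ((n : ℝ) + 1) * Real.cos (Real.pi / m * y)) x := by fun_prop
    have h1 : ∀ᶠ y in 𝓝 x, ((n : ℝ) + 1) * Real.cos (Real.pi / m * y) < 1 := by
      apply hc.eventually (gt_mem_nhds _)
      show ((n : ℝ) + 1) * Real.cos (Real.pi / m * x) < 1
      rw [hcos, mul_zero]
      exact one_pos
    filter_upwards [h1] with y hy
    unfold apx
    rw [cutF_zero hy.le]
    simp

theorem apx_near' {m : ℝ} (n : ℕ) {x : ℝ} (hx : |x| < m / 2) :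
    apx m n =ᶠ[𝓝 x] fun y => cutF ((n + 1) * Real.cos (Real.pi / m * y)) / (n + 1) := by
  have h1 : ∀ᶠ y in 𝓝 x, |y| < m / 2 := continuous_abs.continuousAt.eventually (gt_mem_nhds hx)
  filter_upwards [h1] with y hy
  unfold apx
  rw [if_pos hy]

theorem apx_smooth {m : ℝ} (hm : 0 < m) (n : ℕ) : ContDiff ℝ ∞ (apx m n) := by
  rw [contDiff_iff_contDiffAt]
  intro x
  rcases lt_or_ge |x| (m / 2) with h | h
  · apply ContDiffAt.congr_of_eventuallyEq _ (apx_near' n h)
    apply ContDiff.contDiffAt
    apply ContDiff.div_const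
    apply cutF_smooth.comp
    apply contDiff_const.mul
    exact Real.contDiff_cos.comp (contDiff_const.mul contDiff_id)
  · exact contDiffAt_const.congr_of_eventuallyEq (apx_near hm n h)

theorem apx_deriv {m : ℝ} (hm : 0 < m) (n : ℕ) (x : ℝ) :
    deriv (apx m n) x = if |x| < m / 2 then
      deriv cutF ((n + 1) * Real.cos (Real.pi / m * x)) *
        (-(Real.pi / m) * Real.sin (Real.pi / m * x)) else 0 := by
  split_ifs with h
  · rw [(apx_near' n h).deriv_eq]
    have h1 : HasDerivAt (fun y : ℝ => ((n : ℝ) + 1) * Real.cos (Real.pi / m * y))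
        ((n + 1) * (-Real.sin (Real.pi / m * x) * (Real.pi / m))) x := by
      have h0 : HasDerivAt (fun y : ℝ => Real.pi / m * y) (Real.pi / m) x := by
        simpa using (hasDerivAt_id x).const_mul (Real.pi / m)
      exact h0.cos.const_mul _
    have h2 : HasDerivAt cutF (deriv cutF ((n + 1) * Real.cos (Real.pi / m * x)))
        ((n + 1) * Real.cos (Real.pi / m * x)) :=
      ((cutF_smooth.differentiable (by simp)) _).hasDerivAt
    have h3 := (h2.comp x h1).div_const ((n : ℝ) + 1)
    have h4 : deriv (fun y => cutF ((n + 1) * Real.cos (Real.pi / m * y)) / ((n : ℝ) + 1)) x = _ :=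
      h3.deriv
    rw [h4]
    have : (n : ℝ) + 1 ≠ 0 := by positivity
    field_simp
  · rw [(apx_near hm n (not_lt.1 h)).deriv_eq]
    simp

theorem apx_test {m : ℝ} (hm : 0 < m) (n : ℕ) (hn : 1 ≤ n) : IsTest (ball (0 : ℝ) (m / 2)) (apx m n) := by
  have hK : tsupport (apx m n) ⊆ closedBall (0 : ℝ) (m / 2) ∩
      {x | 1 ≤ ((n : ℝ) + 1) * Real.cos (Real.pi / m * x)} := by
    apply closure_minimal
    · intro x hx
      have hx' : apx m n x ≠ 0 := hx
      unfold apx at hx'
      split_ifs at hx' with h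
      · refine ⟨?_, ?_⟩
        · rw [mem_closedBall_zero_iff, Real.norm_eq_abs]
          exact h.le
        · show 1 ≤ ((n : ℝ) + 1) * Real.cos (Real.pi / m * x)
          by_contra hc
          apply hx'
          rw [cutF_zero (not_le.1 hc).le, zero_div]
      · exact absurd rfl hx'
    · exact isClosed_closedBall.inter (isClosed_le continuous_const (by fun_prop))
  refine ⟨apx_smooth hm n, ?_, ?_, 0, ?_⟩
  · exact HasCompactSupport.of_support_subset_isCompact (isCompact_closedBall (0 : ℝ) (m / 2))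
      (fun x hx => (hK (subset_tsupport _ hx)).1)
  · intro x hx
    obtain ⟨h1, h2⟩ := hK hx
    rw [mem_closedBall_zero_iff, Real.norm_eq_abs] at h1
    rw [mem_ball_zero_iff, Real.norm_eq_abs]
    apply lt_of_le_of_ne h1
    intro he
    have hcos : Real.cos (Real.pi / m * x) = 0 := by
      rw [← Real.cos_abs, abs_mul, he, abs_of_pos (by positivity)]
      have : Real.pi / m * (m / 2) = Real.pi / 2 := by field_simp
      rw [this, Real.cos_pi_div_two]
    have h3 : 1 ≤ ((n : ℝ) + 1) * Real.cos (Real.pi / m * x) := h2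
    rw [hcos, mul_zero] at h3
    linarith
  · unfold apx
    rw [if_pos (by rw [abs_zero]; positivity), mul_zero, Real.cos_zero, mul_one, cutF_eq]
    · have : (n : ℝ) + 1 ≠ 0 := by positivity
      rw [div_self this]
      exact one_ne_zero
    · have : (1 : ℝ) ≤ n := by exact_mod_cast hn
      linarith

theorem int_cos {m : ℝ} (hm : 0 < m) :
    ∫ x in ball (0 : ℝ) (m / 2), Real.cos (Real.pi / m * x) ^ 2 = m / 2 := by
  rw [Real.ball_eq_Ioo, ← integral_Ioc_eq_integral_Ioo, ← intervalIntegral.integral_of_le (by linarith)]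
  rw [intervalIntegral.integral_comp_mul_left (fun x => Real.cos x ^ 2) (by positivity : Real.pi / m ≠ 0),
    integral_cos_sq]
  have e1 : Real.pi / m * (0 + m / 2) = Real.pi / 2 := by field_simp; ring
  have e2 : Real.pi / m * (0 - m / 2) = -(Real.pi / 2) := by field_simp; ring
  rw [e1, e2, Real.cos_neg, Real.cos_pi_div_two, smul_eq_mul]
  field_simp
  ring

theorem int_sin {m : ℝ} (hm : 0 < m) :
    ∫ x in ball (0 : ℝ) (m / 2), (-(Real.pi / m) * Real.sin (Real.pi / m * x)) ^ 2 =
      (Real.pi / m) ^ 2 * (m / 2) := by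
  have h : ∀ x : ℝ, (-(Real.pi / m) * Real.sin (Real.pi / m * x)) ^ 2 =
      (Real.pi / m) ^ 2 * Real.sin (Real.pi / m * x) ^ 2 := fun x => by ring
  simp only [h]
  rw [integral_const_mul]
  congr 1
  rw [Real.ball_eq_Ioo, ← integral_Ioc_eq_integral_Ioo, ← intervalIntegral.integral_of_le (by linarith)]
  rw [intervalIntegral.integral_comp_mul_left (fun x => Real.sin x ^ 2) (by positivity : Real.pi / m ≠ 0),
    integral_sin_sq]
  have e1 : Real.pi / m * (0 + m / 2) = Real.pi / 2 := by field_simp; ring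
  have e2 : Real.pi / m * (0 - m / 2) = -(Real.pi / 2) := by field_simp; ring
  rw [e1, e2, Real.cos_neg, Real.cos_pi_div_two, smul_eq_mul]
  field_simp
  ring

theorem lam1_interval_le {m : ℝ} (hm : 0 < m) : lam1 (ball (0 : ℝ) (m / 2)) ≤ (Real.pi / m) ^ 2 := by
  obtain ⟨C, hC⟩ := cutF_deriv_bdd
  have hC0 : 0 ≤ C := (abs_nonneg _).trans (hC 0)
  have hfin : volume (ball (0 : ℝ) (m / 2)) ≠ ⊤ := measure_ball_lt_top.ne
  have hmem : ∀ x : ℝ, |x| < m / 2 ↔ x ∈ ball (0 : ℝ) (m / 2) := fun x => by
    rw [mem_ball_zero_iff, Real.norm_eq_abs]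
  -- eventually equal
  have hev : ∀ x : ℝ, |x| < m / 2 → ∀ᶠ n : ℕ in atTop, 2 < ((n : ℝ) + 1) * Real.cos (Real.pi / m * x) := by
    intro x hx
    have hcos : 0 < Real.cos (Real.pi / m * x) := by
      apply Real.cos_pos_of_mem_Ioo
      rw [abs_lt] at hx
      have hp : 0 < Real.pi / m := by positivity
      have e1 : Real.pi / m * (m / 2) = Real.pi / 2 := by field_simp
      constructor
      · have := mul_lt_mul_of_pos_left hx.1 hp
        linarith
      · have := mul_lt_mul_of_pos_left hx.2 hp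
        linarith
    obtain ⟨N, hN⟩ := exists_nat_gt (2 / Real.cos (Real.pi / m * x))
    filter_upwards [eventually_ge_atTop N] with n hn
    have h1 : (N : ℝ) ≤ n := by exact_mod_cast hn
    rw [div_lt_iff₀ hcos] at hN
    nlinarith
  have hlim1 : Tendsto (fun n : ℕ => ∫ x, apx m n x ^ 2) atTop (𝓝 (m / 2)) := by
    rw [← int_cos hm, ← integral_indicator measurableSet_ball]
    apply tendsto_integral_of_dominated_convergence
      ((ball (0 : ℝ) (m / 2)).indicator fun _ => (1 : ℝ))
    · intro n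
      exact ((apx_smooth hm n).continuous.pow 2).aestronglyMeasurable
    · exact (integrable_indicator_iff measurableSet_ball).2 (integrableOn_const hfin)
    · intro n
      filter_upwards with x
      unfold apx
      by_cases h : |x| < m / 2
      · rw [if_pos h, indicator_of_mem ((hmem x).1 h), Real.norm_eq_abs, abs_pow, abs_div]
        have h1 := cutF_abs_le ((n + 1) * Real.cos (Real.pi / m * x))
        have h2 : |((n : ℝ) + 1) * Real.cos (Real.pi / m * x)| ≤ |(n : ℝ) + 1| := by
          rw [abs_mul]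
          exact mul_le_of_le_one_right (abs_nonneg _) (Real.abs_cos_le_one _)
        have h3 : 0 < |(n : ℝ) + 1| := abs_pos.2 (by positivity)
        have h4 : |cutF ((n + 1) * Real.cos (Real.pi / m * x))| / |(n : ℝ) + 1| ≤ 1 := by
          rw [div_le_one h3]
          exact h1.trans h2
        exact pow_le_one₀ (by positivity) h4
      · rw [if_neg h, indicator_of_notMem (fun hc => h ((hmem x).2 hc))]
        simp
    · filter_upwards with x
      apply Tendsto.congr' _ tendsto_const_nhds
      by_cases h : |x| < m / 2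
      · filter_upwards [hev x h] with n hn
        unfold apx
        rw [if_pos h, indicator_of_mem ((hmem x).1 h), cutF_eq hn.le]
        have : (n : ℝ) + 1 ≠ 0 := by positivity
        field_simp
      · filter_upwards with n
        unfold apx
        rw [if_neg h, indicator_of_notMem (fun hc => h ((hmem x).2 hc))]
        simp
  have hlim2 : Tendsto (fun n : ℕ => ∫ x, deriv (apx m n) x ^ 2) atTop
      (𝓝 ((Real.pi / m) ^ 2 * (m / 2))) := by
    rw [← int_sin hm, ← integral_indicator measurableSet_ball]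
    apply tendsto_integral_of_dominated_convergence
      ((ball (0 : ℝ) (m / 2)).indicator fun _ => (C * (Real.pi / m)) ^ 2)
    · intro n
      exact (((apx_smooth hm n).continuous_deriv (by simp)).pow 2).aestronglyMeasurable
    · exact (integrable_indicator_iff measurableSet_ball).2 (integrableOn_const hfin)
    · intro n
      filter_upwards with x
      rw [apx_deriv hm]
      by_cases h : |x| < m / 2
      · rw [if_pos h, indicator_of_mem ((hmem x).1 h), Real.norm_eq_abs, abs_pow]
        apply pow_le_pow_left₀ (abs_nonneg _)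
        rw [abs_mul, abs_mul, abs_neg, abs_of_pos (by positivity : 0 < Real.pi / m)]
        have h5 : Real.pi / m * |Real.sin (Real.pi / m * x)| ≤ Real.pi / m :=
          mul_le_of_le_one_right (by positivity) (Real.abs_sin_le_one _)
        exact mul_le_mul (hC _) h5 (by positivity) hC0
      · rw [if_neg h, indicator_of_notMem (fun hc => h ((hmem x).2 hc))]
        simp
    · filter_upwards with x
      apply Tendsto.congr' _ tendsto_const_nhds
      by_cases h : |x| < m / 2
      · filter_upwards [hev x h] with n hn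
        rw [apx_deriv hm, if_pos h, indicator_of_mem ((hmem x).1 h), cutF_deriv_one hn, one_mul]
      · filter_upwards with n
        rw [apx_deriv hm, if_neg h, indicator_of_notMem (fun hc => h ((hmem x).2 hc))]
        simp
  have hlim : Tendsto (fun n : ℕ => ray (apx m n)) atTop (𝓝 ((Real.pi / m) ^ 2)) := by
    have h := hlim2.div hlim1 (by positivity)
    have e : (Real.pi / m) ^ 2 * (m / 2) / (m / 2) = (Real.pi / m) ^ 2 := by field_simp
    rw [e] at h
    refine h.congr fun n => ?_
    rw [ray_real]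
    rfl
  refine ge_of_tendsto hlim ?_
  filter_upwards [eventually_ge_atTop 1] with n hn
  exact lam1_le (apx_test hm n hn)

theorem lam1_interval {m : ℝ} (hm : 0 < m) : lam1 (ball (0 : ℝ) (m / 2)) = (Real.pi / m) ^ 2 := by
  apply le_antisymm (lam1_interval_le hm)
  apply le_lam1_real isOpen_ball ⟨0, mem_ball_self (by positivity)⟩ hm
  intro x t ht hsub
  have h1 : volume (Ioo x (x + t)) ≤ volume (ball (0 : ℝ) (m / 2)) := measure_mono hsub
  rw [Real.volume_Ioo, Real.volume_ball] at h1
  have h2 : (x + t - x) ≤ 2 * (m / 2) := (ENNReal.ofReal_le_ofReal_iff (by linarith)).1 h1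
  linarith

end Pool.Agent.Helper500.FK
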