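import Mathlib
import Pool.Agent.Helper500.FKInt

/-! Far apart balls: an upper bound for the optimal constant in every dimension. -/

set_option autoImplicit false

namespace Pool.Agent.Helper500.FK

open MeasureTheory Set Metric Filter Topology
open scoped ContDiff

variable {E : Type*} [NormedAddCommGroup E] [InnerProductSpace ℝ E] [FiniteDimensional ℝ E]
  [MeasurableSpace E] [BorelSpace E]

/-- moving and scaling a function -/
noncomputable def scl (t : ℝ) (c : E) (v : E → ℝ) (x : E) : ℝ := v (t⁻¹ • (x - c))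

theorem scl_test {t ρ : ℝ} (ht : 0 < t) (c : E) {v : E → ℝ} (hv : IsTest (ball (0 : E) ρ) v) :
    IsTest (ball c (t * ρ)) (scl t c v) := by
  obtain ⟨h1, h2, h3, x, hx⟩ := hv
  have ht' : t⁻¹ ≠ 0 := by positivity
  let g : E ≃ₜ E := (Homeomorph.addRight (-c)).trans (Homeomorph.smulOfNeZero t⁻¹ ht')
  have hg : ∀ x, g x = t⁻¹ • (x - c) := fun x => by
    show t⁻¹ • (x + -c) = _
    rw [← sub_eq_add_neg]
  have hw : scl t c v = v ∘ g := by
    funext x
    show v (t⁻¹ • (x - c)) = v (g x)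
    rw [hg]
  have hts : tsupport (scl t c v) = g ⁻¹' tsupport v := by
    rw [hw]
    exact tsupport_comp_eq_preimage v g
  refine ⟨?_, ?_, ?_, g.symm x, ?_⟩
  · exact h1.comp (contDiff_const.smul (contDiff_id.sub contDiff_const))
  · rw [hw]
    exact h2.comp_homeomorph g
  · rw [hts]
    intro y hy
    have h4 : g y ∈ ball (0 : E) ρ := h3 hy
    rw [mem_ball_zero_iff, hg, norm_smul, Real.norm_of_nonneg (by positivity)] at h4
    rw [mem_ball, dist_eq_norm]
    rwa [inv_mul_lt_iff₀ ht] at h4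
  · rw [hw]
    show v (g (g.symm x)) ≠ 0
    rw [g.apply_symm_apply]
    exact hx

theorem scl_ray {t : ℝ} (ht : 0 < t) (c : E) {v : E → ℝ} (hv : ContDiff ℝ ∞ v) :
    ray (scl t c v) = (t ^ 2)⁻¹ * ray v := by
  have hint : ∀ f : E → ℝ, ∫ x, f (t⁻¹ • (x - c)) =
      |((t⁻¹) ^ Module.finrank ℝ E)⁻¹| * ∫ x, f x := by
    intro f
    have h1 := integral_sub_right_eq_self (μ := (volume : Measure E)) (fun x => f (t⁻¹ • x)) c
    rw [h1, Measure.integral_comp_smul, smul_eq_mul]
  have hfd : ∀ x, ‖fderiv ℝ (scl t c v) x‖ ^ 2 = (t ^ 2)⁻¹ * ‖fderiv ℝ v (t⁻¹ • (x - c))‖ ^ 2 := by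
    intro x
    have h1 : HasFDerivAt (fun y : E => t⁻¹ • (y - c)) (t⁻¹ • ContinuousLinearMap.id ℝ E) x :=
      ((hasFDerivAt_id x).sub_const c).const_smul t⁻¹
    have h2 : HasFDerivAt v (fderiv ℝ v (t⁻¹ • (x - c))) (t⁻¹ • (x - c)) :=
      ((hv.differentiable (by simp)) _).hasFDerivAt
    have h3 : fderiv ℝ (scl t c v) x =
        (fderiv ℝ v (t⁻¹ • (x - c))).comp (t⁻¹ • ContinuousLinearMap.id ℝ E) :=
      (h2.comp x h1).fderiv
    rw [h3, ContinuousLinearMap.comp_smul, ContinuousLinearMap.comp_id, norm_smul,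
      Real.norm_of_nonneg (by positivity), mul_pow, inv_pow]
  unfold ray
  simp only [hfd]
  rw [integral_const_mul, hint (fun x => ‖fderiv ℝ v x‖ ^ 2)]
  have h5 : ∫ x, scl t c v x ^ 2 = |((t⁻¹) ^ Module.finrank ℝ E)⁻¹| * ∫ x, v x ^ 2 :=
    hint (fun x => v x ^ 2)
  rw [h5]
  have hne : |((t⁻¹) ^ Module.finrank ℝ E)⁻¹| ≠ 0 := by positivity
  rw [mul_left_comm, mul_div_mul_left _ _ hne, mul_div_assoc]

/-- the radius of the balls of volume one -/
noncomputable def rho1 (E : Type*) [NormedAddCommGroup E] [InnerProductSpace ℝ E]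
    [FiniteDimensional ℝ E] [MeasurableSpace E] [BorelSpace E] : ℝ :=
  (1 / (volume (ball (0 : E) 1)).toReal) ^ ((1 : ℝ) / Module.finrank ℝ E)

theorem om_pos [Nontrivial E] : 0 < (volume (ball (0 : E) 1)).toReal :=
  ENNReal.toReal_pos (measure_ball_pos _ _ one_pos).ne' measure_ball_lt_top.ne

theorem rho1_pos [Nontrivial E] : 0 < rho1 E :=
  Real.rpow_pos_of_pos (by have := om_pos (E := E); positivity) _

theorem fr_pos [Nontrivial E] : 0 < Module.finrank ℝ E := Module.finrank_pos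

theorem rho1_pow [Nontrivial E] :
    rho1 E ^ Module.finrank ℝ E * (volume (ball (0 : E) 1)).toReal = 1 := by
  have h := om_pos (E := E)
  have hN := fr_pos (E := E)
  unfold rho1
  rw [← Real.rpow_natCast, ← Real.rpow_mul (by positivity)]
  have e : (1 : ℝ) / Module.finrank ℝ E * Module.finrank ℝ E = 1 := by
    have : (Module.finrank ℝ E : ℝ) ≠ 0 := by exact_mod_cast hN.ne'
    field_simp
  rw [e, Real.rpow_one]
  field_simp

theorem vol_ball [Nontrivial E] (c : E) {r : ℝ} (hr : 0 ≤ r) :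
    volume (ball c r) = ENNReal.ofReal (r ^ Module.finrank ℝ E * (volume (ball (0 : E) 1)).toReal) := by
  rw [Measure.addHaar_ball _ _ hr, ENNReal.ofReal_mul (by positivity),
    ENNReal.ofReal_toReal measure_ball_lt_top.ne]

theorem vol_ball_w [Nontrivial E] (c : E) {w : ℝ} (hw : 0 ≤ w) :
    volume (ball c (w ^ ((1 : ℝ) / Module.finrank ℝ E) * rho1 E)) = ENNReal.ofReal w := by
  have hN := fr_pos (E := E)
  rw [vol_ball c (by have := rho1_pos (E := E); positivity)]
  congr 1
  rw [mul_pow, mul_assoc, rho1_pow, mul_one, ← Real.rpow_natCast, ← Real.rpow_mul hw]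
  have e : (1 : ℝ) / Module.finrank ℝ E * Module.finrank ℝ E = 1 := by
    have : (Module.finrank ℝ E : ℝ) ≠ 0 := by exact_mod_cast hN.ne'
    field_simp
  rw [e, Real.rpow_one]

/-- a ball of volume one has radius `rho1` -/
theorem ball_radius [Nontrivial E] {c : E} {r : ℝ} (h : volume (ball c r) = 1) : r = rho1 E := by
  have hN := fr_pos (E := E)
  have hr : 0 ≤ r := by
    by_contra hr
    rw [ball_eq_empty.2 (not_le.1 hr).le, measure_empty] at h
    exact zero_ne_one h
  rw [vol_ball c hr] at h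
  have h' := (ENNReal.ofReal_eq_ofReal_iff (by have := om_pos (E := E); positivity)
    zero_le_one).1 (h.trans ENNReal.ofReal_one.symm)
  have h2 := mul_right_cancel₀ (om_pos (E := E)).ne' (h'.trans (rho1_pow (E := E)).symm)
  exact (pow_left_inj₀ hr (rho1_pos (E := E)).le hN.ne').1 h2

section far

variable [Nontrivial E] {ι : Type} [Fintype ι] {w : ι → ℝ} {c : ι → E} {s : ℝ}

/-- union of balls of volumes `w i` -/
def far (w : ι → ℝ) (c : ι → E) : Set E :=
  ⋃ i, ball (c i) (w i ^ ((1 : ℝ) / Module.finrank ℝ E) * rho1 E)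

theorem far_open : IsOpen (far w c) := isOpen_iUnion fun _ => isOpen_ball

theorem far_radius (hw0 : ∀ i, 0 ≤ w i) (hw1 : ∀ i, w i ≤ 1) (i : ι) :
    w i ^ ((1 : ℝ) / Module.finrank ℝ E) * rho1 E ≤ rho1 E :=
  mul_le_of_le_one_left (rho1_pos (E := E)).le
    (Real.rpow_le_one (hw0 i) (hw1 i) (by positivity))

theorem far_vol (hw0 : ∀ i, 0 ≤ w i) (hw1 : ∀ i, w i ≤ 1) (hsum : ∑ i, w i = 1)
    (hc : ∀ i j, i ≠ j → 4 * rho1 E ≤ dist (c i) (c j)) : volume (far w c) = 1 := by
  unfold far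
  rw [measure_iUnion]
  · rw [tsum_fintype]
    simp only [vol_ball_w _ (hw0 _)]
    rw [← ENNReal.ofReal_sum_of_nonneg fun i _ => hw0 i, hsum, ENNReal.ofReal_one]
  · intro i j hij
    apply ball_disjoint_ball
    have h1 := far_radius (E := E) hw0 hw1 i
    have h2 := far_radius (E := E) hw0 hw1 j
    have h3 := hc i j hij
    have h4 := rho1_pos (E := E)
    linarith
  · exact fun i => measurableSet_ball

theorem far_inter (hw0 : ∀ i, 0 ≤ w i) (hs : ∀ i, w i ≤ s) (hs0 : 0 ≤ s) (hs1 : s ≤ 1)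
    (hc : ∀ i j, i ≠ j → 4 * rho1 E ≤ dist (c i) (c j)) (b : E) :
    volume (far w c ∩ ball b (rho1 E)) ≤ ENNReal.ofReal s := by
  have hw1 : ∀ i, w i ≤ 1 := fun i => (hs i).trans hs1
  by_cases hex : ∃ i, ∃ p, p ∈ ball (c i) (w i ^ ((1 : ℝ) / Module.finrank ℝ E) * rho1 E) ∧
      p ∈ ball b (rho1 E)
  · obtain ⟨i, p, hp1, hp2⟩ := hex
    have hsub : far w c ∩ ball b (rho1 E) ⊆
        ball (c i) (w i ^ ((1 : ℝ) / Module.finrank ℝ E) * rho1 E) := by
      rintro q ⟨hq1, hq2⟩
      unfold far at hq1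
      rw [mem_iUnion] at hq1
      obtain ⟨j, hj⟩ := hq1
      by_cases hij : i = j
      · rw [hij]
        exact hj
      · exfalso
        have h3 := hc i j hij
        have h1 := far_radius (E := E) hw0 hw1 i
        have h2 := far_radius (E := E) hw0 hw1 j
        rw [mem_ball] at hp1 hp2 hj hq2
        have t1 : dist (c i) (c j) ≤ dist (c i) p + dist p b + (dist b q + dist q (c j)) := by
          have a1 := dist_triangle (c i) p (c j)
          have a2 := dist_triangle p b (c j)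
          have a3 := dist_triangle b q (c j)
          linarith
        rw [dist_comm (c i) p, dist_comm b q] at t1
        linarith
    exact (measure_mono hsub).trans (by
      rw [vol_ball_w _ (hw0 i)]
      exact ENNReal.ofReal_le_ofReal (hs i))
  · have hemp : far w c ∩ ball b (rho1 E) = ∅ := by
      rw [eq_empty_iff_forall_notMem]
      rintro q ⟨hq1, hq2⟩
      unfold far at hq1
      rw [mem_iUnion] at hq1
      obtain ⟨j, hj⟩ := hq1
      exact hex ⟨j, q, hj, hq2⟩
    rw [hemp, measure_empty]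
    exact bot_le

theorem far_asym (hw0 : ∀ i, 0 ≤ w i) (hs : ∀ i, w i ≤ s) (hs0 : 0 ≤ s) (hs1 : s ≤ 1)
    (hsum : ∑ i, w i = 1) (hc : ∀ i j, i ≠ j → 4 * rho1 E ≤ dist (c i) (c j)) :
    2 * (1 - s) ≤ asym (far w c) := by
  have hw1 : ∀ i, w i ≤ 1 := fun i => (hs i).trans hs1
  have hvol := far_vol hw0 hw1 hsum hc
  have hρ : volume (ball (0 : E) (rho1 E)) = 1 := by
    have h := vol_ball_w (0 : E) zero_le_one
    rwa [Real.one_rpow, one_mul, ENNReal.ofReal_one] at h
  apply le_csInf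
  · exact ⟨_, 0, rho1 E, by rw [hvol, hρ], rfl⟩
  · rintro _ ⟨b, r, hr, rfl⟩
    rw [hvol] at hr
    have hr' := ball_radius hr
    subst hr'
    have hvol' : vol (far w c) = 1 := by
      unfold vol
      rw [hvol, ENNReal.toReal_one]
    rw [hvol', div_one]
    have hi := far_inter hw0 hs hs0 hs1 hc b
    have hmB : MeasurableSet (ball b (rho1 E)) := measurableSet_ball
    have hmF : MeasurableSet (far w c) := far_open.measurableSet
    have h1 : volume (far w c) = volume (far w c ∩ ball b (rho1 E)) + volume (far w c \ ball b (rho1 E)) :=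
      (measure_inter_add_sdiff _ hmB).symm
    have h2 : volume (ball b (rho1 E)) =
        volume (ball b (rho1 E) ∩ far w c) + volume (ball b (rho1 E) \ far w c) :=
      (measure_inter_add_sdiff _ hmF).symm
    rw [inter_comm] at h2
    have hfi : volume (far w c ∩ ball b (rho1 E)) ≠ ⊤ :=
      (hi.trans_lt ENNReal.ofReal_lt_top).ne
    have hf1 : volume (far w c \ ball b (rho1 E)) ≠ ⊤ := by
      have : volume (far w c \ ball b (rho1 E)) ≤ 1 := by
        rw [← hvol]
        exact measure_mono sdiff_subset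
      exact (this.trans_lt ENNReal.one_lt_top).ne
    have hf2 : volume (ball b (rho1 E) \ far w c) ≠ ⊤ := by
      have : volume (ball b (rho1 E) \ far w c) ≤ 1 := by
        rw [← hr]
        exact measure_mono sdiff_subset
      exact (this.trans_lt ENNReal.one_lt_top).ne
    have hsd : vol (symmDiff (far w c) (ball b (rho1 E))) =
        (volume (far w c \ ball b (rho1 E))).toReal + (volume (ball b (rho1 E) \ far w c)).toReal := by
      unfold vol
      rw [← ENNReal.toReal_add hf1 hf2]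
      congr 1
      exact measure_union (disjoint_sdiff_sdiff) (hmB.diff hmF)
    rw [hvol] at h1
    rw [hr] at h2
    have h1' := congrArg ENNReal.toReal h1
    have h2' := congrArg ENNReal.toReal h2
    rw [ENNReal.toReal_one, ENNReal.toReal_add hfi hf1] at h1'
    rw [ENNReal.toReal_one, ENNReal.toReal_add hfi hf2] at h2'
    have h3 : (volume (far w c ∩ ball b (rho1 E))).toReal ≤ s := ENNReal.toReal_le_of_le_ofReal hs0 hi
    rw [hsd]
    linarith

theorem lam1_mono {Ω Ω' : Set E} (h : Ω ⊆ Ω') (hne : ∃ v, IsTest Ω v) : lam1 Ω' ≤ lam1 Ω :=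
  le_lam1 hne fun _ hv => lam1_le ⟨hv.1, hv.2.1, hv.2.2.1.trans h, hv.2.2.2⟩

theorem lam1_scl {t ρ : ℝ} (ht : 0 < t) (hρ : 0 < ρ) (c : E) :
    lam1 (ball c (t * ρ)) ≤ (t ^ 2)⁻¹ * lam1 (ball (0 : E) ρ) := by
  have h1 : t ^ 2 * lam1 (ball c (t * ρ)) ≤ lam1 (ball (0 : E) ρ) := by
    apply le_lam1 (exists_test isOpen_ball ⟨0, mem_ball_self hρ⟩)
    intro v hv
    have h2 := lam1_le (scl_test ht c hv)
    rw [scl_ray ht c hv.1] at h2
    have h3 := mul_le_mul_of_nonneg_left h2 (by positivity : 0 ≤ t ^ 2)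
    rwa [← mul_assoc, mul_inv_cancel₀ (by positivity), one_mul] at h3
  rw [← div_eq_inv_mul, le_div_iff₀ (by positivity), mul_comm]
  exact h1

theorem far_lam {i0 : ι} (hi0 : w i0 = s) (hs0 : 0 < s) :
    lam1 (far w c) ≤ s ^ (-(2 : ℝ) / Module.finrank ℝ E) * lam1 (ball (0 : E) (rho1 E)) := by
  have ht : 0 < s ^ ((1 : ℝ) / Module.finrank ℝ E) := Real.rpow_pos_of_pos hs0 _
  have hsub : ball (c i0) (s ^ ((1 : ℝ) / Module.finrank ℝ E) * rho1 E) ⊆ far w c := by
    unfold far
    refine subset_iUnion_of_subset i0 ?_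
    rw [hi0]
  have h1 := lam1_mono hsub (exists_test isOpen_ball ⟨c i0, mem_ball_self
    (mul_pos ht (rho1_pos (E := E)))⟩)
  refine h1.trans ((lam1_scl ht (rho1_pos (E := E)) (c i0)).trans_eq ?_)
  congr 1
  rw [← Real.rpow_natCast, ← Real.rpow_mul hs0.le, ← Real.rpow_neg hs0.le]
  congr 1
  push_cast
  ring

end far

/-- far apart balls, the largest of which has the proportion `s` of the volume -/
theorem exists_far [Nontrivial E] {s : ℝ} (hs0 : 0 < s) (hs1 : s < 1) :
    ∃ Ω : Set E, IsOpen Ω ∧ volume Ω = 1 ∧ 2 * (1 - s) ≤ asym Ω ∧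
      (∃ c : E, ball c (s ^ ((1 : ℝ) / Module.finrank ℝ E) * rho1 E) ⊆ Ω) ∧
      deficit Ω ≤ lam1 (ball (0 : E) (rho1 E)) * (s ^ (-(2 : ℝ) / Module.finrank ℝ E) - 1) := by
  -- weights
  set k : ℕ := ⌊1 / s⌋₊ with hk
  have hk1 : 1 ≤ k := by
    rw [hk, Nat.one_le_floor_iff]
    rw [le_div_iff₀ hs0]
    linarith
  have hk2 : (k : ℝ) * s ≤ 1 := by
    rw [← le_div_iff₀ hs0]
    exact Nat.floor_le (by positivity)
  have hk3 : 1 < ((k : ℝ) + 1) * s := by
    rw [← div_lt_iff₀ hs0]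
    exact Nat.lt_floor_add_one _
  let w : Fin (k + 1) → ℝ := Fin.snoc (fun _ : Fin k => s) (1 - k * s)
  have hwc : ∀ i : Fin k, w i.castSucc = s := fun i => by simp [w]
  have hwl : w (Fin.last k) = 1 - k * s := by simp [w]
  have hw0 : ∀ i, 0 ≤ w i := by
    intro i
    refine Fin.lastCases ?_ (fun i => ?_) i
    · rw [hwl]
      linarith
    · rw [hwc]
      exact hs0.le
  have hws : ∀ i, w i ≤ s := by
    intro i
    refine Fin.lastCases ?_ (fun i => ?_) i
    · rw [hwl]
      linarith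
    · rw [hwc]
  have hsum : ∑ i, w i = 1 := by
    rw [Fin.sum_univ_castSucc, hwl]
    simp only [hwc]
    rw [Finset.sum_const, Finset.card_univ, Fintype.card_fin, nsmul_eq_mul]
    ring
  obtain ⟨e, he⟩ := exists_norm_eq E (zero_le_one (α := ℝ))
  let c : Fin (k + 1) → E := fun i => (4 * rho1 E * (i : ℕ)) • e
  have hρ := rho1_pos (E := E)
  have hc : ∀ i j, i ≠ j → 4 * rho1 E ≤ dist (c i) (c j) := by
    intro i j hij
    show 4 * rho1 E ≤ dist ((4 * rho1 E * (i : ℕ)) • e) ((4 * rho1 E * (j : ℕ)) • e)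
    rw [dist_eq_norm, ← sub_smul, norm_smul, he, mul_one, ← mul_sub, norm_mul,
      Real.norm_of_nonneg (by positivity)]
    have h1 : (1 : ℝ) ≤ ‖((i : ℕ) : ℝ) - (j : ℕ)‖ := by
      have h2 : ((i : ℕ) : ℤ) - (j : ℕ) ≠ 0 := by
        rw [sub_ne_zero]
        exact_mod_cast fun h => hij (Fin.ext h)
      have h3 : (1 : ℤ) ≤ |((i : ℕ) : ℤ) - (j : ℕ)| := Int.one_le_abs h2
      rw [Real.norm_eq_abs]
      exact_mod_cast h3
    exact le_mul_of_one_le_right (by positivity) h1
  have hvol := far_vol hw0 (fun i => (hws i).trans hs1.le) hsum hc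
  have has := far_asym hw0 hws hs0.le hs1.le hsum hc
  have hlam := far_lam (E := E) (w := w) (c := c) (i0 := (⟨0, by omega⟩ : Fin k).castSucc)
    (hwc _) hs0
  have hv1 : vol (far w c) = 1 := by
    unfold vol
    rw [hvol, ENNReal.toReal_one]
  have hrad : rad (far w c) = rho1 E := by
    unfold rad rho1
    rw [hv1]
    rfl
  have hdef : deficit (far w c) ≤ lam1 (ball (0 : E) (rho1 E)) *
      (s ^ (-(2 : ℝ) / Module.finrank ℝ E) - 1) := by
    unfold deficit
    rw [hv1, hrad, Real.one_rpow, one_mul]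
    linarith
  refine ⟨far w c, far_open, hvol, has, ⟨c (⟨0, by omega⟩ : Fin k).castSucc, ?_⟩, hdef⟩
  unfold far
  refine subset_iUnion_of_subset (⟨0, by omega⟩ : Fin k).castSucc ?_
  rw [hwc]

/-- upper bound for the optimal constant, from far apart balls the largest of which has the
proportion `s` of the volume -/
theorem gam_le [Nontrivial E] {s : ℝ} (hs0 : 0 < s) (hs1 : s < 1) :
    gam E ≤ ((lam1 (ball (0 : E) (rho1 E)) * (s ^ (-(2 : ℝ) / Module.finrank ℝ E) - 1) /
      (4 * (1 - s) ^ 2) : ℝ) : EReal) := by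
  obtain ⟨Ω, hΩ, hvol, has, -, hdef⟩ := exists_far (E := E) hs0 hs1
  have h1s : 0 < 2 * (1 - s) := by linarith
  refine (iInf₂_le Ω ⟨hΩ, by rw [hvol]; exact one_pos, by
    rw [hvol]; exact ENNReal.one_lt_top, lt_of_lt_of_le h1s has⟩).trans ?_
  rw [EReal.coe_le_coe_iff]
  have hpow : 1 ≤ s ^ (-(2 : ℝ) / Module.finrank ℝ E) :=
    Real.one_le_rpow_of_pos_of_le_one_of_nonpos hs0 hs1.le
      (div_nonpos_of_nonpos_of_nonneg (by norm_num) (by positivity))
  have h4 : (4 * (1 - s) ^ 2 : ℝ) = (2 * (1 - s)) ^ 2 := by ring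
  rw [h4]
  exact div_le_div₀ (mul_nonneg (lam1_nonneg _) (by linarith)) hdef (by positivity)
    (pow_le_pow_left₀ h1s.le has 2)

end Pool.Agent.Helper500.FK
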