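import Mathlib
import Pool.Agent.Helper500.FKGen

/-! Dimension one: the lower bound and the exact value. -/

set_option autoImplicit false

namespace Pool.Agent.Helper500.FK

open MeasureTheory Set Metric Filter Topology
open scoped ContDiff

theorem vol_ball_real : vol (ball (0 : ℝ) 1) = 2 := by
  unfold vol
  rw [Real.volume_ball, ENNReal.toReal_ofReal (by norm_num)]
  norm_num

theorem rho1_real : rho1 ℝ = 1 / 2 := by
  have h : (volume (ball (0 : ℝ) 1)).toReal = 2 := vol_ball_real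
  unfold rho1
  rw [h, Module.finrank_self]
  norm_num

theorem rad_real (Ω : Set ℝ) : rad Ω = vol Ω / 2 := by
  unfold rad
  rw [vol_ball_real, Module.finrank_self]
  norm_num

theorem deficit_real {Ω : Set ℝ} (h : 0 < vol Ω) :
    deficit Ω = vol Ω ^ 2 * lam1 Ω - Real.pi ^ 2 := by
  unfold deficit
  rw [rad_real, lam1_interval h, Module.finrank_self]
  have e : vol Ω ^ ((2 : ℝ) / ((1 : ℕ) : ℝ)) = vol Ω ^ 2 := by
    rw [Nat.cast_one, div_one]
    exact_mod_cast Real.rpow_natCast (vol Ω) 2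
  rw [e]
  field_simp

/-- intervals in `Ω` bound the asymmetry -/
theorem asym_real {Ω : Set ℝ} (hΩ : IsOpen Ω) (h0 : 0 < volume Ω) (hfin : volume Ω < ⊤) {x t : ℝ}
    (ht : 0 ≤ t) (hsub : Ioo x (x + t) ⊆ Ω) : t ≤ vol Ω ∧ asym Ω ≤ 2 * (1 - t / vol Ω) := by
  have hm0 : 0 < vol Ω := ENNReal.toReal_pos h0.ne' hfin.ne
  have hvI : volume (Ioo x (x + t)) = ENNReal.ofReal t := by
    rw [Real.volume_Ioo]
    congr 1
    ring
  have htm : t ≤ vol Ω := by
    have h1 : ENNReal.ofReal t ≤ volume Ω := by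
      rw [← hvI]
      exact measure_mono hsub
    exact (ENNReal.ofReal_le_iff_le_toReal hfin.ne).1 h1
  refine ⟨htm, ?_⟩
  have hball : ball (x + vol Ω / 2) (vol Ω / 2) = Ioo x (x + vol Ω) := by
    rw [Real.ball_eq_Ioo]
    congr 1
    · ring
    · ring
  have hvB : volume (ball (x + vol Ω / 2) (vol Ω / 2)) = volume Ω := by
    rw [hball, Real.volume_Ioo]
    have : x + vol Ω - x = vol Ω := by ring
    rw [this]
    exact ENNReal.ofReal_toReal hfin.ne
  have hbd : asym Ω ≤ vol (symmDiff Ω (ball (x + vol Ω / 2) (vol Ω / 2))) / vol Ω := by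
    apply csInf_le
    · refine ⟨0, ?_⟩
      rintro _ ⟨c, ρ, -, rfl⟩
      exact div_nonneg ENNReal.toReal_nonneg hm0.le
    · exact ⟨_, _, hvB, rfl⟩
  refine hbd.trans ?_
  have hIB : Ioo x (x + t) ⊆ ball (x + vol Ω / 2) (vol Ω / 2) := by
    rw [hball]
    exact Ioo_subset_Ioo_right (by linarith)
  have hIfin : volume (Ioo x (x + t)) ≠ ⊤ := by
    rw [hvI]
    exact ENNReal.ofReal_ne_top
  have hd1 : volume (Ω \ Ioo x (x + t)) = volume Ω - ENNReal.ofReal t := by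
    rw [measure_sdiff hsub measurableSet_Ioo.nullMeasurableSet hIfin, hvI]
  have hd2 : volume (ball (x + vol Ω / 2) (vol Ω / 2) \ Ioo x (x + t)) =
      volume Ω - ENNReal.ofReal t := by
    rw [measure_sdiff hIB measurableSet_Ioo.nullMeasurableSet hIfin, hvI, hvB]
  have hsd : volume (symmDiff Ω (ball (x + vol Ω / 2) (vol Ω / 2))) ≤
      (volume Ω - ENNReal.ofReal t) + (volume Ω - ENNReal.ofReal t) := by
    have hsubs : symmDiff Ω (ball (x + vol Ω / 2) (vol Ω / 2)) ⊆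
        (Ω \ Ioo x (x + t)) ∪ (ball (x + vol Ω / 2) (vol Ω / 2) \ Ioo x (x + t)) := by
      intro y hy
      rcases hy with ⟨h1, h2⟩ | ⟨h1, h2⟩
      · exact Or.inl ⟨h1, fun h => h2 (hIB h)⟩
      · exact Or.inr ⟨h1, fun h => h2 (hsub h)⟩
    calc _ ≤ _ := measure_mono hsubs
      _ ≤ _ := measure_union_le _ _
      _ = _ := by rw [hd1, hd2]
  have hfin2 : volume Ω - ENNReal.ofReal t ≠ ⊤ := (tsub_le_self.trans_lt hfin).ne
  have hreal : vol (symmDiff Ω (ball (x + vol Ω / 2) (vol Ω / 2))) ≤ 2 * (vol Ω - t) := by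
    have h1 := ENNReal.toReal_mono (ENNReal.add_ne_top.2 ⟨hfin2, hfin2⟩) hsd
    rw [ENNReal.toReal_add hfin2 hfin2, ENNReal.toReal_sub_of_le _ hfin.ne,
      ENNReal.toReal_ofReal ht] at h1
    · have h2 : (volume Ω).toReal = vol Ω := rfl
      rw [h2] at h1
      have h3 : vol (symmDiff Ω (ball (x + vol Ω / 2) (vol Ω / 2))) =
        (volume (symmDiff Ω (ball (x + vol Ω / 2) (vol Ω / 2)))).toReal := rfl
      rw [h3]
      linarith
    · rw [← hvI]
      exact measure_mono hsub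
  rw [div_le_iff₀ hm0]
  have e : 2 * (1 - t / vol Ω) * vol Ω = 2 * (vol Ω - t) := by field_simp
  rw [e]
  exact hreal

theorem golden_ineq {s : ℝ} (hs0 : 0 < s) (hs1 : s < 1) :
    Real.pi ^ 2 * Real.goldenRatio ^ 5 / 4 ≤
      (Real.pi ^ 2 * (1 / s ^ 2 - 1)) / (4 * (1 - s) ^ 2) := by
  have hφ := Real.goldenRatio_sq
  have hφ0 := Real.goldenRatio_pos
  have hφ1 := Real.one_lt_goldenRatio
  set f := Real.goldenRatio with hf
  have h5 : f ^ 5 = 5 * f + 3 := by
    have h3 : f ^ 3 = 2 * f + 1 := by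
      calc f ^ 3 = f * f ^ 2 := by ring
        _ = f * (f + 1) := by rw [hφ]
        _ = f ^ 2 + f := by ring
        _ = 2 * f + 1 := by rw [hφ]; ring
    calc f ^ 5 = f ^ 2 * f ^ 3 := by ring
      _ = (f + 1) * (2 * f + 1) := by rw [hφ, h3]
      _ = 2 * f ^ 2 + 3 * f + 1 := by ring
      _ = 5 * f + 3 := by rw [hφ]; ring
  have hkey : (1 + s) - (5 * f + 3) * s ^ 2 * (1 - s) =
      (5 * f + 3) * (s - (f - 1)) ^ 2 * (s + (2 * f - 3)) := by
    linear_combination ((15 * f - 16) * s + (-10 * f ^ 2 + 19 * f - 10)) * hφ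
  have hpos : 0 ≤ 2 * f - 3 := by
    have : (3 : ℝ) / 2 ≤ f := by
      by_contra hc
      have hc' := not_le.1 hc
      nlinarith
    linarith
  have hge : (5 * f + 3) * s ^ 2 * (1 - s) ≤ 1 + s := by
    have : 0 ≤ (5 * f + 3) * (s - (f - 1)) ^ 2 * (s + (2 * f - 3)) := by positivity
    linarith
  have h1s : 0 < 1 - s := by linarith
  have hrw : (Real.pi ^ 2 * (1 / s ^ 2 - 1)) / (4 * (1 - s) ^ 2) =
      Real.pi ^ 2 * ((1 + s) / (s ^ 2 * (1 - s))) / 4 := by
    field_simp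
    ring
  rw [hrw, h5]
  apply div_le_div_of_nonneg_right _ (by norm_num)
  apply mul_le_mul_of_nonneg_left _ (by positivity)
  rw [le_div_iff₀ (by positivity)]
  linarith

theorem golden_eq :
    (Real.pi ^ 2 * ((Real.goldenRatio - 1) ^ (-(2 : ℝ)) - 1)) / (4 * (1 - (Real.goldenRatio - 1)) ^ 2) =
      Real.pi ^ 2 * Real.goldenRatio ^ 5 / 4 := by
  have hφ := Real.goldenRatio_sq
  have hφ0 := Real.goldenRatio_pos
  have hφ1 := Real.one_lt_goldenRatio
  set f := Real.goldenRatio with hf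
  have h1 : f - 1 = f⁻¹ := by
    apply eq_inv_of_mul_eq_one_left
    linear_combination hφ
  have h2 : (f - 1) ^ (-(2 : ℝ)) = f ^ 2 := by
    rw [h1, Real.inv_rpow hφ0.le, Real.rpow_neg hφ0.le, inv_inv]
    exact_mod_cast Real.rpow_natCast f 2
  have h3 : 1 - (f - 1) = (f ^ 2)⁻¹ := by
    apply eq_inv_of_mul_eq_one_left
    linear_combination (1 - f) * hφ
  rw [h2, h3, hφ]
  have h4 : (f + 1) = f ^ 2 := hφ.symm
  rw [h4]
  field_simp
  ring_nf
  linarith

/-- deficit and asymmetry in terms of the length of the longest component -/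
theorem comp_real {Ω : Set ℝ} (hΩ : IsOpen Ω) (h0 : 0 < volume Ω) (hfin : volume Ω < ⊤) :
    ∃ s : ℝ, 0 < s ∧ s ≤ 1 - asym Ω / 2 ∧ Real.pi ^ 2 * (1 / s ^ 2 - 1) ≤ deficit Ω := by
  have hm0 : 0 < vol Ω := ENNReal.toReal_pos h0.ne' hfin.ne
  set m := vol Ω with hm
  have hne : Ω.Nonempty := nonempty_of_measure_ne_zero h0.ne'
  set L : Set ℝ := {t | 0 ≤ t ∧ ∃ x, Ioo x (x + t) ⊆ Ω} with hL
  have hLb : ∀ t ∈ L, t ≤ m ∧ asym Ω ≤ 2 * (1 - t / m) := by
    rintro t ⟨ht, x, hx⟩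
    exact asym_real hΩ h0 hfin ht hx
  have hbdd : BddAbove L := ⟨m, fun t ht => (hLb t ht).1⟩
  obtain ⟨y, hy⟩ := hne
  obtain ⟨ε, hε, hball⟩ := Metric.isOpen_iff.1 hΩ y hy
  have hεL : ε ∈ L := by
    refine ⟨hε.le, y, fun z hz => hball ?_⟩
    rw [mem_ball, Real.dist_eq, abs_lt]
    constructor
    · linarith [hz.1]
    · linarith [hz.2]
  have hl0 : 0 < sSup L := lt_of_lt_of_le hε (le_csSup hbdd hεL)
  set l := sSup L with hl
  have hlong : ∀ x t : ℝ, l < t → ¬ Ioo x (x + t) ⊆ Ω := by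
    intro x t ht hsub
    have : t ≤ l := le_csSup hbdd ⟨by linarith, x, hsub⟩
    linarith
  have hlam := le_lam1_real hΩ ⟨y, hy⟩ hl0 hlong
  -- asymmetry
  have hlA : l ≤ m * (1 - asym Ω / 2) := by
    apply csSup_le ⟨ε, hεL⟩
    intro t ht
    have h1 := (hLb t ht).2
    have h2 : t / m ≤ 1 - asym Ω / 2 := by linarith
    rw [div_le_iff₀ hm0] at h2
    linarith
  have hs : l / m ≤ 1 - asym Ω / 2 := by
    rw [div_le_iff₀ hm0]
    linarith
  set s := l / m with hsd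
  have hs0 : 0 < s := div_pos hl0 hm0
  have hlam2 : m ^ 2 * lam1 Ω ≥ Real.pi ^ 2 * (1 / s ^ 2) := by
    have h1 := mul_le_mul_of_nonneg_left hlam (sq_nonneg m)
    have h2 : m ^ 2 * (Real.pi / l) ^ 2 = Real.pi ^ 2 * (1 / s ^ 2) := by
      rw [hsd]
      field_simp
    linarith
  refine ⟨s, hs0, hs, ?_⟩
  rw [deficit_real hm0, ← hm]
  linarith

theorem asym_nonneg {Ω : Set ℝ} : 0 ≤ asym Ω :=
  Real.sInf_nonneg (by
    rintro _ ⟨c, ρ, -, rfl⟩
    exact div_nonneg ENNReal.toReal_nonneg ENNReal.toReal_nonneg)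

/-- the lower bound in dimension one, for a single set -/
theorem low_real {Ω : Set ℝ} (hΩ : IsOpen Ω) (h0 : 0 < volume Ω) (hfin : volume Ω < ⊤)
    (hA : 0 < asym Ω) : Real.pi ^ 2 * Real.goldenRatio ^ 5 / 4 ≤ deficit Ω / asym Ω ^ 2 := by
  obtain ⟨s, hs0, hs, hD⟩ := comp_real hΩ h0 hfin
  have hs1 : s < 1 := by linarith
  have hP : 0 ≤ Real.pi ^ 2 * (1 / s ^ 2 - 1) := by
    apply mul_nonneg (sq_nonneg _)
    have : 1 ≤ 1 / s ^ 2 := by
      rw [le_div_iff₀ (by positivity), one_mul]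
      exact pow_le_one₀ hs0.le hs1.le
    linarith
  refine (golden_ineq hs0 hs1).trans ?_
  have h4 : (4 * (1 - s) ^ 2 : ℝ) = (2 * (1 - s)) ^ 2 := by ring
  rw [h4]
  exact div_le_div₀ (hP.trans hD) hD (by positivity)
    (pow_le_pow_left₀ hA.le (by linarith) 2)

/-- the sharp lower bound of the deficit in terms of the asymmetry, dimension one -/
theorem profile_real {Ω : Set ℝ} (hΩ : IsOpen Ω) (h0 : 0 < volume Ω) (hfin : volume Ω < ⊤) :
    asym Ω < 2 ∧ Real.pi ^ 2 * (1 / (1 - asym Ω / 2) ^ 2 - 1) ≤ deficit Ω := by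
  obtain ⟨s, hs0, hs, hD⟩ := comp_real hΩ h0 hfin
  refine ⟨by linarith, le_trans ?_ hD⟩
  apply mul_le_mul_of_nonneg_left _ (sq_nonneg _)
  have h1 : 1 / (1 - asym Ω / 2) ^ 2 ≤ 1 / s ^ 2 :=
    one_div_le_one_div_of_le (by positivity) (pow_le_pow_left₀ hs0.le hs 2)
  linarith

/-- the bound is attained for each value of the asymmetry -/
theorem profile_sharp {α : ℝ} (h0 : 0 < α) (h2 : α < 2) : ∃ Ω : Set ℝ, IsOpen Ω ∧ volume Ω = 1 ∧
    asym Ω = α ∧ deficit Ω = Real.pi ^ 2 * (1 / (1 - α / 2) ^ 2 - 1) := by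
  set s : ℝ := 1 - α / 2 with hs
  have hs0 : 0 < s := by rw [hs]; linarith
  have hs1 : s < 1 := by rw [hs]; linarith
  obtain ⟨Ω, hΩ, hvol, has, ⟨c, hc⟩, hdef⟩ := exists_far (E := ℝ) hs0 hs1
  have hv1 : vol Ω = 1 := by
    unfold vol
    rw [hvol, ENNReal.toReal_one]
  have hl : lam1 (ball (0 : ℝ) (rho1 ℝ)) = Real.pi ^ 2 := by
    rw [rho1_real, lam1_interval one_pos, div_one]
  have hv0 : 0 < volume Ω := by rw [hvol]; exact one_pos
  have hvf : volume Ω < ⊤ := by rw [hvol]; exact ENNReal.one_lt_top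
  have hball : ball c (s ^ ((1 : ℝ) / Module.finrank ℝ ℝ) * rho1 ℝ) = Ioo (c - s / 2) (c - s / 2 + s) := by
    rw [Real.ball_eq_Ioo, rho1_real, Module.finrank_self, Nat.cast_one, div_one, Real.rpow_one]
    congr 1
    · ring
    · ring
  rw [hball] at hc
  have hA := (asym_real hΩ hv0 hvf hs0.le hc).2
  rw [hv1, div_one] at hA
  have hAe : asym Ω = α := by
    apply le_antisymm
    · rw [hs] at hA
      linarith
    · rw [hs] at has
      linarith
  refine ⟨Ω, hΩ, hvol, hAe, le_antisymm ?_ ?_⟩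
  · rw [hl, Module.finrank_self, Nat.cast_one, div_one] at hdef
    have e : s ^ (-(2 : ℝ)) = 1 / s ^ 2 := by
      rw [Real.rpow_neg hs0.le, one_div]
      congr 1
      exact_mod_cast Real.rpow_natCast s 2
    rw [e] at hdef
    exact hdef
  · have := (profile_real hΩ hv0 hvf).2
    rw [hAe] at this
    exact this

/-- the exact value in dimension one -/
theorem gam_real : gam ℝ = ((Real.pi ^ 2 * Real.goldenRatio ^ 5 / 4 : ℝ) : EReal) := by
  apply le_antisymm
  · have hφ := Real.goldenRatio_sq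
    have hφ1 := Real.one_lt_goldenRatio
    have hφ2 : Real.goldenRatio < 2 := by
      by_contra hc
      have := not_lt.1 hc
      nlinarith
    have h := gam_le (E := ℝ) (s := Real.goldenRatio - 1) (by linarith) (by linarith)
    have hl : lam1 (ball (0 : ℝ) (rho1 ℝ)) = Real.pi ^ 2 := by
      rw [rho1_real, lam1_interval one_pos, div_one]
    rw [hl, Module.finrank_self, Nat.cast_one, div_one, golden_eq] at h
    exact h
  · apply le_iInf₂
    intro Ω hΩ
    rw [EReal.coe_le_coe_iff]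
    exact low_real hΩ.1 hΩ.2.1 hΩ.2.2.1 hΩ.2.2.2

/-- the constant is attained in dimension one -/
theorem attained_real : ∃ Ω : Set ℝ, IsOpen Ω ∧ volume Ω = 1 ∧ 0 < asym Ω ∧
    deficit Ω / asym Ω ^ 2 = Real.pi ^ 2 * Real.goldenRatio ^ 5 / 4 := by
  have hφ := Real.goldenRatio_sq
  have hφ1 := Real.one_lt_goldenRatio
  have hφ2 : Real.goldenRatio < 2 := by
    by_contra hc
    have := not_lt.1 hc
    nlinarith
  obtain ⟨Ω, h1, h2, h3, h4⟩ := profile_sharp (α := 2 * (1 - (Real.goldenRatio - 1)))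
    (by linarith) (by linarith)
  refine ⟨Ω, h1, h2, by rw [h3]; linarith, ?_⟩
  rw [h3, h4, ← golden_eq]
  have e1 : 1 - 2 * (1 - (Real.goldenRatio - 1)) / 2 = Real.goldenRatio - 1 := by ring
  have e : (Real.goldenRatio - 1) ^ (-(2 : ℝ)) = 1 / (Real.goldenRatio - 1) ^ 2 := by
    rw [Real.rpow_neg (by linarith), one_div]
    congr 1
    exact_mod_cast Real.rpow_natCast (Real.goldenRatio - 1) 2
  rw [e1, e]
  congr 1
  ring

end Pool.Agent.Helper500.FK
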