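import Mathlib

/-! Solutions of `k * σ(k) = n`: the ascending primes. -/

set_option autoImplicit false

namespace Pool.Agent.Helper500.KS

open Finset ArithmeticFunction

/-- The solutions `k` of `k σ(k) = n` (for `n ≥ 1`; every solution is at most `n`). -/
def sols (n : ℕ) : Finset ℕ := (Finset.range (n + 1)).filter (fun k => k * sigma 1 k = n)

open Classical in
/-- The ascending primes of `k`: primes `q ∣ k`, with `q ^ a` exactly dividing `k`, such that
`σ(q ^ a)` has a prime factor larger than `q`. -/
noncomputable def asc (k : ℕ) : Finset ℕ :=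
  k.primeFactors.filter (fun q => ∃ p, p.Prime ∧ q < p ∧ p ∣ sigma 1 (q ^ k.factorization q))

theorem mem_asc {k q : ℕ} : q ∈ asc k ↔ q ∈ k.primeFactors ∧
    ∃ p, p.Prime ∧ q < p ∧ p ∣ sigma 1 (q ^ k.factorization q) := by
  classical
  simp [asc]

theorem sigma_ne_zero {m : ℕ} (hm : m ≠ 0) : sigma 1 m ≠ 0 := by
  have : 0 < sigma 1 m := by
    rw [sigma_one_apply]
    exact Finset.sum_pos (fun d hd => Nat.pos_of_mem_divisors hd) ⟨1, Nat.one_mem_divisors.2 hm⟩
  omega

theorem sigma_eq_prod (k N : ℕ) (hk : k ≠ 0) (hN : k < N) :
    sigma 1 k = ∏ q ∈ (range N).filter Nat.Prime, sigma 1 (q ^ k.factorization q) := by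
  rw [isMultiplicative_sigma.multiplicative_factorization (sigma 1) hk, Finsupp.prod]
  refine Finset.prod_subset ?_ ?_
  · intro q hq
    rw [Nat.support_factorization] at hq
    have h1 := Nat.prime_of_mem_primeFactors hq
    have h2 := Nat.le_of_mem_primeFactors hq
    simp only [mem_filter, mem_range]
    exact ⟨by omega, h1⟩
  · intro q _ hq
    rw [Finsupp.notMem_support_iff] at hq
    rw [hq, pow_zero]
    simp

theorem fac_sigma (k N p : ℕ) (hk : k ≠ 0) (hN : k < N) :
    (sigma 1 k).factorization p =
      ∑ q ∈ (range N).filter Nat.Prime, (sigma 1 (q ^ k.factorization q)).factorization p := by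
  rw [sigma_eq_prod k N hk hN, Nat.factorization_prod]
  · rw [Finsupp.finsetSum_apply]
  · intro q hq
    simp only [mem_filter, mem_range] at hq
    exact sigma_ne_zero (pow_ne_zero _ hq.2.ne_zero)

theorem not_dvd_sigma_self {p a : ℕ} (hp : p.Prime) : ¬ p ∣ sigma 1 (p ^ a) := by
  rw [sigma_one_apply, Nat.divisors_prime_pow hp, Finset.sum_map]
  simp only [Function.Embedding.coeFn_mk]
  rw [Finset.sum_range_succ']
  intro h
  have h2 : p ∣ ∑ i ∈ range a, p ^ (i + 1) :=
    Finset.dvd_sum (fun i _ => dvd_pow_self p (Nat.succ_ne_zero i))
  have h3 : p ∣ p ^ 0 := (Nat.dvd_add_right h2).1 h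
  rw [pow_zero] at h3
  exact hp.one_lt.ne' (Nat.dvd_one.1 h3)

/-- A solution is determined by its ascending primes and their exponents. -/
theorem inj {k k' : ℕ} (hk : k ≠ 0) (hk' : k' ≠ 0) (h : k * sigma 1 k = k' * sigma 1 k')
    (hasc : asc k = asc k') (hv : ∀ q ∈ asc k, k.factorization q = k'.factorization q) :
    k = k' := by
  set N := k + k' + 1 with hN
  have key : ∀ m p : ℕ, N ≤ p + m → k.factorization p = k'.factorization p := by
    intro m
    induction m with
    | zero =>
      intro p hp
      rw [Nat.factorization_eq_zero_of_lt (by omega), Nat.factorization_eq_zero_of_lt (by omega)]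
    | succ m ih =>
      intro p hp
      by_cases hpp : p.Prime
      swap
      · rw [Nat.factorization_eq_zero_of_not_prime _ hpp, Nat.factorization_eq_zero_of_not_prime _ hpp]
      have h1 : (k * sigma 1 k).factorization p = (k' * sigma 1 k').factorization p := by rw [h]
      rw [Nat.factorization_mul hk (sigma_ne_zero hk), Nat.factorization_mul hk' (sigma_ne_zero hk'),
        Finsupp.add_apply, Finsupp.add_apply, fac_sigma k N p hk (by omega),
        fac_sigma k' N p hk' (by omega)] at h1
      have h2 : ∑ q ∈ (range N).filter Nat.Prime, (sigma 1 (q ^ k.factorization q)).factorization p =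
          ∑ q ∈ (range N).filter Nat.Prime, (sigma 1 (q ^ k'.factorization q)).factorization p := by
        refine Finset.sum_congr rfl ?_
        intro q hq
        simp only [mem_filter, mem_range] at hq
        rcases lt_trichotomy q p with hqp | hqp | hqp
        · by_cases hqa : q ∈ asc k
          · rw [hv q hqa]
          · have hqa' : q ∉ asc k' := by rw [← hasc]; exact hqa
            have aux : ∀ l : ℕ, l ≠ 0 → q ∉ asc l →
                (sigma 1 (q ^ l.factorization q)).factorization p = 0 := by
              intro l hl hql
              by_contra hne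
              have hdvd : p ∣ sigma 1 (q ^ l.factorization q) :=
                Nat.dvd_of_factorization_pos hne
              apply hql
              rw [mem_asc]
              refine ⟨?_, p, hpp, hqp, hdvd⟩
              rw [← Nat.support_factorization, Finsupp.mem_support_iff]
              intro h0
              rw [h0, pow_zero] at hdvd
              simp at hdvd
              exact hpp.one_lt.ne' hdvd
            rw [aux k hk hqa, aux k' hk' hqa']
        · subst hqp
          rw [Nat.factorization_eq_zero_of_not_dvd (not_dvd_sigma_self hpp),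
            Nat.factorization_eq_zero_of_not_dvd (not_dvd_sigma_self hpp)]
        · rw [ih q (by omega)]
      omega
  exact Nat.eq_of_factorization_eq hk hk' (fun p => key N p (by omega))

/-- The exponent of an odd ascending prime is at least two. -/
theorem two_le_of_mem_asc {k q : ℕ} (hq : q ∈ asc k) (h2 : q ≠ 2) : 2 ≤ k.factorization q := by
  rw [mem_asc] at hq
  obtain ⟨hq1, p, hp, hqp, hdvd⟩ := hq
  have hqp' := Nat.prime_of_mem_primeFactors hq1
  have h0 : k.factorization q ≠ 0 := by
    rw [← Nat.support_factorization, Finsupp.mem_support_iff] at hq1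
    exact hq1
  by_contra hlt
  have h1 : k.factorization q = 1 := by omega
  rw [h1, pow_one, sigma_one_apply, hqp'.sum_divisors] at hdvd
  -- p ∣ q + 1, q < p
  have hle := Nat.le_of_dvd (by omega) hdvd
  have heq : p = q + 1 := by omega
  have hodd : Odd q := hqp'.odd_of_ne_two h2
  have hev : Even p := by rw [heq]; exact hodd.add_one
  have := (Nat.Prime.even_iff hp).1 hev
  have := hqp'.two_le
  omega

end Pool.Agent.Helper500.KS
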