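import Mathlib
import Pool.Agent.Helper500.KS1

/-! Solutions of `k * σ(k) = n`: polylogarithmic bound when there are few ascending primes. -/

set_option autoImplicit false

namespace Pool.Agent.Helper500.KS

open Finset ArithmeticFunction

/-- prime power divisors -/
noncomputable def PP (n : ℕ) : Finset ℕ := by
  classical exact n.divisors.filter IsPrimePow

theorem mem_PP {n d : ℕ} : d ∈ PP n ↔ d ∈ n.divisors ∧ IsPrimePow d := by
  classical
  simp [PP]

theorem card_PP {n : ℕ} (hn : n ≠ 0) : #(PP n) ≤ Nat.log 2 n := by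
  classical
  have h1 : (#(PP n) : ℝ) * Real.log 2 ≤ Real.log n := by
    rw [← vonMangoldt_sum]
    calc (#(PP n) : ℝ) * Real.log 2 = ∑ _d ∈ PP n, Real.log 2 := by
          rw [Finset.sum_const, nsmul_eq_mul]
      _ ≤ ∑ d ∈ PP n, vonMangoldt d := by
          refine Finset.sum_le_sum ?_
          intro d hd
          rw [mem_PP] at hd
          rw [vonMangoldt_apply, if_pos hd.2]
          refine Real.log_le_log (by norm_num) ?_
          have h3 : d.minFac.Prime := Nat.minFac_prime hd.2.ne_one
          exact_mod_cast h3.two_le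
      _ ≤ ∑ d ∈ n.divisors, vonMangoldt d := by
          refine Finset.sum_le_sum_of_subset_of_nonneg ?_ (fun _ _ _ => vonMangoldt_nonneg)
          intro d hd
          exact (mem_PP.1 hd).1
  refine Nat.le_log_of_pow_le (by norm_num) ?_
  have h2 : (2 : ℝ) ^ #(PP n) ≤ n := by
    have hn' : (0 : ℝ) < n := by exact_mod_cast Nat.pos_of_ne_zero hn
    rw [← Real.log_le_log_iff (by positivity) hn', Real.log_pow]
    exact h1
  exact_mod_cast h2

theorem card_small_subsets {α : Type*} [DecidableEq α] (S : Finset α) (r : ℕ) :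
    #(S.powerset.filter (fun T => #T ≤ r)) ≤ (1 + #S) ^ r := by
  induction r with
  | zero =>
    have : S.powerset.filter (fun T => #T ≤ 0) ⊆ {∅} := by
      intro T hT
      simp only [mem_filter, Nat.le_zero, card_eq_zero] at hT
      simp [hT.2]
    calc _ ≤ #({∅} : Finset (Finset α)) := card_le_card this
      _ = (1 + #S) ^ 0 := by simp
  | succ r ih =>
    have hsub : S.powerset.filter (fun T => #T ≤ r + 1) ⊆
        ((S.powerset.filter (fun T => #T ≤ r)) ×ˢ (insertNone S)).image
          (fun p => p.2.elim p.1 (fun x => insert x p.1)) := by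
      intro T hT
      simp only [mem_filter, mem_powerset] at hT
      rw [mem_image]
      rcases T.eq_empty_or_nonempty with h0 | ⟨x, hx⟩
      · refine ⟨(∅, none), ?_, ?_⟩
        · simp
        · simp [h0]
      · refine ⟨(T.erase x, some x), ?_, ?_⟩
        · simp only [mem_product, mem_filter, mem_powerset]
          refine ⟨⟨(erase_subset _ _).trans hT.1, ?_⟩, ?_⟩
          · rw [card_erase_of_mem hx]; omega
          · rw [some_mem_insertNone]; exact hT.1 hx
        · simp [insert_erase hx]
    calc #(S.powerset.filter (fun T => #T ≤ r + 1))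
        ≤ #((S.powerset.filter (fun T => #T ≤ r)) ×ˢ (insertNone S)) :=
          (card_le_card hsub).trans card_image_le
      _ = #(S.powerset.filter (fun T => #T ≤ r)) * (#S + 1) := by
          rw [card_product, card_insertNone]
      _ ≤ (1 + #S) ^ r * (#S + 1) := Nat.mul_le_mul_right _ ih
      _ = (1 + #S) ^ (r + 1) := by ring

theorem mem_sols {n k : ℕ} : k ∈ sols n ↔ k ≤ n ∧ k * sigma 1 k = n := by
  simp [sols]

theorem ne_zero_of_mem {n k : ℕ} (hn : n ≠ 0) (hk : k ∈ sols n) : k ≠ 0 := by
  rw [mem_sols] at hk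
  rintro rfl
  simp at hk
  exact hn hk.symm

theorem dvd_of_mem {n k : ℕ} (hk : k ∈ sols n) : k ∣ n := by
  rw [mem_sols] at hk
  exact ⟨_, hk.2.symm⟩

/-- the ascending prime powers of `k` -/
noncomputable def Phi (k : ℕ) : Finset ℕ := (asc k).image (fun q => q ^ k.factorization q)

theorem prime_of_asc {k q : ℕ} (hq : q ∈ asc k) : q.Prime :=
  Nat.prime_of_mem_primeFactors (mem_asc.1 hq).1

theorem fac_ne_zero_of_asc {k q : ℕ} (hq : q ∈ asc k) : k.factorization q ≠ 0 := by
  have := (mem_asc.1 hq).1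
  rw [← Nat.support_factorization, Finsupp.mem_support_iff] at this
  exact this

theorem Phi_subset {n k : ℕ} (hn : n ≠ 0) (hk : k ∈ sols n) : Phi k ⊆ PP n := by
  intro d hd
  rw [Phi, mem_image] at hd
  obtain ⟨q, hq, rfl⟩ := hd
  rw [mem_PP, Nat.mem_divisors]
  refine ⟨⟨(Nat.ordProj_dvd k q).trans (dvd_of_mem hk), hn⟩, ?_⟩
  exact (prime_of_asc hq).isPrimePow.pow (fac_ne_zero_of_asc hq)

theorem Phi_sub_aux {k k' : ℕ} (h : Phi k = Phi k') {q : ℕ} (hq : q ∈ asc k) :
    q ∈ asc k' ∧ k.factorization q = k'.factorization q := by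
  have h1 : q ^ k.factorization q ∈ Phi k' := by
    rw [← h]; exact mem_image_of_mem _ hq
  rw [Phi, mem_image] at h1
  obtain ⟨q', hq', he⟩ := h1
  have hp := prime_of_asc hq
  have hp' := prime_of_asc hq'
  have h2 : q' ∣ q ^ k.factorization q := by
    rw [← he]; exact dvd_pow_self _ (fac_ne_zero_of_asc hq')
  have h3 : q' = q := (Nat.prime_dvd_prime_iff_eq hp' hp).1 (hp'.dvd_of_dvd_pow h2)
  subst h3
  refine ⟨hq', ?_⟩
  exact (Nat.pow_right_injective hp'.two_le he).symm

theorem Phi_inj {n : ℕ} (hn : n ≠ 0) {k k' : ℕ} (hk : k ∈ sols n) (hk' : k' ∈ sols n)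
    (h : Phi k = Phi k') : k = k' := by
  refine inj (ne_zero_of_mem hn hk) (ne_zero_of_mem hn hk') ?_ ?_ ?_
  · rw [(mem_sols.1 hk).2, (mem_sols.1 hk').2]
  · ext q
    exact ⟨fun hq => (Phi_sub_aux h hq).1, fun hq => (Phi_sub_aux h.symm hq).1⟩
  · intro q hq
    exact (Phi_sub_aux h hq).2

/-- Polylogarithmic bound for the solutions with at most `r` ascending primes. -/
theorem card_few_asc {n : ℕ} (hn : n ≠ 0) (r : ℕ) :
    #((sols n).filter (fun k => #(asc k) ≤ r)) ≤ (1 + Nat.log 2 n) ^ r := by
  classical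
  calc #((sols n).filter (fun k => #(asc k) ≤ r))
      ≤ #((PP n).powerset.filter (fun T => #T ≤ r)) := by
        refine card_le_card_of_injOn Phi ?_ ?_
        · intro k hk
          simp only [coe_filter, Set.mem_ofPred_eq] at hk
          simp only [coe_filter, mem_powerset, Set.mem_ofPred_eq]
          exact ⟨Phi_subset hn hk.1, card_image_le.trans hk.2⟩
        · intro k hk k' hk' h
          simp only [coe_filter, Set.mem_ofPred_eq] at hk hk'
          exact Phi_inj hn hk.1 hk'.1 h
    _ ≤ (1 + #(PP n)) ^ r := card_small_subsets _ _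
    _ ≤ (1 + Nat.log 2 n) ^ r := Nat.pow_le_pow_left (by have := card_PP hn; omega) _

end Pool.Agent.Helper500.KS
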