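import Mathlib
import Pool.Agent.Helper500.KS2

/-! Solutions of `k * σ(k) = n`: a general bound. -/

set_option autoImplicit false

namespace Pool.Agent.Helper500.KS

open Finset ArithmeticFunction Filter

/-- possible exponents -/
def VV (n q : ℕ) : Finset ℕ :=
  if q = 2 then range (n.factorization q + 1) else insert 0 (Icc 2 (n.factorization q))

/-- number of possible exponents -/
def ww (n q : ℕ) : ℕ := if q = 2 then n.factorization q + 1 else n.factorization q

theorem card_VV {n q : ℕ} (hq : q ∈ n.primeFactors) : #(VV n q) = ww n q := by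
  unfold VV ww
  split_ifs with h
  · simp
  · rw [card_insert_of_notMem (by simp), Nat.card_Icc]
    have : n.factorization q ≠ 0 := by
      rw [← Nat.support_factorization, Finsupp.mem_support_iff] at hq
      exact hq
    omega

theorem card_sols_le {n : ℕ} (hn : n ≠ 0) : #(sols n) ≤ ∏ q ∈ n.primeFactors, ww n q := by
  classical
  have hval : ∀ k ∈ sols n, ∀ q ∈ asc k, q ∈ n.primeFactors := by
    intro k hk q hq
    exact Nat.primeFactors_mono (dvd_of_mem hk) hn (mem_asc.1 hq).1
  calc #(sols n) ≤ #(n.primeFactors.pi (fun q => VV n q)) := by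
        refine card_le_card_of_injOn
          (fun k => fun q _ => if q ∈ asc k then k.factorization q else 0) ?_ ?_
        · intro k hk
          simp only [Finset.mem_coe] at hk
          rw [Finset.mem_coe, Finset.mem_pi]
          intro q hq
          have hle : k.factorization q ≤ n.factorization q :=
            (Nat.factorization_le_iff_dvd (ne_zero_of_mem hn hk) hn).2 (dvd_of_mem hk) q
          by_cases h1 : q ∈ asc k
          · simp only [h1, if_true]
            unfold VV
            split_ifs with h2
            · rw [Finset.mem_range]; omega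
            · rw [Finset.mem_insert, Finset.mem_Icc]
              exact Or.inr ⟨two_le_of_mem_asc h1 h2, hle⟩
          · simp only [h1, if_false]
            unfold VV
            split_ifs with h2
            · rw [Finset.mem_range]; omega
            · simp
        · intro k hk k' hk' h
          simp only [Finset.mem_coe] at hk hk'
          have key : ∀ q ∈ n.primeFactors, (if q ∈ asc k then k.factorization q else 0) =
              (if q ∈ asc k' then k'.factorization q else 0) := by
            intro q hq
            exact congrFun (congrFun h q) hq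
          have haux : ∀ q, (q ∈ asc k → q ∈ asc k') := by
            intro q hq
            have h1 := key q (hval k hk q hq)
            rw [if_pos hq] at h1
            by_contra hcon
            rw [if_neg hcon] at h1
            exact fac_ne_zero_of_asc hq h1
          have haux' : ∀ q, (q ∈ asc k' → q ∈ asc k) := by
            intro q hq
            have h1 := key q (hval k' hk' q hq)
            rw [if_pos hq] at h1
            by_contra hcon
            rw [if_neg hcon] at h1
            exact fac_ne_zero_of_asc hq h1.symm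
          refine inj (ne_zero_of_mem hn hk) (ne_zero_of_mem hn hk') ?_ ?_ ?_
          · rw [(mem_sols.1 hk).2, (mem_sols.1 hk').2]
          · ext q; exact ⟨haux q, haux' q⟩
          · intro q hq
            have h1 := key q (hval k hk q hq)
            rwa [if_pos hq, if_pos (haux q hq)] at h1
    _ = ∏ q ∈ n.primeFactors, #(VV n q) := card_pi _ _
    _ = ∏ q ∈ n.primeFactors, ww n q := Finset.prod_congr rfl (fun q hq => card_VV hq)

theorem cube_le (v : ℕ) : v ^ 3 ≤ 3 ^ v := by
  rcases lt_or_ge v 4 with h | h
  · interval_cases v <;> norm_num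
  · induction v, h using Nat.le_induction with
    | base => norm_num
    | succ m hm ih =>
      have h1 : (m + 1) ^ 3 ≤ 3 * m ^ 3 := by nlinarith [hm, Nat.mul_le_mul hm hm]
      calc (m + 1) ^ 3 ≤ 3 * m ^ 3 := h1
        _ ≤ 3 * 3 ^ m := Nat.mul_le_mul_left _ ih
        _ = 3 ^ (m + 1) := by ring

theorem log_le_third (v : ℕ) (hv : 1 ≤ v) : Real.log v ≤ v * (Real.log 3 / 3) := by
  have h := cube_le v
  have h1 : ((v : ℝ)) ^ 3 ≤ 3 ^ v := by exact_mod_cast h
  have h2 := Real.log_le_log (by positivity) h1
  rw [Real.log_pow, Real.log_pow] at h2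
  push_cast at h2
  linarith

theorem general_bound {n : ℕ} (hn : n ≠ 0) (δ Y : ℝ) (hδ : 0 < δ) (hY : 2 < Y)
    (h : Real.log 3 / 3 ≤ δ * Real.log Y) :
    (#(sols n) : ℝ) ≤ Real.exp (Y * Real.log (1 + Nat.log 2 n) + δ * Real.log n) := by
  classical
  have hwpos : ∀ q ∈ n.primeFactors, 0 < ww n q := by
    intro q hq
    rw [← Nat.support_factorization, Finsupp.mem_support_iff] at hq
    unfold ww
    split_ifs <;> omega
  have h1 : (#(sols n) : ℝ) ≤ ∏ q ∈ n.primeFactors, (ww n q : ℝ) := by
    exact_mod_cast card_sols_le hn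
  refine h1.trans ?_
  rw [← Real.log_le_iff_le_exp (Finset.prod_pos (fun q hq => by exact_mod_cast hwpos q hq)),
    Real.log_prod (fun q hq => by have := hwpos q hq; positivity)]
  rw [← Finset.sum_filter_add_sum_filter_not n.primeFactors (fun q : ℕ => (q : ℝ) < Y)]
  refine add_le_add ?_ ?_
  · have hL : ∀ q ∈ n.primeFactors, Real.log (ww n q) ≤ Real.log (1 + Nat.log 2 n) := by
      intro q hq
      refine Real.log_le_log (by exact_mod_cast hwpos q hq) ?_
      have hqp := Nat.prime_of_mem_primeFactors hq
      have h2 : n.factorization q ≤ Nat.log 2 n := by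
        refine Nat.le_log_of_pow_le (by norm_num) ?_
        calc 2 ^ n.factorization q ≤ q ^ n.factorization q := Nat.pow_le_pow_left hqp.two_le _
          _ ≤ n := Nat.ordProj_le q hn
      have h3 : ww n q ≤ 1 + Nat.log 2 n := by unfold ww; split_ifs <;> omega
      exact_mod_cast h3
    have hcard : (#(n.primeFactors.filter (fun q : ℕ => (q : ℝ) < Y)) : ℝ) ≤ Y := by
      have hsub : n.primeFactors.filter (fun q : ℕ => (q : ℝ) < Y) ⊆ Icc 1 ⌊Y⌋₊ := by
        intro q hq
        rw [mem_filter] at hq
        rw [mem_Icc]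
        refine ⟨(Nat.prime_of_mem_primeFactors hq.1).one_lt.le, ?_⟩
        exact Nat.le_floor hq.2.le
      have := card_le_card hsub
      rw [Nat.card_Icc, Nat.add_sub_cancel] at this
      calc (#(n.primeFactors.filter (fun q : ℕ => (q : ℝ) < Y)) : ℝ) ≤ (⌊Y⌋₊ : ℝ) := by exact_mod_cast this
        _ ≤ Y := Nat.floor_le (by linarith)
    have hlognn : 0 ≤ Real.log (1 + Nat.log 2 n) := Real.log_nonneg (by
      have : (0 : ℝ) ≤ Nat.log 2 n := Nat.cast_nonneg _
      linarith)
    calc ∑ q ∈ n.primeFactors.filter (fun q : ℕ => (q : ℝ) < Y), Real.log (ww n q)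
        ≤ ∑ _q ∈ n.primeFactors.filter (fun q : ℕ => (q : ℝ) < Y), Real.log (1 + Nat.log 2 n) :=
          Finset.sum_le_sum (fun q hq => hL q (mem_filter.1 hq).1)
      _ = (#(n.primeFactors.filter (fun q : ℕ => (q : ℝ) < Y)) : ℝ) * Real.log (1 + Nat.log 2 n) := by
          rw [Finset.sum_const, nsmul_eq_mul]
      _ ≤ Y * Real.log (1 + Nat.log 2 n) := mul_le_mul_of_nonneg_right hcard hlognn
  · calc ∑ q ∈ n.primeFactors.filter (fun q : ℕ => ¬ (q : ℝ) < Y), Real.log (ww n q)
        ≤ ∑ q ∈ n.primeFactors.filter (fun q : ℕ => ¬ (q : ℝ) < Y),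
            δ * (n.factorization q * Real.log q) := by
          refine Finset.sum_le_sum ?_
          intro q hq
          rw [mem_filter, not_lt] at hq
          have hq2 : q ≠ 2 := by
            rintro rfl
            have := hq.2
            push_cast at this
            linarith
          have hw : ww n q = n.factorization q := by unfold ww; rw [if_neg hq2]
          have hpos := hwpos q hq.1
          rw [hw] at hpos ⊢
          have h3 := log_le_third (n.factorization q) hpos
          have h4 : Real.log Y ≤ Real.log q := Real.log_le_log (by linarith) hq.2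
          have h5 : Real.log 3 / 3 ≤ δ * Real.log q := h.trans (mul_le_mul_of_nonneg_left h4 hδ.le)
          calc Real.log (n.factorization q) ≤ n.factorization q * (Real.log 3 / 3) := h3
            _ ≤ n.factorization q * (δ * Real.log q) := mul_le_mul_of_nonneg_left h5 (Nat.cast_nonneg _)
            _ = δ * (n.factorization q * Real.log q) := by ring
      _ ≤ ∑ q ∈ n.primeFactors, δ * (n.factorization q * Real.log q) := by
          refine Finset.sum_le_sum_of_subset_of_nonneg (filter_subset _ _) ?_
          intro q hq _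
          have : 0 ≤ Real.log q := Real.log_natCast_nonneg q
          positivity
      _ = δ * Real.log n := by
          rw [← Finset.mul_sum, Real.log_nat_eq_sum_factorization n, Finsupp.sum,
            Nat.support_factorization]

theorem eventually_bound (ε : ℝ) (hε : 0 < ε) : ∀ᶠ n : ℕ in atTop,
    (#(sols n) : ℝ) ≤ (n : ℝ) ^ ((Real.log 3 / 3 + ε) / Real.log (Real.log n)) := by
  set A : ℝ := Real.log 3 / 3 with hA
  have hA0 : 0 < A := by
    have : 0 < Real.log 3 := Real.log_pos (by norm_num)
    positivity
  set B : ℝ := A + ε / 2 with hB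
  have hB0 : 0 < B := by positivity
  set c : ℝ := A / B with hc
  have hc1 : c < 1 := by
    rw [hc, div_lt_one hB0]; linarith
  have hc0 : 0 < c := by positivity
  have hlim : Tendsto (fun n : ℕ => Real.log n) atTop atTop :=
    Real.tendsto_log_atTop.comp tendsto_natCast_atTop_atTop
  -- conditions on x = log n
  have hev : ∀ᶠ x : ℝ in atTop, 3 ≤ x ∧ 1 < Real.log x ∧ 2 < x ^ c ∧
      x ^ c * (2 * Real.log x) ≤ (ε / 2) * x / Real.log x := by
    have e1 : ∀ᶠ x : ℝ in atTop, 3 ≤ x := eventually_ge_atTop 3
    have e2 : ∀ᶠ x : ℝ in atTop, 1 < Real.log x := Real.tendsto_log_atTop.eventually_gt_atTop 1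
    have e3 : ∀ᶠ x : ℝ in atTop, 2 < x ^ c := (tendsto_rpow_atTop hc0).eventually_gt_atTop 2
    have e4 := (isLittleO_log_rpow_atTop (show (0:ℝ) < (1 - c) / 2 by linarith)).bound
      (show (0:ℝ) < Real.sqrt (ε / 4) by positivity)
    filter_upwards [e1, e2, e3, e4] with x h1 h2 h3 h4
    refine ⟨h1, h2, h3, ?_⟩
    have hx0 : 0 < x := by linarith
    rw [Real.norm_of_nonneg (by linarith), Real.norm_of_nonneg (by positivity)] at h4
    rw [le_div_iff₀ (by linarith)]
    have h5 : Real.log x ^ 2 ≤ (ε / 4) * x ^ (1 - c) := by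
      have h6 : Real.log x ^ 2 ≤ (Real.sqrt (ε / 4) * x ^ ((1 - c) / 2)) ^ 2 :=
        pow_le_pow_left₀ (by linarith) h4 2
      have h7 : (Real.sqrt (ε / 4) * x ^ ((1 - c) / 2)) ^ 2 = (ε / 4) * x ^ (1 - c) := by
        rw [mul_pow, Real.sq_sqrt (by positivity), ← Real.rpow_natCast (x ^ ((1 - c) / 2)) 2,
          ← Real.rpow_mul hx0.le]
        congr 2
        push_cast; ring
      rw [h7] at h6
      exact h6
    calc x ^ c * (2 * Real.log x) * Real.log x = 2 * (x ^ c * Real.log x ^ 2) := by ring
      _ ≤ 2 * (x ^ c * ((ε / 4) * x ^ (1 - c))) := by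
          refine mul_le_mul_of_nonneg_left ?_ (by norm_num)
          exact mul_le_mul_of_nonneg_left h5 (by positivity)
      _ = (ε / 2) * (x ^ c * x ^ (1 - c)) := by ring
      _ = (ε / 2) * x := by
          rw [← Real.rpow_add hx0]
          congr 1
          rw [show c + (1 - c) = 1 by ring, Real.rpow_one]
  filter_upwards [hlim.eventually hev, eventually_ge_atTop 1] with n hn hn1
  obtain ⟨h1, h2, h3, h4⟩ := hn
  set x := Real.log n with hx
  have hx0 : 0 < x := by linarith
  have hn0 : n ≠ 0 := by omega
  have hnpos : (0 : ℝ) < n := by exact_mod_cast Nat.pos_of_ne_zero hn0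
  have hgb := general_bound hn0 (B / Real.log x) (x ^ c) (by positivity) h3 (by
    rw [Real.log_rpow hx0]
    have : B / Real.log x * (c * Real.log x) = B * c := by
      field_simp
    rw [this, hc, mul_div_cancel₀ _ hB0.ne'])
  refine hgb.trans ?_
  rw [Real.rpow_def_of_pos hnpos, Real.exp_le_exp, ← hx]
  have hlog : Real.log (1 + Nat.log 2 n) ≤ 2 * Real.log x := by
    have h5 : (Nat.log 2 n : ℝ) * Real.log 2 ≤ x := by
      have h6 : (2 : ℝ) ^ Nat.log 2 n ≤ n := by
        exact_mod_cast Nat.pow_log_le_self 2 hn0
      have h7 := Real.log_le_log (by positivity) h6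
      rwa [Real.log_pow] at h7
    have h8 : (0.5 : ℝ) ≤ Real.log 2 := by
      have := Real.log_two_gt_d9; linarith
    have h9 : (Nat.log 2 n : ℝ) ≤ 2 * x := by
      have : 0 ≤ (Nat.log 2 n : ℝ) := Nat.cast_nonneg _
      nlinarith
    have h10 : (1 + (Nat.log 2 n : ℝ)) ≤ x ^ 2 := by nlinarith
    have h11 := Real.log_le_log (by positivity) h10
    rwa [Real.log_pow] at h11
  have h12 : x ^ c * Real.log (1 + Nat.log 2 n) ≤ (ε / 2) * x / Real.log x :=
    (mul_le_mul_of_nonneg_left hlog (by positivity)).trans h4
  calc x ^ c * Real.log (1 + Nat.log 2 n) + B / Real.log x * x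
      ≤ (ε / 2) * x / Real.log x + B / Real.log x * x := by linarith
    _ = x * ((A + ε) / Real.log x) := by rw [hB]; ring

/-- Bound for the solutions with at most `r` primes whose square divides them. -/
theorem card_few_sq {n : ℕ} (hn : n ≠ 0) (r : ℕ) :
    #((sols n).filter (fun k => #(k.primeFactors.filter (fun p => p ^ 2 ∣ k)) ≤ r)) ≤
      (1 + Nat.log 2 n) ^ (r + 1) := by
  classical
  refine (card_le_card ?_).trans (card_few_asc hn (r + 1))
  intro k hk
  rw [mem_filter] at hk ⊢
  refine ⟨hk.1, ?_⟩
  have hk0 := ne_zero_of_mem hn hk.1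
  have hsub : asc k ⊆ insert 2 (k.primeFactors.filter (fun p => p ^ 2 ∣ k)) := by
    intro q hq
    rw [Finset.mem_insert]
    by_cases h2 : q = 2
    · exact Or.inl h2
    · right
      rw [mem_filter]
      refine ⟨(mem_asc.1 hq).1, ?_⟩
      exact (pow_dvd_pow q (two_le_of_mem_asc hq h2)).trans (Nat.ordProj_dvd k q)
  calc #(asc k) ≤ #(insert 2 (k.primeFactors.filter (fun p => p ^ 2 ∣ k))) := card_le_card hsub
    _ ≤ #(k.primeFactors.filter (fun p => p ^ 2 ∣ k)) + 1 := card_insert_le _ _
    _ ≤ r + 1 := by omega

end Pool.Agent.Helper500.KS
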