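import Mathlib

/-! Rational points on a line seen from two points: the confocal conic maps. -/

namespace Pool.Agent.Helper500.RA

open Real Filter Set Topology

/-- distance from `(x,0)` to `(0,h)` -/
noncomputable def uu (h x : ℝ) : ℝ := √(x ^ 2 + h ^ 2)
/-- distance from `(x,0)` to `(b,k)` -/
noncomputable def vv (b k x : ℝ) : ℝ := √((x - b) ^ 2 + k ^ 2)

section basics
variable {b h k x : ℝ}

theorem uu_sq : uu h x ^ 2 = x ^ 2 + h ^ 2 := Real.sq_sqrt (by positivity)
theorem vv_sq : vv b k x ^ 2 = (x - b) ^ 2 + k ^ 2 := Real.sq_sqrt (by positivity)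

theorem uu_pos (hh : h ≠ 0) : 0 < uu h x := Real.sqrt_pos.2 (by positivity)
theorem vv_pos (hk : k ≠ 0) : 0 < vv b k x := Real.sqrt_pos.2 (by positivity)

theorem abs_lt_uu (hh : h ≠ 0) : |x| < uu h x := by
  apply abs_lt_of_sq_lt_sq _ (uu_pos hh).le
  rw [uu_sq]; have : 0 < h ^ 2 := by positivity
  linarith

theorem abs_lt_vv (hk : k ≠ 0) : |x - b| < vv b k x := by
  apply abs_lt_of_sq_lt_sq _ (vv_pos hk).le
  rw [vv_sq]; have : 0 < k ^ 2 := by positivity
  linarith

theorem pos_aux {x u b f : ℝ} (hx : |x| < u) (hf : 0 < f ^ 2 + b ^ 2) :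
    0 < u * (f ^ 2 + b ^ 2) - 2 * b * x * f := by
  have h1 : 2 * b * x * f ≤ |x| * (f ^ 2 + b ^ 2) := by
    have h2 : 2 * b * x * f ≤ |2 * b * x * f| := le_abs_self _
    have h3 : |2 * b * x * f| = |x| * (2 * (|b| * |f|)) := by
      rw [abs_mul, abs_mul, abs_mul]; simp; ring
    have h4 : 2 * (|b| * |f|) ≤ f ^ 2 + b ^ 2 := by
      have := sq_nonneg (|b| - |f|)
      have e1 := sq_abs b
      have e2 := sq_abs f
      nlinarith
    have h5 := mul_le_mul_of_nonneg_left h4 (abs_nonneg x)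
    linarith
  have h6 := mul_lt_mul_of_pos_right hx hf
  linarith

theorem f_gt (hh : h ≠ 0) (hk : k ≠ 0) : b ^ 2 < (uu h x + vv b k x) ^ 2 := by
  have h1 := abs_lt_uu (x := x) hh
  have h2 := abs_lt_vv (x := x) (b := b) hk
  have h3 : |b| < uu h x + vv b k x := by
    have : |b| ≤ |x| + |x - b| := by
      have := abs_sub x (x - b)
      simpa using this
    linarith
  have h4 : |b| ^ 2 = b ^ 2 := sq_abs b
  have h5 := abs_nonneg b
  nlinarith

/-- algebraic core of the ellipse step -/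
theorem ell_alg {b h k x u v s : ℝ} (hu : u ^ 2 = x ^ 2 + h ^ 2) (hv : v ^ 2 = (x - b) ^ 2 + k ^ 2)
    (hs : ((u + v) ^ 2 - b ^ 2) * s = 2 * (b * u - x * (u + v))) :
    (u + b * s) ^ 2 = (x + (u + v) * s) ^ 2 + h ^ 2 ∧
      (v - b * s) ^ 2 = (x + (u + v) * s - b) ^ 2 + k ^ 2 := by
  constructor
  · linear_combination hu - s * hs
  · linear_combination hv - s * hs

/-- algebraic core of the hyperbola step -/
theorem hyp_alg {b h k x u v s : ℝ} (hu : u ^ 2 = x ^ 2 + h ^ 2) (hv : v ^ 2 = (x - b) ^ 2 + k ^ 2)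
    (hs : ((u - v) ^ 2 - b ^ 2) * s = 2 * (b * u - x * (u - v))) :
    (u + b * s) ^ 2 = (x + (u - v) * s) ^ 2 + h ^ 2 ∧
      (v + b * s) ^ 2 = (x + (u - v) * s - b) ^ 2 + k ^ 2 := by
  constructor
  · linear_combination hu - s * hs
  · linear_combination hv - s * hs

end basics

/-- slope parameter of the ellipse step -/
noncomputable def sE (b h k x : ℝ) : ℝ :=
  2 * (b * uu h x - x * (uu h x + vv b k x)) / ((uu h x + vv b k x) ^ 2 - b ^ 2)
/-- the ellipse map: second intersection of the line with the ellipse through `(x,0)` -/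
noncomputable def EE (b h k x : ℝ) : ℝ := x + (uu h x + vv b k x) * sE b h k x
/-- slope parameter of the hyperbola step -/
noncomputable def sH (b h k x : ℝ) : ℝ :=
  2 * (b * uu h x - x * (uu h x - vv b k x)) / ((uu h x - vv b k x) ^ 2 - b ^ 2)
/-- the hyperbola map -/
noncomputable def HH (b h k x : ℝ) : ℝ := x + (uu h x - vv b k x) * sH b h k x
/-- the linear form whose zero is the finite point with `u - v = b` up to sign -/
noncomputable def LL (b h k x : ℝ) : ℝ :=
  4 * b * (h ^ 2 - k ^ 2) * x + (h ^ 2 - k ^ 2) ^ 2 - 4 * b ^ 2 * h ^ 2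

section maps
variable {b h k x : ℝ}

theorem LL_eq : ((uu h x - vv b k x) ^ 2 - b ^ 2) * ((uu h x + vv b k x) ^ 2 - b ^ 2)
    = LL b h k x := by
  have hu := uu_sq (h := h) (x := x)
  have hv := vv_sq (b := b) (k := k) (x := x)
  unfold LL
  generalize uu h x = u at *
  generalize vv b k x = v at *
  have : ((u - v) ^ 2 - b ^ 2) * ((u + v) ^ 2 - b ^ 2)
      = (u ^ 2 - v ^ 2) ^ 2 - 2 * b ^ 2 * (u ^ 2 + v ^ 2) + b ^ 4 := by ring
  rw [this, hu, hv]; ring

theorem g_ne_iff (hh : h ≠ 0) (hk : k ≠ 0) :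
    (uu h x - vv b k x) ^ 2 - b ^ 2 ≠ 0 ↔ LL b h k x ≠ 0 := by
  rw [← LL_eq]
  have := f_gt (b := b) (x := x) hh hk
  constructor
  · intro h1; exact mul_ne_zero h1 (by linarith)
  · intro h1 h2; exact h1 (by rw [h2, zero_mul])

theorem ell_step (hh : h ≠ 0) (hk : k ≠ 0) :
    uu h (EE b h k x) = uu h x + b * sE b h k x ∧
      vv b k (EE b h k x) = vv b k x - b * sE b h k x := by
  have hf := f_gt (b := b) (x := x) hh hk
  have hu := uu_sq (h := h) (x := x)
  have hv := vv_sq (b := b) (k := k) (x := x)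
  have hux := abs_lt_uu (x := x) hh
  have hvx := abs_lt_vv (x := x) (b := b) hk
  have hup := uu_pos (x := x) hh
  have hvp := vv_pos (x := x) (b := b) hk
  have hD : (uu h x + vv b k x) ^ 2 - b ^ 2 ≠ 0 := by linarith
  have hs : ((uu h x + vv b k x) ^ 2 - b ^ 2) * sE b h k x
      = 2 * (b * uu h x - x * (uu h x + vv b k x)) := by
    unfold sE; field_simp
  have hE : EE b h k x = x + (uu h x + vv b k x) * sE b h k x := rfl
  have hU : uu h (EE b h k x) ^ 2 = (EE b h k x) ^ 2 + h ^ 2 := uu_sq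
  have hV : vv b k (EE b h k x) ^ 2 = (EE b h k x - b) ^ 2 + k ^ 2 := vv_sq
  rw [hE] at hU hV ⊢
  have key := ell_alg hu hv hs
  generalize sE b h k x = s at *
  have hUp : 0 < uu h (x + (uu h x + vv b k x) * s) := uu_pos hh
  have hVp : 0 < vv b k (x + (uu h x + vv b k x) * s) := vv_pos hk
  generalize uu h (x + (uu h x + vv b k x) * s) = U at *
  generalize vv b k (x + (uu h x + vv b k x) * s) = V at *
  generalize uu h x = u at *
  generalize vv b k x = v at *
  have hDp : 0 < (u + v) ^ 2 - b ^ 2 := by linarith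
  have h1 : 0 < u + b * s := by
    have e : ((u + v) ^ 2 - b ^ 2) * (u + b * s)
        = u * ((u + v) ^ 2 + b ^ 2) - 2 * b * x * (u + v) := by
      linear_combination b * hs
    have : 0 < ((u + v) ^ 2 - b ^ 2) * (u + b * s) := by
      rw [e]
      exact pos_aux hux (by positivity)
    exact (pos_iff_pos_of_mul_pos this).1 hDp
  have h2 : 0 < v - b * s := by
    have e : ((u + v) ^ 2 - b ^ 2) * (v - b * s)
        = v * ((u + v) ^ 2 + b ^ 2) + 2 * b * (x - b) * (u + v) := by
      linear_combination (-b) * hs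
    have : 0 < ((u + v) ^ 2 - b ^ 2) * (v - b * s) := by
      rw [e]
      have := pos_aux (x := -(x - b)) (by rwa [abs_neg]) (by positivity : 0 < (u + v) ^ 2 + b ^ 2)
      linarith
    exact (pos_iff_pos_of_mul_pos this).1 hDp
  constructor
  · have : U ^ 2 = (u + b * s) ^ 2 := by rw [hU, key.1]
    exact (pow_left_inj₀ hUp.le h1.le (by norm_num)).1 this
  · have : V ^ 2 = (v - b * s) ^ 2 := by rw [hV, key.2]
    exact (pow_left_inj₀ hVp.le h2.le (by norm_num)).1 this

theorem hyp_step (hh : h ≠ 0) (hk : k ≠ 0) (hL : LL b h k x ≠ 0) :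
    uu h (HH b h k x) = |uu h x + b * sH b h k x| ∧
      vv b k (HH b h k x) = |vv b k x + b * sH b h k x| ∧
      0 < (uu h x + b * sH b h k x) * (vv b k x + b * sH b h k x) := by
  have hD := (g_ne_iff (b := b) (x := x) hh hk).2 hL
  have hu := uu_sq (h := h) (x := x)
  have hv := vv_sq (b := b) (k := k) (x := x)
  have hux := abs_lt_uu (x := x) hh
  have hvx := abs_lt_vv (x := x) (b := b) hk
  have hs : ((uu h x - vv b k x) ^ 2 - b ^ 2) * sH b h k x
      = 2 * (b * uu h x - x * (uu h x - vv b k x)) := by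
    unfold sH; field_simp
  have hE : HH b h k x = x + (uu h x - vv b k x) * sH b h k x := rfl
  have hU : uu h (HH b h k x) ^ 2 = (HH b h k x) ^ 2 + h ^ 2 := uu_sq
  have hV : vv b k (HH b h k x) ^ 2 = (HH b h k x - b) ^ 2 + k ^ 2 := vv_sq
  rw [hE] at hU hV ⊢
  have key := hyp_alg hu hv hs
  generalize sH b h k x = s at *
  have hUp : 0 < uu h (x + (uu h x - vv b k x) * s) := uu_pos hh
  have hVp : 0 < vv b k (x + (uu h x - vv b k x) * s) := vv_pos hk
  generalize uu h (x + (uu h x - vv b k x) * s) = U at *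
  generalize vv b k (x + (uu h x - vv b k x) * s) = V at *
  generalize uu h x = u at *
  generalize vv b k x = v at *
  have hpos : 0 < (u - v) ^ 2 + b ^ 2 := by
    rcases eq_or_ne b 0 with hb | hb
    · subst hb
      have : 0 < (u - v) ^ 2 := by
        have := sq_nonneg (u - v)
        rcases this.lt_or_eq with h1 | h1
        · exact h1
        · exact absurd (by rw [← h1]; ring) hD
      positivity
    · positivity
  have e1 : ((u - v) ^ 2 - b ^ 2) * (u + b * s)
      = u * ((u - v) ^ 2 + b ^ 2) - 2 * b * x * (u - v) := by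
    linear_combination b * hs
  have p1 : 0 < u * ((u - v) ^ 2 + b ^ 2) - 2 * b * x * (u - v) := pos_aux hux hpos
  have e2 : ((u - v) ^ 2 - b ^ 2) * (v + b * s)
      = v * ((u - v) ^ 2 + b ^ 2) - 2 * b * (x - b) * (u - v) := by
    linear_combination b * hs
  have p2 : 0 < v * ((u - v) ^ 2 + b ^ 2) - 2 * b * (x - b) * (u - v) := pos_aux hvx hpos
  refine ⟨?_, ?_, ?_⟩
  · have : U ^ 2 = |u + b * s| ^ 2 := by rw [hU, sq_abs, key.1]
    exact (pow_left_inj₀ hUp.le (abs_nonneg _) (by norm_num)).1 this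
  · have : V ^ 2 = |v + b * s| ^ 2 := by rw [hV, sq_abs, key.2]
    exact (pow_left_inj₀ hVp.le (abs_nonneg _) (by norm_num)).1 this
  · rw [← e1] at p1
    rw [← e2] at p2
    have h3 := mul_pos p1 p2
    have h4 : ((u - v) ^ 2 - b ^ 2) * (u + b * s) * (((u - v) ^ 2 - b ^ 2) * (v + b * s))
        = ((u - v) ^ 2 - b ^ 2) ^ 2 * ((u + b * s) * (v + b * s)) := by ring
    rw [h4] at h3
    have h5 : 0 < ((u - v) ^ 2 - b ^ 2) ^ 2 := by positivity
    exact (pos_iff_pos_of_mul_pos h3).1 h5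

/-- the ellipse map is an involution -/
theorem EE_EE (hh : h ≠ 0) (hk : k ≠ 0) : EE b h k (EE b h k x) = x := by
  have hf := f_gt (b := b) (x := x) hh hk
  obtain ⟨h1, h2⟩ := ell_step (b := b) (x := x) hh hk
  have hD : (uu h x + vv b k x) ^ 2 - b ^ 2 ≠ 0 := by linarith
  have hs : ((uu h x + vv b k x) ^ 2 - b ^ 2) * sE b h k x
      = 2 * (b * uu h x - x * (uu h x + vv b k x)) := by
    unfold sE; field_simp
  have e : sE b h k (EE b h k x) = - sE b h k x := by
    have : sE b h k (EE b h k x) = 2 * (b * uu h (EE b h k x) - (EE b h k x) * (uu h (EE b h k x) + vv b k (EE b h k x))) / ((uu h (EE b h k x) + vv b k (EE b h k x)) ^ 2 - b ^ 2) := rfl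
    rw [this, h1, h2]
    have e3 : uu h x + b * sE b h k x + (vv b k x - b * sE b h k x) = uu h x + vv b k x := by ring
    rw [e3, div_eq_iff hD]
    unfold EE
    linear_combination (-1 : ℝ) * hs
  have : EE b h k (EE b h k x) = EE b h k x + (uu h (EE b h k x) + vv b k (EE b h k x)) * sE b h k (EE b h k x) := rfl
  rw [this, e, h1, h2]
  unfold EE
  ring

/-- the hyperbola map preserves the square of the difference of distances -/
theorem hyp_g (hh : h ≠ 0) (hk : k ≠ 0) (hL : LL b h k x ≠ 0) :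
    (uu h (HH b h k x) - vv b k (HH b h k x)) ^ 2 = (uu h x - vv b k x) ^ 2 := by
  obtain ⟨h1, h2, h3⟩ := hyp_step (b := b) (x := x) hh hk hL
  rw [h1, h2]
  rcases pos_and_pos_or_neg_and_neg_of_mul_pos h3 with ⟨a1, a2⟩ | ⟨a1, a2⟩
  · rw [abs_of_pos a1, abs_of_pos a2]; ring
  · rw [abs_of_neg a1, abs_of_neg a2]; ring

theorem hyp_L (hh : h ≠ 0) (hk : k ≠ 0) (hL : LL b h k x ≠ 0) :
    (0 < LL b h k (HH b h k x) ↔ 0 < LL b h k x) ∧ LL b h k (HH b h k x) ≠ 0 := by
  have h1 := LL_eq (b := b) (h := h) (k := k) (x := HH b h k x)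
  have h2 := LL_eq (b := b) (h := h) (k := k) (x := x)
  have h3 := hyp_g (b := b) (x := x) hh hk hL
  have f1 := f_gt (b := b) (x := x) hh hk
  have f2 := f_gt (b := b) (x := HH b h k x) hh hk
  rw [h3] at h1
  have hD := (g_ne_iff (b := b) (x := x) hh hk).2 hL
  constructor
  · rw [← h1, ← h2]
    constructor
    · intro h4
      exact mul_pos ((pos_iff_pos_of_mul_pos h4).2 (by linarith)) (by linarith)
    · intro h4
      exact mul_pos ((pos_iff_pos_of_mul_pos h4).2 (by linarith)) (by linarith)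
  · rw [← h1]
    exact mul_ne_zero hD (by linarith)

/-- the hyperbola map is an involution -/
theorem HH_HH (hh : h ≠ 0) (hk : k ≠ 0) (hL : LL b h k x ≠ 0) :
    HH b h k (HH b h k x) = x := by
  have hD := (g_ne_iff (b := b) (x := x) hh hk).2 hL
  obtain ⟨h1, h2, h3⟩ := hyp_step (b := b) (x := x) hh hk hL
  have hs : ((uu h x - vv b k x) ^ 2 - b ^ 2) * sH b h k x
      = 2 * (b * uu h x - x * (uu h x - vv b k x)) := by
    unfold sH; field_simp
  have d1 : sH b h k (HH b h k x) = 2 * (b * uu h (HH b h k x) - (HH b h k x) * (uu h (HH b h k x) - vv b k (HH b h k x))) / ((uu h (HH b h k x) - vv b k (HH b h k x)) ^ 2 - b ^ 2) := rfl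
  have d2 : HH b h k (HH b h k x) = HH b h k x + (uu h (HH b h k x) - vv b k (HH b h k x)) * sH b h k (HH b h k x) := rfl
  rcases pos_and_pos_or_neg_and_neg_of_mul_pos h3 with ⟨a1, a2⟩ | ⟨a1, a2⟩
  · rw [abs_of_pos a1] at h1
    rw [abs_of_pos a2] at h2
    have e : sH b h k (HH b h k x) = - sH b h k x := by
      rw [d1, h1, h2]
      have e3 : uu h x + b * sH b h k x - (vv b k x + b * sH b h k x) = uu h x - vv b k x := by ring
      rw [e3, div_eq_iff hD]
      unfold HH
      linear_combination (-1 : ℝ) * hs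
    rw [d2, e, h1, h2]
    unfold HH
    ring
  · rw [abs_of_neg a1] at h1
    rw [abs_of_neg a2] at h2
    have e : sH b h k (HH b h k x) = sH b h k x := by
      rw [d1, h1, h2]
      have e3 : -(uu h x + b * sH b h k x) - -(vv b k x + b * sH b h k x) = -(uu h x - vv b k x) := by ring
      rw [e3, neg_sq, div_eq_iff hD]
      unfold HH
      linear_combination (1 : ℝ) * hs
    rw [d2, e, h1, h2]
    unfold HH
    ring

theorem hasDerivAt_uu (hh : h ≠ 0) : HasDerivAt (uu h) (x / uu h x) x := by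
  have h1 : HasDerivAt (fun y : ℝ => y ^ 2 + h ^ 2) (2 * x) x := by
    simpa using (hasDerivAt_pow 2 x).add_const (h ^ 2)
  have h2 : HasDerivAt (uu h) (2 * x / (2 * uu h x)) x := h1.sqrt (by positivity)
  rwa [mul_div_mul_left _ _ two_ne_zero] at h2

theorem hasDerivAt_vv (hk : k ≠ 0) : HasDerivAt (vv b k) ((x - b) / vv b k x) x := by
  have h1 : HasDerivAt (fun y : ℝ => (y - b) ^ 2 + k ^ 2) (2 * (x - b)) x := by
    simpa using (((hasDerivAt_id x).sub_const b).pow 2).add_const (k ^ 2)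
  have h2 : HasDerivAt (vv b k) (2 * (x - b) / (2 * vv b k x)) x := h1.sqrt (by positivity)
  rwa [mul_div_mul_left _ _ two_ne_zero] at h2

theorem ell_deriv_alg {x b u v : ℝ} (hu : u ≠ 0) (hv : v ≠ 0) (hD : (u + v) ^ 2 - b ^ 2 ≠ 0) :
    1 + ((x / u + (x - b) / v) * (2 * (b * u - x * (u + v)) / ((u + v) ^ 2 - b ^ 2)) + (u + v) *
      ((2 * (b * (x / u) - (1 * (u + v) + x * (x / u + (x - b) / v))) * ((u + v) ^ 2 - b ^ 2)
        - 2 * (b * u - x * (u + v)) * (2 * (u + v) * (x / u + (x - b) / v))) / ((u + v) ^ 2 - b ^ 2) ^ 2))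
      = -((u + b * (2 * (b * u - x * (u + v)) / ((u + v) ^ 2 - b ^ 2))) *
        (v - b * (2 * (b * u - x * (u + v)) / ((u + v) ^ 2 - b ^ 2)))) / (u * v) := by
  field_simp
  ring

theorem hyp_deriv_alg {x b u v : ℝ} (hu : u ≠ 0) (hv : v ≠ 0) (hD : (u - v) ^ 2 - b ^ 2 ≠ 0) :
    1 + ((x / u - (x - b) / v) * (2 * (b * u - x * (u - v)) / ((u - v) ^ 2 - b ^ 2)) + (u - v) *
      ((2 * (b * (x / u) - (1 * (u - v) + x * (x / u - (x - b) / v))) * ((u - v) ^ 2 - b ^ 2)
        - 2 * (b * u - x * (u - v)) * (2 * (u - v) * (x / u - (x - b) / v))) / ((u - v) ^ 2 - b ^ 2) ^ 2))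
      = -((u + b * (2 * (b * u - x * (u - v)) / ((u - v) ^ 2 - b ^ 2))) *
        (v + b * (2 * (b * u - x * (u - v)) / ((u - v) ^ 2 - b ^ 2)))) / (u * v) := by
  field_simp
  ring

theorem hasDerivAt_EE (hh : h ≠ 0) (hk : k ≠ 0) :
    HasDerivAt (EE b h k) (-(uu h (EE b h k x) * vv b k (EE b h k x)) / (uu h x * vv b k x)) x := by
  have hf := f_gt (b := b) (x := x) hh hk
  have hD : (uu h x + vv b k x) ^ 2 - b ^ 2 ≠ 0 := by linarith
  obtain ⟨h1, h2⟩ := ell_step (b := b) (x := x) hh hk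
  have du := hasDerivAt_uu (x := x) hh
  have dv := hasDerivAt_vv (x := x) (b := b) hk
  have df := du.add dv
  have dN := ((du.const_mul b).sub ((hasDerivAt_id x).mul df)).const_mul 2
  have dD := (df.pow 2).sub_const (b ^ 2)
  have ds := dN.div dD hD
  have dE := (hasDerivAt_id x).add (df.mul ds)
  have key := ell_deriv_alg (x := x) (b := b) (uu_pos (x := x) hh).ne' (vv_pos (x := x) (b := b) hk).ne' hD
  rw [h1, h2]
  unfold sE
  rw [← key]
  refine (HasDerivAt.congr_deriv dE ?_)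
  simp

theorem hasDerivAt_HH (hh : h ≠ 0) (hk : k ≠ 0) (hL : LL b h k x ≠ 0) :
    HasDerivAt (HH b h k) (-(uu h (HH b h k x) * vv b k (HH b h k x)) / (uu h x * vv b k x)) x := by
  have hD := (g_ne_iff (b := b) (x := x) hh hk).2 hL
  obtain ⟨h1, h2, h3⟩ := hyp_step (b := b) (x := x) hh hk hL
  have du := hasDerivAt_uu (x := x) hh
  have dv := hasDerivAt_vv (x := x) (b := b) hk
  have df := du.sub dv
  have dN := ((du.const_mul b).sub ((hasDerivAt_id x).mul df)).const_mul 2
  have dD := (df.pow 2).sub_const (b ^ 2)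
  have ds := dN.div dD hD
  have dE := (hasDerivAt_id x).add (df.mul ds)
  have key := hyp_deriv_alg (x := x) (b := b) (uu_pos (x := x) hh).ne' (vv_pos (x := x) (b := b) hk).ne' hD
  have e : uu h (HH b h k x) * vv b k (HH b h k x) =
      (uu h x + b * sH b h k x) * (vv b k x + b * sH b h k x) := by
    rw [h1, h2, ← abs_mul, abs_of_pos h3]
  rw [e]
  unfold sH
  rw [← key]
  refine (HasDerivAt.congr_deriv dE ?_)
  simp

end maps

end Pool.Agent.Helper500.RA
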