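import Mathlib
import Pool.Agent.Helper500.RA1

/-! The invariant measure on the line and the rotation relations. -/

namespace Pool.Agent.Helper500.RA

open Real Filter Set Topology

/-- density of the invariant measure -/
noncomputable def ww (b h k x : ℝ) : ℝ := 1 / (uu h x * vv b k x)

/-- primitive of the density -/
noncomputable def MM (b h k x : ℝ) : ℝ := ∫ t in (0 : ℝ)..x, ww b h k t

section
variable {b h k : ℝ}

theorem continuous_uu : Continuous (uu h) := by unfold uu; fun_prop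
theorem continuous_vv : Continuous (vv b k) := by unfold vv; fun_prop

theorem continuous_ww (hh : h ≠ 0) (hk : k ≠ 0) : Continuous (ww b h k) := by
  unfold ww
  refine continuous_const.div (continuous_uu.mul continuous_vv) ?_
  intro x
  exact (mul_pos (uu_pos hh) (vv_pos hk)).ne'

theorem ww_pos (hh : h ≠ 0) (hk : k ≠ 0) (x : ℝ) : 0 < ww b h k x := by
  unfold ww
  exact div_pos one_pos (mul_pos (uu_pos hh) (vv_pos hk))

theorem hasDerivAt_MM (hh : h ≠ 0) (hk : k ≠ 0) (x : ℝ) :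
    HasDerivAt (MM b h k) (ww b h k x) x :=
  ((continuous_ww hh hk).integral_hasStrictDerivAt 0 x).hasDerivAt

theorem ww_le {m K : ℝ} (hm : 0 < m) (hh : m ≤ |h|) (hk : m ≤ |k|) (hb : |b| ≤ K) (x : ℝ) :
    ww b h k x ≤ (3 + (2 * K ^ 2 + 2) / m ^ 2) * (1 / (1 + x ^ 2)) := by
  have hh0 : h ≠ 0 := by intro h0; rw [h0, abs_zero] at hh; linarith
  have hk0 : k ≠ 0 := by intro h0; rw [h0, abs_zero] at hk; linarith
  have hu := uu_sq (h := h) (x := x)
  have hv := vv_sq (b := b) (k := k) (x := x)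
  have hup := uu_pos (x := x) hh0
  have hvp := vv_pos (x := x) (b := b) hk0
  have hm2 : 0 < m ^ 2 := by positivity
  have hh2 : m ^ 2 ≤ h ^ 2 := by rw [← sq_abs h]; exact pow_le_pow_left₀ hm.le hh 2
  have hk2 : m ^ 2 ≤ k ^ 2 := by rw [← sq_abs k]; exact pow_le_pow_left₀ hm.le hk 2
  have hb2 : b ^ 2 ≤ K ^ 2 := by rw [← sq_abs b]; exact pow_le_pow_left₀ (abs_nonneg _) hb 2
  have c1 : 1 + x ^ 2 ≤ (1 + 1 / m ^ 2) * uu h x ^ 2 := by
    rw [hu]
    have : 1 ≤ 1 / m ^ 2 * h ^ 2 := by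
      rw [one_div, inv_mul_eq_div, le_div_iff₀ hm2]; linarith
    have h3 : 0 ≤ 1 / m ^ 2 * x ^ 2 := by positivity
    nlinarith [sq_nonneg h]
  have c2 : 1 + x ^ 2 ≤ (2 + (2 * K ^ 2 + 1) / m ^ 2) * vv b k x ^ 2 := by
    rw [hv]
    have e1 : 2 * K ^ 2 + 1 ≤ (2 * K ^ 2 + 1) / m ^ 2 * k ^ 2 := by
      rw [div_mul_eq_mul_div, le_div_iff₀ hm2]
      have : 0 ≤ 2 * K ^ 2 + 1 := by positivity
      exact mul_le_mul_of_nonneg_left hk2 this
    have e2 : 0 ≤ (2 * K ^ 2 + 1) / m ^ 2 * (x - b) ^ 2 := by positivity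
    nlinarith [sq_nonneg k, sq_nonneg (x - 2 * b)]
  set C1 := 1 + 1 / m ^ 2
  set C2 := 2 + (2 * K ^ 2 + 1) / m ^ 2
  have hC1 : 0 < C1 := by positivity
  have hC2 : 0 < C2 := by positivity
  have e : 3 + (2 * K ^ 2 + 2) / m ^ 2 = C1 + C2 := by
    simp only [C1, C2]; field_simp; ring
  rw [e]
  have hp : 0 < 1 + x ^ 2 := by positivity
  have key : 1 + x ^ 2 ≤ (C1 + C2) * (uu h x * vv b k x) := by
    have h1 : (1 + x ^ 2) ^ 2 ≤ ((C1 + C2) * (uu h x * vv b k x)) ^ 2 := by
      calc (1 + x ^ 2) ^ 2 = (1 + x ^ 2) * (1 + x ^ 2) := by ring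
        _ ≤ (C1 * uu h x ^ 2) * (C2 * vv b k x ^ 2) := mul_le_mul c1 c2 hp.le (by positivity)
        _ = (C1 * C2) * (uu h x * vv b k x) ^ 2 := by ring
        _ ≤ (C1 + C2) ^ 2 * (uu h x * vv b k x) ^ 2 := by
          apply mul_le_mul_of_nonneg_right _ (by positivity)
          nlinarith
        _ = _ := by ring
    exact (pow_le_pow_iff_left₀ hp.le (by positivity) (by norm_num)).1 h1
  unfold ww
  rw [mul_one_div, div_le_div_iff₀ (by positivity) hp]
  linarith

theorem MM_zero : MM b h k 0 = 0 := by unfold MM; simp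

theorem MM_strictMono (hh : h ≠ 0) (hk : k ≠ 0) : StrictMono (MM b h k) :=
  strictMono_of_deriv_pos fun x => by rw [(hasDerivAt_MM hh hk x).deriv]; exact ww_pos hh hk x

theorem MM_continuous (hh : h ≠ 0) (hk : k ≠ 0) : Continuous (MM b h k) :=
  continuous_iff_continuousAt.2 fun x => (hasDerivAt_MM hh hk x).continuousAt

theorem MM_bound {m K : ℝ} (hm : 0 < m) (hh : m ≤ |h|) (hk : m ≤ |k|) (hb : |b| ≤ K) (x : ℝ) :
    |MM b h k x| ≤ (3 + (2 * K ^ 2 + 2) / m ^ 2) * (π / 2) := by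
  have hh0 : h ≠ 0 := by intro h0; rw [h0, abs_zero] at hh; linarith
  have hk0 : k ≠ 0 := by intro h0; rw [h0, abs_zero] at hk; linarith
  set C := 3 + (2 * K ^ 2 + 2) / m ^ 2
  have hC : 0 < C := by positivity
  have hd : ∀ x, HasDerivAt (fun x => C * arctan x - MM b h k x)
      (C * (1 / (1 + x ^ 2)) - ww b h k x) x := fun x =>
    ((hasDerivAt_arctan x).const_mul C).sub (hasDerivAt_MM hh0 hk0 x)
  have hmono : Monotone (fun x => C * arctan x - MM b h k x) := by
    apply monotone_of_deriv_nonneg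
    · intro x
      exact (hd x).differentiableAt
    · intro x
      rw [(hd x).deriv]
      have := ww_le hm hh hk hb x
      linarith
  have hpi := Real.pi_pos
  have hM := MM_strictMono (b := b) hh0 hk0
  rcases le_total 0 x with hx | hx
  · have h1 := hmono hx
    simp only [arctan_zero, MM_zero] at h1
    have h2 := Real.arctan_lt_pi_div_two x
    have h3 : 0 ≤ MM b h k x := by rw [← MM_zero (b := b) (h := h) (k := k)]; exact hM.monotone hx
    rw [abs_of_nonneg h3]
    have := mul_le_mul_of_nonneg_left h2.le hC.le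
    linarith
  · have h1 := hmono hx
    simp only [arctan_zero, MM_zero] at h1
    have h2 := Real.neg_pi_div_two_lt_arctan x
    have h3 : MM b h k x ≤ 0 := by rw [← MM_zero (b := b) (h := h) (k := k)]; exact hM.monotone hx
    rw [abs_of_nonpos h3]
    have := mul_le_mul_of_nonneg_left h2.le hC.le
    linarith

theorem MM_bdd (hh : h ≠ 0) (hk : k ≠ 0) : ∃ C, ∀ x, |MM b h k x| ≤ C := by
  refine ⟨(3 + (2 * |b| ^ 2 + 2) / (min |h| |k|) ^ 2) * (π / 2), fun x => ?_⟩
  exact MM_bound (lt_min (abs_pos.2 hh) (abs_pos.2 hk)) (min_le_left _ _) (min_le_right _ _) le_rfl x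

/-- upper limit of the primitive -/
noncomputable def Ap (b h k : ℝ) : ℝ := ⨆ x, MM b h k x
/-- lower limit of the primitive -/
noncomputable def Am (b h k : ℝ) : ℝ := ⨅ x, MM b h k x

theorem tendsto_MM_top (hh : h ≠ 0) (hk : k ≠ 0) : Tendsto (MM b h k) atTop (𝓝 (Ap b h k)) := by
  obtain ⟨C, hC⟩ := MM_bdd (b := b) hh hk
  apply tendsto_atTop_ciSup (MM_strictMono hh hk).monotone
  exact ⟨C, by rintro _ ⟨x, rfl⟩; exact (abs_le.1 (hC x)).2⟩

theorem tendsto_MM_bot (hh : h ≠ 0) (hk : k ≠ 0) : Tendsto (MM b h k) atBot (𝓝 (Am b h k)) := by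
  obtain ⟨C, hC⟩ := MM_bdd (b := b) hh hk
  apply tendsto_atBot_ciInf (MM_strictMono hh hk).monotone
  exact ⟨-C, by rintro _ ⟨x, rfl⟩; exact (abs_le.1 (hC x)).1⟩

theorem MM_lt_Ap (hh : h ≠ 0) (hk : k ≠ 0) (x : ℝ) : MM b h k x < Ap b h k := by
  have h1 := MM_strictMono (b := b) hh hk (lt_add_one x)
  have h2 : MM b h k (x + 1) ≤ Ap b h k := (MM_strictMono hh hk).monotone.ge_of_tendsto (tendsto_MM_top hh hk) _
  linarith

theorem Am_lt_MM (hh : h ≠ 0) (hk : k ≠ 0) (x : ℝ) : Am b h k < MM b h k x := by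
  have h1 := MM_strictMono (b := b) hh hk (sub_one_lt x)
  have h2 : Am b h k ≤ MM b h k (x - 1) := (MM_strictMono hh hk).monotone.le_of_tendsto (tendsto_MM_bot hh hk) _
  linarith

/-- normalised coordinate on the line, a homeomorphism onto `(0,1)` -/
noncomputable def GG (b h k x : ℝ) : ℝ := (MM b h k x - Am b h k) / (Ap b h k - Am b h k)

theorem Om_pos (hh : h ≠ 0) (hk : k ≠ 0) : 0 < Ap b h k - Am b h k := by
  have := MM_lt_Ap (b := b) hh hk 0
  have := Am_lt_MM (b := b) hh hk 0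
  linarith

theorem GG_strictMono (hh : h ≠ 0) (hk : k ≠ 0) : StrictMono (GG b h k) := by
  intro x y hxy
  have := MM_strictMono (b := b) hh hk hxy
  unfold GG
  exact div_lt_div_of_pos_right (by linarith) (Om_pos hh hk)

theorem GG_pos (hh : h ≠ 0) (hk : k ≠ 0) (x : ℝ) : 0 < GG b h k x :=
  div_pos (by linarith [Am_lt_MM (b := b) hh hk x]) (Om_pos hh hk)

theorem GG_lt_one (hh : h ≠ 0) (hk : k ≠ 0) (x : ℝ) : GG b h k x < 1 := by
  unfold GG
  rw [div_lt_one (Om_pos hh hk)]
  linarith [MM_lt_Ap (b := b) hh hk x]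

theorem hasDerivAt_GG (hh : h ≠ 0) (hk : k ≠ 0) (x : ℝ) :
    HasDerivAt (GG b h k) (ww b h k x / (Ap b h k - Am b h k)) x :=
  ((hasDerivAt_MM hh hk x).sub_const _).div_const _

theorem GG_continuous (hh : h ≠ 0) (hk : k ≠ 0) : Continuous (GG b h k) :=
  continuous_iff_continuousAt.2 fun x => (hasDerivAt_GG hh hk x).continuousAt

theorem tendsto_GG_top (hh : h ≠ 0) (hk : k ≠ 0) : Tendsto (GG b h k) atTop (𝓝 1) := by
  have h1 := ((tendsto_MM_top (b := b) hh hk).sub_const (Am b h k)).div_const (Ap b h k - Am b h k)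
  rwa [div_self (Om_pos hh hk).ne'] at h1

theorem tendsto_GG_bot (hh : h ≠ 0) (hk : k ≠ 0) : Tendsto (GG b h k) atBot (𝓝 0) := by
  have h1 := ((tendsto_MM_bot (b := b) hh hk).sub_const (Am b h k)).div_const (Ap b h k - Am b h k)
  rw [sub_self, zero_div] at h1
  exact h1

/-- the chain rule computation behind measure reversal -/
theorem deriv_comp_zero (hh : h ≠ 0) (hk : k ≠ 0) {T : ℝ → ℝ} {x : ℝ}
    (hT : HasDerivAt T (-(uu h (T x) * vv b k (T x)) / (uu h x * vv b k x)) x) :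
    HasDerivAt (fun y => GG b h k (T y) + GG b h k x * 0 + GG b h k y) 0 x := by
  have h1 := (hasDerivAt_GG (b := b) hh hk (T x)).comp x hT
  have h2 := (h1.add_const (GG b h k x * 0)).add (hasDerivAt_GG (b := b) hh hk x)
  refine HasDerivAt.congr_deriv h2 ?_
  have a1 := (uu_pos (x := T x) hh).ne'
  have a2 := (vv_pos (x := T x) (b := b) hk).ne'
  have a3 := (uu_pos (x := x) hh).ne'
  have a4 := (vv_pos (x := x) (b := b) hk).ne'
  have a5 := (Om_pos (b := b) hh hk).ne'
  unfold ww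
  field_simp
  ring

theorem deriv_comp_zero' (hh : h ≠ 0) (hk : k ≠ 0) {T : ℝ → ℝ} {x : ℝ}
    (hT : HasDerivAt T (-(uu h (T x) * vv b k (T x)) / (uu h x * vv b k x)) x) :
    HasDerivAt (fun y => GG b h k (T y) + GG b h k y) 0 x := by
  simpa using deriv_comp_zero hh hk hT

end

section constants
variable {G T : ℝ → ℝ} {C a : ℝ}

theorem const_univ (h0 : Tendsto G atBot (𝓝 0)) (h1 : Tendsto G atTop (𝓝 1))
    (hp : ∀ x, 0 < G x) (hl : ∀ x, G x < 1) (hT : ∀ x, T (T x) = x)
    (hC : ∀ x, G (T x) + G x = C) : C = 1 := by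
  apply le_antisymm
  · have h2 : Tendsto (fun x => C - G x) atBot (𝓝 (C - 0)) := tendsto_const_nhds.sub h0
    have h3 := le_of_tendsto h2 (Eventually.of_forall fun x => (show C - G x ≤ 1 by
      have := hC x; have := hl (T x); linarith))
    linarith
  · refine le_of_tendsto h1 (Eventually.of_forall fun y => ?_)
    have := hC (T y)
    rw [hT] at this
    have := hp (T y)
    linarith

theorem const_lt (h0 : Tendsto G atBot (𝓝 0)) (hG : Continuous G) (hm : StrictMono G)
    (hp : ∀ x, 0 < G x) (hT1 : ∀ x < a, T x < a) (hT : ∀ x < a, T (T x) = x)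
    (hC : ∀ x < a, G (T x) + G x = C) : C = G a := by
  apply le_antisymm
  · have h2 : Tendsto (fun x => C - G x) atBot (𝓝 (C - 0)) := tendsto_const_nhds.sub h0
    have h3 := le_of_tendsto h2 ((eventually_lt_atBot a).mono fun x hx => (show C - G x ≤ G a by
      have := hC x hx; have := hm (hT1 x hx); linarith))
    linarith
  · have h2 : Tendsto G (𝓝[<] a) (𝓝 (G a)) := hG.continuousAt.tendsto.mono_left nhdsWithin_le_nhds
    refine le_of_tendsto h2 (eventually_nhdsWithin_of_forall fun y hy => ?_)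
    have h3 := hC (T y) (hT1 y hy)
    rw [hT y hy] at h3
    have := hp (T y)
    linarith

theorem const_gt (h1 : Tendsto G atTop (𝓝 1)) (hG : Continuous G) (hm : StrictMono G)
    (hl : ∀ x, G x < 1) (hT1 : ∀ x > a, T x > a) (hT : ∀ x > a, T (T x) = x)
    (hC : ∀ x > a, G (T x) + G x = C) : C = 1 + G a := by
  apply le_antisymm
  · have h2 : Tendsto (fun x => C - G x) (𝓝[>] a) (𝓝 (C - G a)) :=
      tendsto_const_nhds.sub (hG.continuousAt.tendsto.mono_left nhdsWithin_le_nhds)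
    have h3 := le_of_tendsto h2 (eventually_nhdsWithin_of_forall fun x hx => (show C - G x ≤ 1 by
      have := hC x hx; have := hl (T x); linarith))
    linarith
  · have h2 : Tendsto (fun y => G y) atTop (𝓝 1) := h1
    have h3 := le_of_tendsto h2 ((eventually_gt_atTop a).mono fun y hy => (show G y ≤ C - G a by
      have h3 := hC (T y) (hT1 y hy)
      rw [hT y hy] at h3
      have := hm (hT1 y hy)
      linarith))
    linarith

end constants

end Pool.Agent.Helper500.RA
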