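import Mathlib
import Pool.Agent.Helper500.RA2

/-! Rotation relations and density of orbits. -/

namespace Pool.Agent.Helper500.RA

open Real Filter Set Topology

/-- the first finite orbit point -/
noncomputable def x1 (b h k : ℝ) : ℝ := (4 * b ^ 2 * h ^ 2 - (h ^ 2 - k ^ 2) ^ 2) / (4 * b * (h ^ 2 - k ^ 2))

theorem mpn {c a : ℝ} (hc : c < 0) : 0 < c * a ↔ a < 0 :=
  ⟨fun h => by
    by_contra h2
    have := mul_nonpos_of_nonpos_of_nonneg hc.le (not_lt.1 h2)
    linarith, fun h => mul_pos_of_neg_of_neg hc h⟩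

section
variable {b h k x : ℝ}

theorem LL_x1 (hb : b ≠ 0) (hhk : h ^ 2 - k ^ 2 ≠ 0) :
    LL b h k x = 4 * b * (h ^ 2 - k ^ 2) * (x - x1 b h k) := by
  unfold LL x1
  field_simp
  ring

theorem LL_ne_iff (hb : b ≠ 0) (hhk : h ^ 2 - k ^ 2 ≠ 0) : LL b h k x ≠ 0 ↔ x ≠ x1 b h k := by
  rw [LL_x1 hb hhk]
  have h4 : 4 * b * (h ^ 2 - k ^ 2) ≠ 0 := by positivity
  rw [mul_ne_zero_iff, sub_ne_zero]
  simp only [h4, ne_eq, not_false_eq_true, true_and]

theorem side_iff (hh : h ≠ 0) (hk : k ≠ 0) (hb : b ≠ 0) (hhk : h ^ 2 - k ^ 2 ≠ 0)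
    (hx : x ≠ x1 b h k) : (x1 b h k < HH b h k x ↔ x1 b h k < x) ∧ HH b h k x ≠ x1 b h k := by
  have hL := (LL_ne_iff hb hhk).2 hx
  obtain ⟨h1, h2⟩ := hyp_L hh hk hL
  have h3 := (LL_ne_iff hb hhk).1 h2
  refine ⟨?_, h3⟩
  rw [LL_x1 hb hhk, LL_x1 hb hhk] at h1
  have h4 : 4 * b * (h ^ 2 - k ^ 2) ≠ 0 := by positivity
  rcases lt_or_gt_of_ne h4 with h5 | h5
  · rw [mpn h5, mpn h5, sub_neg, sub_neg] at h1
    constructor
    · intro h6
      by_contra h7
      have h8 : x < x1 b h k := lt_of_le_of_ne (not_lt.1 h7) hx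
      have := h1.2 h8
      linarith
    · intro h6
      by_contra h7
      have h8 : HH b h k x < x1 b h k := lt_of_le_of_ne (not_lt.1 h7) h3
      have := h1.1 h8
      linarith
  · rw [mul_pos_iff_of_pos_left h5, mul_pos_iff_of_pos_left h5, sub_pos, sub_pos] at h1
    exact h1

theorem GE (hh : h ≠ 0) (hk : k ≠ 0) (x : ℝ) : GG b h k (EE b h k x) = 1 - GG b h k x := by
  have hd : ∀ y, HasDerivAt (fun y => GG b h k (EE b h k y) + GG b h k y) 0 y := fun y =>
    deriv_comp_zero' hh hk (hasDerivAt_EE hh hk)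
  have hc : ∀ y, GG b h k (EE b h k y) + GG b h k y = GG b h k (EE b h k 0) + GG b h k 0 := fun y =>
    is_const_of_deriv_eq_zero (fun z => (hd z).differentiableAt) (fun z => (hd z).deriv) y 0
  have := const_univ (tendsto_GG_bot hh hk) (tendsto_GG_top hh hk) (GG_pos hh hk) (GG_lt_one hh hk)
    (fun y => EE_EE hh hk) hc
  linarith [hc x]

theorem GH_lt (hh : h ≠ 0) (hk : k ≠ 0) (hb : b ≠ 0) (hhk : h ^ 2 - k ^ 2 ≠ 0)
    (hx : x < x1 b h k) : GG b h k (HH b h k x) = GG b h k (x1 b h k) - GG b h k x := by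
  have hd : ∀ y ∈ Iio (x1 b h k), HasDerivAt (fun y => GG b h k (HH b h k y) + GG b h k y) 0 y :=
    fun y hy => deriv_comp_zero' hh hk (hasDerivAt_HH hh hk ((LL_ne_iff hb hhk).2 (ne_of_lt hy)))
  obtain ⟨C, hC⟩ := isOpen_Iio.exists_is_const_of_deriv_eq_zero isPreconnected_Iio
    (fun y hy => (hd y hy).differentiableAt.differentiableWithinAt) (fun y hy => (hd y hy).deriv)
  have hT1 : ∀ y < x1 b h k, HH b h k y < x1 b h k := fun y hy => by
    obtain ⟨h1, h2⟩ := side_iff hh hk hb hhk (ne_of_lt hy)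
    rcases lt_or_gt_of_ne h2 with h3 | h3
    · exact h3
    · exact absurd (h1.1 h3) (not_lt.2 hy.le)
  have := const_lt (tendsto_GG_bot hh hk) (GG_continuous hh hk) (GG_strictMono hh hk) (GG_pos hh hk)
    hT1 (fun y hy => HH_HH hh hk ((LL_ne_iff hb hhk).2 (ne_of_lt hy))) (fun y hy => hC y hy)
  linarith [hC x hx]

theorem GH_gt (hh : h ≠ 0) (hk : k ≠ 0) (hb : b ≠ 0) (hhk : h ^ 2 - k ^ 2 ≠ 0)
    (hx : x1 b h k < x) : GG b h k (HH b h k x) = 1 + GG b h k (x1 b h k) - GG b h k x := by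
  have hd : ∀ y ∈ Ioi (x1 b h k), HasDerivAt (fun y => GG b h k (HH b h k y) + GG b h k y) 0 y :=
    fun y hy => deriv_comp_zero' hh hk (hasDerivAt_HH hh hk ((LL_ne_iff hb hhk).2 (ne_of_gt hy)))
  obtain ⟨C, hC⟩ := isOpen_Ioi.exists_is_const_of_deriv_eq_zero isPreconnected_Ioi
    (fun y hy => (hd y hy).differentiableAt.differentiableWithinAt) (fun y hy => (hd y hy).deriv)
  have hT1 : ∀ y > x1 b h k, HH b h k y > x1 b h k := fun y hy =>
    (side_iff hh hk hb hhk (ne_of_gt hy)).1.2 hy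
  have := const_gt (tendsto_GG_top hh hk) (GG_continuous hh hk) (GG_strictMono hh hk)
    (GG_lt_one hh hk) hT1 (fun y hy => HH_HH hh hk ((LL_ne_iff hb hhk).2 (ne_of_gt hy)))
    (fun y hy => hC y hy)
  linarith [hC x hx]

/-- one full step is a rotation -/
theorem step_rot (hh : h ≠ 0) (hk : k ≠ 0) (hb : b ≠ 0) (hhk : h ^ 2 - k ^ 2 ≠ 0)
    (hx : EE b h k x ≠ x1 b h k) :
    GG b h k (HH b h k (EE b h k x)) = Int.fract (GG b h k x + GG b h k (x1 b h k)) := by
  have e := GE (b := b) hh hk x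
  have p := GG_pos (b := b) hh hk (HH b h k (EE b h k x))
  have l := GG_lt_one (b := b) hh hk (HH b h k (EE b h k x))
  rcases lt_or_gt_of_ne hx with h1 | h1
  · have h2 := GH_lt hh hk hb hhk h1
    rw [eq_comm, Int.fract_eq_iff]
    exact ⟨p.le, l, 1, by rw [h2, e]; push_cast; ring⟩
  · have h2 := GH_gt hh hk hb hhk h1
    rw [eq_comm, Int.fract_eq_iff]
    exact ⟨p.le, l, 0, by rw [h2, e]; push_cast; ring⟩

theorem step_end (hh : h ≠ 0) (hk : k ≠ 0) (hx : EE b h k x = x1 b h k) :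
    Int.fract (GG b h k x + GG b h k (x1 b h k)) = 0 := by
  have e := GE (b := b) hh hk x
  rw [hx] at e
  rw [e]
  have : GG b h k x + (1 - GG b h k x) = ((1 : ℤ) : ℝ) := by push_cast; ring
  rw [this, Int.fract_intCast]

end

/-- density of a rotation orbit whose first `N` return points are nonzero -/
theorem orbit_dense {α : ℝ} {N : ℕ} (hN : 0 < N)
    (hα : ∀ n : ℕ, 0 < n → n ≤ N → Int.fract ((n : ℝ) * α) ≠ 0) {s t : ℝ} (hs : 0 ≤ s) (ht : t ≤ 1)
    (hst : 1 / (N : ℝ) < t - s) : ∃ n : ℕ, Int.fract ((n : ℝ) * α) ∈ Ioo s t := by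
  obtain ⟨j, k, hk0, hkN, hjk⟩ := Real.exists_int_int_abs_mul_sub_le α hN
  have hN' : (0 : ℝ) < N := by exact_mod_cast hN
  obtain ⟨K, rfl⟩ := Int.eq_ofNat_of_zero_le hk0.le
  have hK0 : 0 < K := by exact_mod_cast hk0
  have hKN : K ≤ N := by exact_mod_cast hkN
  set β := (K : ℝ) * α - j with hβ
  have hjk' : |β| ≤ 1 / ((N : ℝ) + 1) := by simpa [hβ] using hjk
  have hsmall : |β| < t - s := by
    have : 1 / ((N : ℝ) + 1) < 1 / N := one_div_lt_one_div_of_lt hN' (by linarith)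
    linarith
  have hne : β ≠ 0 := by
    intro h0
    apply hα K hK0 hKN
    have : (K : ℝ) * α = (j : ℝ) := by linarith
    rw [this, Int.fract_intCast]
  rcases lt_or_gt_of_ne hne with h1 | h1
  · -- negative step
    set γ := -β with hγ
    have hγ0 : 0 < γ := by linarith
    have hγs : γ < t - s := by rw [abs_of_neg h1] at hsmall; exact hsmall
    have ht1 : 0 ≤ (1 - t) / γ := div_nonneg (by linarith) hγ0.le
    set m := ⌊(1 - t) / γ⌋₊ + 1 with hm
    have e1 : (1 - t) / γ < m := by rw [hm]; push_cast; exact Nat.lt_floor_add_one _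
    have e2 : (m : ℝ) ≤ (1 - t) / γ + 1 := by
      rw [hm]; push_cast; have := Nat.floor_le ht1; linarith
    have e3 : 1 - t < m * γ := by rwa [div_lt_iff₀ hγ0] at e1
    have e4 : m * γ ≤ 1 - t + γ := by
      have := mul_le_mul_of_nonneg_right e2 hγ0.le
      rw [add_mul, div_mul_cancel₀ _ hγ0.ne', one_mul] at this
      exact this
    refine ⟨m * K, ?_⟩
    have e5 : Int.fract (((m * K : ℕ) : ℝ) * α) = 1 - m * γ := by
      rw [Int.fract_eq_iff]
      refine ⟨by linarith, by linarith, m * j - 1, ?_⟩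
      push_cast
      have : (K : ℝ) * α = j - γ := by rw [hγ, hβ]; ring
      rw [mul_assoc, this]; ring
    rw [e5]
    constructor <;> linarith
  · have hγs : β < t - s := by rw [abs_of_pos h1] at hsmall; exact hsmall
    have ht1 : 0 ≤ s / β := div_nonneg hs h1.le
    set m := ⌊s / β⌋₊ + 1 with hm
    have e1 : s / β < m := by rw [hm]; push_cast; exact Nat.lt_floor_add_one _
    have e2 : (m : ℝ) ≤ s / β + 1 := by
      rw [hm]; push_cast; have := Nat.floor_le ht1; linarith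
    have e3 : s < m * β := by rwa [div_lt_iff₀ h1] at e1
    have e4 : m * β ≤ s + β := by
      have := mul_le_mul_of_nonneg_right e2 h1.le
      rw [add_mul, div_mul_cancel₀ _ h1.ne', one_mul] at this
      exact this
    refine ⟨m * K, ?_⟩
    have e5 : Int.fract (((m * K : ℕ) : ℝ) * α) = m * β := by
      rw [Int.fract_eq_iff]
      refine ⟨by positivity, by linarith, m * j, ?_⟩
      push_cast
      have : (K : ℝ) * α = j + β := by rw [hβ]; ring
      rw [mul_assoc, this]; ring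
    rw [e5]
    constructor <;> linarith

end Pool.Agent.Helper500.RA
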