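import Mathlib
import Pool.Agent.Helper500.RA3

/-! p-adic control of the orbit. -/

namespace Pool.Agent.Helper500.RA

open Real Filter Set Topology

section padic
variable (p : ℕ) [hp : Fact p.Prime]

/-- rationals without `p` in the denominator -/
def Zp : Subring ℚ where
  carrier := {q | padicNorm p q ≤ 1}
  mul_mem' := by
    intro a b ha hb
    simp only [Set.mem_ofPred_eq] at *
    rw [padicNorm.mul]
    exact mul_le_one₀ ha (padicNorm.nonneg _) hb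
  one_mem' := by simp
  add_mem' := by
    intro a b ha hb
    simp only [Set.mem_ofPred_eq] at *
    exact padicNorm.nonarchimedean.trans (max_le ha hb)
  zero_mem' := by simp
  neg_mem' := by
    intro a ha
    simp only [Set.mem_ofPred_eq] at *
    rwa [padicNorm.neg]

/-- a `p`-adic unit -/
def IsU (q : ℚ) : Prop := padicNorm p q = 1

variable {p}

theorem IsU.mem {q : ℚ} (h : IsU p q) : q ∈ Zp p := (le_of_eq h : padicNorm p q ≤ 1)

theorem IsU.ne_zero {q : ℚ} (h : IsU p q) : q ≠ 0 := by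
  rintro rfl
  unfold IsU at h
  simp at h

theorem IsU.inv {q : ℚ} (h : IsU p q) : IsU p q⁻¹ := by
  have h1 : padicNorm p (q * q⁻¹) = 1 := by rw [mul_inv_cancel₀ h.ne_zero]; simp
  rw [padicNorm.mul, h, one_mul] at h1
  exact h1

theorem IsU.mul {q r : ℚ} (h : IsU p q) (h' : IsU p r) : IsU p (q * r) := by
  unfold IsU at *
  rw [padicNorm.mul, h, h', one_mul]

theorem div_mem_Zp {a q : ℚ} (ha : a ∈ Zp p) (h : IsU p q) : a / q ∈ Zp p := by
  rw [div_eq_mul_inv]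
  exact mul_mem ha h.inv.mem

theorem IsU.add_p {q r : ℚ} (h : IsU p q) (hr : r ∈ Zp p) : IsU p (q + p * r) := by
  have hpp : (1 : ℚ) < p := by exact_mod_cast hp.out.one_lt
  have h1 : padicNorm p (p * r) < 1 := by
    rw [padicNorm.mul, padicNorm.padicNorm_p_of_prime]
    have h2 : padicNorm p r ≤ 1 := hr
    have h3 : (p : ℚ)⁻¹ < 1 := inv_lt_one_of_one_lt₀ hpp
    have h4 : 0 < (p : ℚ)⁻¹ := by positivity
    nlinarith [padicNorm.nonneg (p := p) r]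
  unfold IsU at *
  rw [padicNorm.add_eq_max_of_ne (by rw [h]; exact h1.ne'), h]
  exact max_eq_left h1.le

theorem isU_int {n : ℤ} (h : ¬ (p : ℤ) ∣ n) : IsU p (n : ℚ) := by
  unfold IsU
  rw [padicNorm.int_eq_one_iff]
  exact h

theorem not_isU_p_mul {r : ℚ} (hr : r ∈ Zp p) : ¬ IsU p (p * r) := by
  intro h
  have hpp : (1 : ℚ) < p := by exact_mod_cast hp.out.one_lt
  unfold IsU at h
  rw [padicNorm.mul, padicNorm.padicNorm_p_of_prime] at h
  have h2 : padicNorm p r ≤ 1 := hr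
  have h3 : (p : ℚ)⁻¹ < 1 := inv_lt_one_of_one_lt₀ hpp
  have h4 : 0 < (p : ℚ)⁻¹ := by positivity
  nlinarith [padicNorm.nonneg (p := p) r]

theorem nat_mem (n : ℕ) : (n : ℚ) ∈ Zp p := natCast_mem _ n

theorem sig_mem {σ : ℚ} (hσ : σ = 1 ∨ σ = -1) : σ ∈ Zp p := by
  rcases hσ with h | h
  · rw [h]; exact one_mem _
  · rw [h]; exact neg_mem (one_mem _)

theorem sig_sq {σ : ℚ} (hσ : σ = 1 ∨ σ = -1) : σ ^ 2 = 1 := by
  rcases hσ with h | h <;> rw [h] <;> norm_num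

theorem isU_four (hp2 : p ≠ 2) : IsU p (4 : ℚ) := by
  have h : ¬ (p : ℤ) ∣ 4 := by
    intro h
    have h1 : p ∣ 4 := by exact_mod_cast h
    have h2 : p ∣ 2 ^ 2 := by simpa using h1
    have h3 := hp.out.dvd_of_dvd_pow h2
    exact hp2 ((Nat.prime_dvd_prime_iff_eq hp.out Nat.prime_two).1 h3)
  have := isU_int (p := p) h
  exact_mod_cast this

theorem isU_two (hp2 : p ≠ 2) : IsU p (2 : ℚ) := by
  have h : ¬ (p : ℤ) ∣ 2 := by
    intro h
    have h1 : p ∣ 2 := by exact_mod_cast h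
    exact hp2 ((Nat.prime_dvd_prime_iff_eq hp.out Nat.prime_two).1 h1)
  have := isU_int (p := p) h
  exact_mod_cast this

/-- the ellipse step near infinity -/
theorem padE (hp2 : p ≠ 2) {b y y0 U0 V0 σ U V : ℚ} (hσ : σ = 1 ∨ σ = -1)
    (hb : b ∈ Zp p) (hy0 : y0 ∈ Zp p) (hU0 : U0 ∈ Zp p) (hV0 : V0 ∈ Zp p)
    (hy : y = p * y0) (hyne : y ≠ 0) (hU : U = σ + p * U0) (hV : V = σ + p * V0)
    (hf : (U + V) ^ 2 - b ^ 2 * y ^ 2 ≠ 0) :
    ∃ X ∈ Zp p, ∃ U1 ∈ Zp p, ∃ V1 ∈ Zp p, ∃ y' s : ℚ,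
      s * ((U / y + V / y) ^ 2 - b ^ 2) = 2 * (b * (U / y) - (1 / y) * (U / y + V / y)) ∧
      y' ≠ 0 ∧ 1 / y + (U / y + V / y) * s = 1 / y' ∧ y' = - y + p ^ 2 * X ∧
      (U / y + b * s) * y' = -σ + p * U1 ∧ (V / y - b * s) * y' = -σ + p * V1 := by
  have hσm := sig_mem (p := p) hσ
  have hpm : (p : ℚ) ∈ Zp p := natCast_mem _ _
  have hym : y ∈ Zp p := by rw [hy]; exact mul_mem hpm hy0
  have hUm : U ∈ Zp p := by rw [hU]; exact add_mem hσm (mul_mem hpm hU0)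
  have hVm : V ∈ Zp p := by rw [hV]; exact add_mem hσm (mul_mem hpm hV0)
  have h2m : (2 : ℚ) ∈ Zp p := ofNat_mem _ _
  have h4m : (4 : ℚ) ∈ Zp p := ofNat_mem _ _
  obtain ⟨N, hN⟩ : ∃ N, N = (U + V) ^ 2 + b ^ 2 * y ^ 2 - 2 * b * (U + V) * U * y := ⟨_, rfl⟩
  obtain ⟨D, hD⟩ : ∃ D, D = (U + V) ^ 2 - b ^ 2 * y ^ 2 := ⟨_, rfl⟩
  rw [← hD] at hf
  have hNR : N = 4 + p * (4 * σ * (U0 + V0) + p * (U0 + V0) ^ 2 + b ^ 2 * y0 * y
      - 2 * b * (U + V) * U * y0) := by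
    have := sig_sq hσ
    rw [hN]
    have e1 : (U + V) ^ 2 = 4 + p * (4 * σ * (U0 + V0) + p * (U0 + V0) ^ 2) := by
      rw [hU, hV]; linear_combination 4 * this
    rw [e1]
    linear_combination (b ^ 2 * y - 2 * b * (U + V) * U) * hy
  have hNU : IsU p N := by
    rw [hNR]
    apply (isU_four hp2).add_p
    apply_rules [add_mem, sub_mem, mul_mem, pow_mem]
  have hN0 := hNU.ne_zero
  have hf2 : (U / y + V / y) ^ 2 - b ^ 2 = D / y ^ 2 := by
    rw [hD]; field_simp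
  refine ⟨y0 ^ 2 * (2 * b ^ 2 * y - 2 * b * (U + V) * U) / N, ?_,
    -U0 + y0 * (2 * b * (U + V) * (1 - U ^ 2)) / N, ?_,
    -V0 + y0 * (2 * b ^ 2 * y * (U + V) - 2 * b * (U + V) * (1 + U * V)) / N, ?_,
    -y * D / N,
    2 * (b * U * y - (U + V)) / D, ?_, ?_, ?_, ?_, ?_, ?_⟩
  · apply div_mem_Zp _ hNU
    apply_rules [add_mem, sub_mem, mul_mem, pow_mem]
  · apply add_mem (neg_mem hU0)
    apply div_mem_Zp _ hNU
    apply_rules [add_mem, sub_mem, mul_mem, pow_mem, one_mem]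
  · apply add_mem (neg_mem hV0)
    apply div_mem_Zp _ hNU
    apply_rules [add_mem, sub_mem, mul_mem, pow_mem, one_mem]
  · rw [hf2]
    field_simp
  · exact div_ne_zero (mul_ne_zero (neg_ne_zero.2 hyne) hf) hN0
  · field_simp
    rw [hN, hD]
    ring
  · have : (p : ℚ) ^ 2 * (y0 ^ 2 * (2 * b ^ 2 * y - 2 * b * (U + V) * U) / N)
      = y ^ 2 * (2 * b ^ 2 * y - 2 * b * (U + V) * U) / N := by rw [hy]; ring
    rw [this]
    field_simp
    rw [hN, hD]; ring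
  · have : -σ + p * (-U0 + y0 * (2 * b * (U + V) * (1 - U ^ 2)) / N)
      = -U + y * (2 * b * (U + V) * (1 - U ^ 2)) / N := by
      linear_combination hU - ((2 * b * (U + V) * (1 - U ^ 2)) / N) * hy
    rw [this]
    field_simp
    rw [hN, hD]; ring
  · have : -σ + p * (-V0 + y0 * (2 * b ^ 2 * y * (U + V) - 2 * b * (U + V) * (1 + U * V)) / N)
      = -V + y * (2 * b ^ 2 * y * (U + V) - 2 * b * (U + V) * (1 + U * V)) / N := by
      linear_combination hV - ((2 * b ^ 2 * y * (U + V) - 2 * b * (U + V) * (1 + U * V)) / N) * hy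
    rw [this]
    field_simp
    rw [hN, hD]; ring

theorem isU_sig {σ : ℚ} (hσ : σ = 1 ∨ σ = -1) : IsU p σ := by
  unfold IsU
  rcases hσ with h | h <;> rw [h] <;> simp

/-- the hyperbola step near infinity -/
theorem padH (hp2 : p ≠ 2) {b h k y y0 U0 V0 σ U V e0 : ℚ} (hσ : σ = 1 ∨ σ = -1)
    (hbU : IsU p b) (hhU : IsU p h) (hk : k ∈ Zp p) (he0 : e0 ∈ Zp p)
    (hy0 : y0 ∈ Zp p) (hU0 : U0 ∈ Zp p) (hV0 : V0 ∈ Zp p)
    (hy : y = p * y0) (hyne : y ≠ 0) (hU : U = σ + p * U0) (hV : V = σ + p * V0)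
    (he : h ^ 2 - k ^ 2 = p * e0) (hU2 : U ^ 2 = 1 + h ^ 2 * y ^ 2)
    (hV2 : V ^ 2 = (1 - b * y) ^ 2 + k ^ 2 * y ^ 2)
    (hg : (U / y - V / y) ^ 2 - b ^ 2 ≠ 0) :
    ∃ X ∈ Zp p, ∃ U1 ∈ Zp p, ∃ V1 ∈ Zp p, ∃ y' s : ℚ,
      s * ((U / y - V / y) ^ 2 - b ^ 2) = 2 * (b * (U / y) - (1 / y) * (U / y - V / y)) ∧
      y' ≠ 0 ∧ 1 / y + (U / y - V / y) * s = 1 / y' ∧
      y' = (h ^ 2 - k ^ 2) / (b * h ^ 2) - y + p ^ 2 * X ∧
      (U / y + b * s) * y' = σ + p * U1 ∧ (V / y + b * s) * y' = σ + p * V1 := by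
  have hb := hbU.mem
  have hh := hhU.mem
  have hb0 := hbU.ne_zero
  have hh0 := hhU.ne_zero
  have hσm := sig_mem (p := p) hσ
  have hpm : (p : ℚ) ∈ Zp p := natCast_mem _ _
  have hym : y ∈ Zp p := by rw [hy]; exact mul_mem hpm hy0
  have hUm : U ∈ Zp p := by rw [hU]; exact add_mem hσm (mul_mem hpm hU0)
  have hVm : V ∈ Zp p := by rw [hV]; exact add_mem hσm (mul_mem hpm hV0)
  have h2m : (2 : ℚ) ∈ Zp p := ofNat_mem _ _
  have h4m : (4 : ℚ) ∈ Zp p := ofNat_mem _ _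
  have h1m : (1 : ℚ) ∈ Zp p := one_mem _
  -- the unit T
  obtain ⟨T, hT⟩ : ∃ T, T = (1 - b * y) * U + V := ⟨_, rfl⟩
  have hTU : IsU p T := by
    have : T = 2 * σ + p * (U0 + V0 - b * y0 * U) := by
      rw [hT, hU, hV, hy]; ring
    rw [this]
    apply ((isU_two hp2).mul (isU_sig hσ)).add_p
    apply_rules [add_mem, sub_mem, mul_mem, pow_mem]
  have hT0 := hTU.ne_zero
  -- rho
  obtain ⟨r0, hr0⟩ : ∃ r0, r0 = (e0 - 2 * b * h ^ 2 * y0 + b ^ 2 * h ^ 2 * y0 * y) / T := ⟨_, rfl⟩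
  have hr0m : r0 ∈ Zp p := by
    rw [hr0]; apply div_mem_Zp _ hTU
    apply_rules [add_mem, sub_mem, mul_mem, pow_mem]
  obtain ⟨r, hr⟩ : ∃ r, r = p * r0 := ⟨_, rfl⟩
  have hrm : r ∈ Zp p := by rw [hr]; exact mul_mem hpm hr0m
  have hrT : r * T = (1 - b * y) ^ 2 * h ^ 2 - k ^ 2 := by
    have : r0 * T = e0 - 2 * b * h ^ 2 * y0 + b ^ 2 * h ^ 2 * y0 * y := by
      rw [hr0]; field_simp
    rw [hr]
    linear_combination p * this - he + (2 * b * h ^ 2 - b ^ 2 * h ^ 2 * y) * hy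
  have hVr : V = U * (1 - b * y) - y ^ 2 * r := by
    have h1 : (U * (1 - b * y) - V) * T = (y ^ 2 * r) * T := by
      rw [mul_assoc (y ^ 2) r T, hrT]
      rw [hT]
      linear_combination (1 - b * y) ^ 2 * hU2 - hV2
    have h2 := mul_right_cancel₀ hT0 h1
    linarith
  -- the unit M
  obtain ⟨M, hM⟩ : ∃ M, M = b ^ 2 * h ^ 2 - r ^ 2 := ⟨_, rfl⟩
  have hMU : IsU p M := by
    have : M = (b * b) * (h * h) + p * (-(p * r0 ^ 2)) := by
      rw [hM, hr]; ring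
    rw [this]
    apply ((hbU.mul hbU).mul (hhU.mul hhU)).add_p
    apply neg_mem
    apply_rules [add_mem, sub_mem, mul_mem, pow_mem]
  have hM0 := hMU.ne_zero
  obtain ⟨W, hW⟩ : ∃ W, W = y * r ^ 2 + 2 * b * U * r + b ^ 2 * h ^ 2 * y := ⟨_, rfl⟩
  have hgW : (U / y - V / y) ^ 2 - b ^ 2 = y * W := by
    have e1 : U / y - V / y = b * U + y * r := by
      rw [hVr]; field_simp; ring
    rw [e1, hW]
    linear_combination b ^ 2 * hU2
  have hW0 : W ≠ 0 := by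
    intro h0; rw [hgW, h0, mul_zero] at hg; exact hg rfl
  have e1 : U / y - V / y = b * U + y * r := by
    rw [hVr]; field_simp; ring
  have hkey : 2 * (b * (U / y) - (1 / y) * (U / y - V / y)) = -2 * r := by
    rw [e1]; field_simp; ring
  -- q
  have hUV : IsU p (U * V + 1) := by
    have : U * V + 1 = 2 + p * (σ * U0 + σ * V0 + p * U0 * V0) := by
      have := sig_sq hσ
      rw [hU, hV]; linear_combination this
    rw [this]
    apply (isU_two hp2).add_p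
    apply_rules [add_mem, sub_mem, mul_mem, pow_mem]
  obtain ⟨q, hq⟩ : ∃ q, q = (-2 * b + b ^ 2 * y + k ^ 2 * y + h ^ 2 * y * (1 - b * y) ^ 2
      + h ^ 2 * k ^ 2 * y ^ 3) / (U * V + 1) := ⟨_, rfl⟩
  have hqm : q ∈ Zp p := by
    rw [hq]; apply div_mem_Zp _ hUV
    have h2n : (-2 : ℚ) ∈ Zp p := neg_mem h2m
    exact add_mem (add_mem (add_mem (add_mem (mul_mem h2n hb) (mul_mem (pow_mem hb 2) hym))
      (mul_mem (pow_mem hk 2) hym)) (mul_mem (mul_mem (pow_mem hh 2) hym)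
      (pow_mem (sub_mem h1m (mul_mem hb hym)) 2))) (mul_mem (mul_mem (pow_mem hh 2)
      (pow_mem hk 2)) (pow_mem hym 3))
  have hqy : q * y = U * V - 1 := by
    have h0 := hUV.ne_zero
    have h1 : (q * y) * (U * V + 1) = (U * V - 1) * (U * V + 1) := by
      have h2 : q * (U * V + 1) = -2 * b + b ^ 2 * y + k ^ 2 * y + h ^ 2 * y * (1 - b * y) ^ 2
        + h ^ 2 * k ^ 2 * y ^ 3 := by rw [hq]; field_simp
      have h3 : (U * V - 1) * (U * V + 1) = U ^ 2 * V ^ 2 - 1 := by ring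
      rw [h3, hU2, hV2]
      linear_combination y * h2
    exact mul_right_cancel₀ h0 h1
  obtain ⟨t0, ht0⟩ : ∃ t0, t0 = (b * y0 * U + U0 - V0) / T := ⟨_, rfl⟩
  have ht0m : t0 ∈ Zp p := by
    rw [ht0]; apply div_mem_Zp _ hTU
    apply_rules [add_mem, sub_mem, mul_mem, pow_mem]
  have ht0T : 2 * U = (1 + p * t0) * T := by
    have h2 : t0 * T = b * y0 * U + U0 - V0 := by rw [ht0]; field_simp
    have h3 : (1 + p * t0) * T = T + p * (t0 * T) := by ring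
    rw [h3, h2, hT]
    linear_combination hU - hV + (b * U) * hy
  obtain ⟨ee, hee⟩ : ∃ ee, ee = (h ^ 2 - k ^ 2) / (b * h ^ 2) := ⟨_, rfl⟩
  have heem : ee ∈ Zp p := by
    rw [hee, he]
    have : IsU p (b * h ^ 2) := by rw [pow_two]; exact hbU.mul (hhU.mul hhU)
    exact div_mem_Zp (mul_mem hpm he0) this
  have heeb : ee * (b * h ^ 2) = h ^ 2 - k ^ 2 := by rw [hee]; field_simp
  rw [← hee]
  refine ⟨(b ^ 3 * h ^ 2 * y0 ^ 2 + t0 * b * (e0 - 2 * b * h ^ 2 * y0 + b ^ 2 * h ^ 2 * y0 * y)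
      + ee * r0 ^ 2) / M, ?_, U0 + r0 * (2 * U * r + 2 * b * h ^ 2 * y) / M, ?_,
      V0 + r0 * (2 * V * r + 2 * b * q) / M, ?_, W / M, -2 * r / (y * W), ?_, ?_, ?_, ?_, ?_, ?_⟩
  · apply div_mem_Zp _ hMU
    apply_rules [add_mem, sub_mem, mul_mem, pow_mem]
  · apply add_mem hU0
    apply div_mem_Zp _ hMU
    apply_rules [add_mem, sub_mem, mul_mem, pow_mem]
  · apply add_mem hV0
    apply div_mem_Zp _ hMU
    apply_rules [add_mem, sub_mem, mul_mem, pow_mem]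
  · rw [hgW, hkey]; field_simp
  · exact div_ne_zero hW0 hM0
  · rw [e1]; field_simp; rw [hW, hM]; ring
  · have k1 : 2 * b * U * r = b * ((1 + p * t0) * ((1 - b * y) ^ 2 * h ^ 2 - k ^ 2)) := by
      rw [← hrT]; linear_combination b * r * ht0T
    have k2 : (p : ℚ) ^ 2 * (b ^ 3 * h ^ 2 * y0 ^ 2 + t0 * b * (e0 - 2 * b * h ^ 2 * y0
        + b ^ 2 * h ^ 2 * y0 * y) + ee * r0 ^ 2)
        = b ^ 3 * h ^ 2 * y ^ 2 + p * t0 * b * ((1 - b * y) ^ 2 * h ^ 2 - k ^ 2) + ee * r ^ 2 := by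
      have : (1 - b * y) ^ 2 * h ^ 2 - k ^ 2 = p * (e0 - 2 * b * h ^ 2 * y0
        + b ^ 2 * h ^ 2 * y0 * y) := by
        linear_combination he + (-2 * b * h ^ 2 + b ^ 2 * h ^ 2 * y) * hy
      rw [this, hr]
      rw [show y ^ 2 = (p * y0) ^ 2 by rw [hy]]
      ring
    have k3 : W = (ee - y) * M + p ^ 2 * (b ^ 3 * h ^ 2 * y0 ^ 2 + t0 * b * (e0 - 2 * b * h ^ 2 * y0
        + b ^ 2 * h ^ 2 * y0 * y) + ee * r0 ^ 2) := by
      rw [k2, hM, hW]
      linear_combination k1 - b * heeb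
    rw [k3]; field_simp
  · have k4 : U * W - 2 * b * r = y * (U * r ^ 2 + 2 * b * h ^ 2 * r * y + U * b ^ 2 * h ^ 2) := by
      rw [hW]; linear_combination 2 * b * r * hU2
    have k5 : σ + p * (U0 + r0 * (2 * U * r + 2 * b * h ^ 2 * y) / M)
        = U + r * (2 * U * r + 2 * b * h ^ 2 * y) / M := by
      rw [hU, hr]; ring
    rw [k5]
    have k6 : (U / y + b * (-2 * r / (y * W))) * (W / M) = (U * W - 2 * b * r) / (y * M) := by
      field_simp; ring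
    rw [k6, k4]
    field_simp
    rw [hM]; ring
  · have k4 : V * W - 2 * b * r = y * (V * r ^ 2 + 2 * b * r * q + V * b ^ 2 * h ^ 2) := by
      rw [hW]; linear_combination (-2 * b * r) * hqy
    have k5 : σ + p * (V0 + r0 * (2 * V * r + 2 * b * q) / M)
        = V + r * (2 * V * r + 2 * b * q) / M := by
      rw [hV, hr]; ring
    rw [k5]
    have k6 : (V / y + b * (-2 * r / (y * W))) * (W / M) = (V * W - 2 * b * r) / (y * M) := by
      field_simp; ring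
    rw [k6, k4]
    field_simp
    rw [hM]; ring

end padic

end Pool.Agent.Helper500.RA
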