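import Mathlib
import Pool.Agent.Helper500.RA4

/-! The orbit of rational points and its non-periodicity. -/

namespace Pool.Agent.Helper500.RA

open Real Filter Set Topology

/-- rational point of the line together with its two rational distances -/
structure RS (b h k x u v : ℚ) : Prop where
  hu : u ^ 2 = x ^ 2 + h ^ 2
  hv : v ^ 2 = (x - b) ^ 2 + k ^ 2
  up : 0 < u
  vp : 0 < v

variable {b h k x u v : ℚ}

theorem RS.uu (H : RS b h k x u v) : uu (h : ℝ) (x : ℝ) = (u : ℝ) := by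
  unfold RA.uu
  have h1 : (x : ℝ) ^ 2 + (h : ℝ) ^ 2 = (u : ℝ) ^ 2 := by exact_mod_cast H.hu.symm
  rw [h1]
  exact Real.sqrt_sq (by exact_mod_cast H.up.le)

theorem RS.vv (H : RS b h k x u v) : vv (b : ℝ) (k : ℝ) (x : ℝ) = (v : ℝ) := by
  unfold RA.vv
  have h1 : ((x : ℝ) - b) ^ 2 + (k : ℝ) ^ 2 = (v : ℝ) ^ 2 := by exact_mod_cast H.hv.symm
  rw [h1]
  exact Real.sqrt_sq (by exact_mod_cast H.vp.le)

theorem RS.mk' {u v : ℚ} (hh : h ≠ 0) (hk : k ≠ 0) (h1 : RA.uu (h : ℝ) (x : ℝ) = (u : ℝ))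
    (h2 : RA.vv (b : ℝ) (k : ℝ) (x : ℝ) = (v : ℝ)) : RS b h k x u v := by
  have hh' : (h : ℝ) ≠ 0 := by exact_mod_cast hh
  have hk' : (k : ℝ) ≠ 0 := by exact_mod_cast hk
  have a1 := uu_sq (h := (h : ℝ)) (x := (x : ℝ))
  have a2 := vv_sq (b := (b : ℝ)) (k := (k : ℝ)) (x := (x : ℝ))
  have a3 := uu_pos (x := (x : ℝ)) hh'
  have a4 := vv_pos (x := (x : ℝ)) (b := (b : ℝ)) hk'
  rw [h1] at a1 a3
  rw [h2] at a2 a4
  exact ⟨by exact_mod_cast a1, by exact_mod_cast a2, by exact_mod_cast a3, by exact_mod_cast a4⟩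

/-- the ellipse step on rational points -/
theorem RS.ell {s : ℚ} (hh : h ≠ 0) (hk : k ≠ 0) (H : RS b h k x u v)
    (hs : s * ((u + v) ^ 2 - b ^ 2) = 2 * (b * u - x * (u + v))) :
    RS b h k (x + (u + v) * s) (u + b * s) (v - b * s) ∧
      EE (b : ℝ) h k x = ((x + (u + v) * s : ℚ) : ℝ) := by
  have hh' : (h : ℝ) ≠ 0 := by exact_mod_cast hh
  have hk' : (k : ℝ) ≠ 0 := by exact_mod_cast hk
  have e1 := H.uu
  have e2 := H.vv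
  have hf := f_gt (b := (b : ℝ)) (x := (x : ℝ)) hh' hk'
  rw [e1, e2] at hf
  have es : sE (b : ℝ) h k x = (s : ℝ) := by
    unfold sE
    rw [e1, e2, div_eq_iff (by linarith)]
    exact_mod_cast hs.symm
  have eE : EE (b : ℝ) h k x = ((x + (u + v) * s : ℚ) : ℝ) := by
    unfold EE
    rw [es, e1, e2]; push_cast; ring
  obtain ⟨h1, h2⟩ := ell_step (b := (b : ℝ)) (x := (x : ℝ)) hh' hk'
  refine ⟨RS.mk' hh hk ?_ ?_, eE⟩
  · rw [← eE, h1, e1, es]; push_cast; ring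
  · rw [← eE, h2, e2, es]; push_cast; ring

/-- the hyperbola step on rational points -/
theorem RS.hyp {s : ℚ} (hh : h ≠ 0) (hk : k ≠ 0) (H : RS b h k x u v)
    (hL : LL (b : ℝ) h k x ≠ 0)
    (hs : s * ((u - v) ^ 2 - b ^ 2) = 2 * (b * u - x * (u - v))) :
    (∃ τ : ℚ, (τ = 1 ∨ τ = -1) ∧ RS b h k (x + (u - v) * s) (τ * (u + b * s)) (τ * (v + b * s))) ∧
      HH (b : ℝ) h k x = ((x + (u - v) * s : ℚ) : ℝ) := by
  have hh' : (h : ℝ) ≠ 0 := by exact_mod_cast hh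
  have hk' : (k : ℝ) ≠ 0 := by exact_mod_cast hk
  have e1 := H.uu
  have e2 := H.vv
  have hD := (g_ne_iff (b := (b : ℝ)) (x := (x : ℝ)) hh' hk').2 hL
  rw [e1, e2] at hD
  have es : sH (b : ℝ) h k x = (s : ℝ) := by
    unfold sH
    rw [e1, e2, div_eq_iff hD]
    exact_mod_cast hs.symm
  have eE : HH (b : ℝ) h k x = ((x + (u - v) * s : ℚ) : ℝ) := by
    unfold HH
    rw [es, e1, e2]; push_cast; ring
  obtain ⟨h1, h2, h3⟩ := hyp_step (b := (b : ℝ)) (x := (x : ℝ)) hh' hk' hL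
  refine ⟨?_, eE⟩
  rw [e1, es] at h1 h3
  rw [e2] at h3
  rw [e2, es] at h2
  rcases pos_and_pos_or_neg_and_neg_of_mul_pos h3 with ⟨a1, a2⟩ | ⟨a1, a2⟩
  · refine ⟨1, Or.inl rfl, RS.mk' hh hk ?_ ?_⟩
    · rw [← eE, h1, abs_of_pos a1]; push_cast; ring
    · rw [← eE, h2, abs_of_pos a2]; push_cast; ring
  · refine ⟨-1, Or.inr rfl, RS.mk' hh hk ?_ ?_⟩
    · rw [← eE, h1, abs_of_neg a1]; push_cast; ring
    · rw [← eE, h2, abs_of_neg a2]; push_cast; ring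

/-- rational points are preserved by the ellipse map -/
theorem RS.ell' (hh : h ≠ 0) (hk : k ≠ 0) (H : RS b h k x u v) :
    ∃ x' u' v' : ℚ, RS b h k x' u' v' ∧ EE (b : ℝ) h k x = (x' : ℝ) := by
  have hh' : (h : ℝ) ≠ 0 := by exact_mod_cast hh
  have hk' : (k : ℝ) ≠ 0 := by exact_mod_cast hk
  have hf := f_gt (b := (b : ℝ)) (x := (x : ℝ)) hh' hk'
  rw [H.uu, H.vv] at hf
  have hf' : (u + v) ^ 2 - b ^ 2 ≠ 0 := by
    have : b ^ 2 < (u + v) ^ 2 := by exact_mod_cast hf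
    linarith
  obtain ⟨h1, h2⟩ := H.ell (s := 2 * (b * u - x * (u + v)) / ((u + v) ^ 2 - b ^ 2)) hh hk
    (by field_simp)
  exact ⟨_, _, _, h1, h2⟩

/-- rational points are preserved by the hyperbola map -/
theorem RS.hyp' (hh : h ≠ 0) (hk : k ≠ 0) (H : RS b h k x u v) (hL : LL (b : ℝ) h k x ≠ 0) :
    ∃ x' u' v' : ℚ, RS b h k x' u' v' ∧ HH (b : ℝ) h k x = (x' : ℝ) := by
  have hh' : (h : ℝ) ≠ 0 := by exact_mod_cast hh
  have hk' : (k : ℝ) ≠ 0 := by exact_mod_cast hk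
  have hD := (g_ne_iff (b := (b : ℝ)) (x := (x : ℝ)) hh' hk').2 hL
  rw [H.uu, H.vv] at hD
  have hD' : (u - v) ^ 2 - b ^ 2 ≠ 0 := by exact_mod_cast hD
  obtain ⟨⟨τ, _, h1⟩, h2⟩ := H.hyp (s := 2 * (b * u - x * (u - v)) / ((u - v) ^ 2 - b ^ 2)) hh hk hL
    (by field_simp)
  exact ⟨_, _, _, h1, h2⟩

section
variable {p : ℕ} [hp : Fact p.Prime]

/-- a rational point `p`-adically close to infinity -/
structure NI (p : ℕ) [Fact p.Prime] (b h k x u v y σ : ℚ) : Prop where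
  rs : RS b h k x u v
  yne : y ≠ 0
  xy : x = 1 / y
  sg : σ = 1 ∨ σ = -1
  hy : ∃ y0 ∈ Zp p, y = p * y0
  hU : ∃ U0 ∈ Zp p, u * y = σ + p * U0
  hV : ∃ V0 ∈ Zp p, v * y = σ + p * V0

theorem NI.ell {y σ : ℚ} (hp2 : p ≠ 2) (hh : h ≠ 0) (hk : k ≠ 0) (hb : b ∈ Zp p)
    (H : NI p b h k x u v y σ) :
    ∃ x' u' v' y' : ℚ, ∃ X ∈ Zp p, NI p b h k x' u' v' y' (-σ) ∧ y' = -y + p ^ 2 * X ∧
      EE (b : ℝ) h k x = (x' : ℝ) := by
  have hh' : (h : ℝ) ≠ 0 := by exact_mod_cast hh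
  have hk' : (k : ℝ) ≠ 0 := by exact_mod_cast hk
  obtain ⟨rs, yne, xy, sg, ⟨y0, hy0, hy⟩, ⟨U0, hU0, hU⟩, ⟨V0, hV0, hV⟩⟩ := H
  have hf := f_gt (b := (b : ℝ)) (x := (x : ℝ)) hh' hk'
  rw [rs.uu, rs.vv] at hf
  have hf' : b ^ 2 < (u + v) ^ 2 := by exact_mod_cast hf
  have hf2 : (u * y + v * y) ^ 2 - b ^ 2 * y ^ 2 ≠ 0 := by
    have : (u * y + v * y) ^ 2 - b ^ 2 * y ^ 2 = ((u + v) ^ 2 - b ^ 2) * y ^ 2 := by ring
    rw [this]
    exact mul_ne_zero (by linarith) (pow_ne_zero _ yne)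
  obtain ⟨X, hX, U1, hU1, V1, hV1, y', s, hs, hy'ne, hx', hy', hU', hV'⟩ :=
    padE hp2 sg hb hy0 hU0 hV0 hy yne hU hV hf2
  have eu : u * y / y = u := by field_simp
  have ev : v * y / y = v := by field_simp
  rw [eu, ev, ← xy] at hs
  rw [eu, ev, ← xy] at hx'
  rw [eu] at hU'
  rw [ev] at hV'
  obtain ⟨h1, h2⟩ := rs.ell hh hk hs
  refine ⟨_, _, _, y', X, hX, ⟨h1, hy'ne, hx', ?_, ?_, ⟨U1, hU1, hU'⟩, ⟨V1, hV1, hV'⟩⟩, hy', h2⟩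
  · rcases sg with h3 | h3 <;> rw [h3] <;> norm_num
  · have hpm : (p : ℚ) ∈ Zp p := natCast_mem _ _
    refine ⟨-y0 + p * X, add_mem (neg_mem hy0) (mul_mem hpm hX), ?_⟩
    rw [hy', hy]; ring

theorem NI.hyp {y σ e0 : ℚ} (hp2 : p ≠ 2) (hb : IsU p b) (hh : IsU p h) (hk : k ∈ Zp p)
    (hk0 : k ≠ 0) (he0 : e0 ∈ Zp p) (he : h ^ 2 - k ^ 2 = p * e0)
    (H : NI p b h k x u v y σ) (hL : LL (b : ℝ) h k x ≠ 0) :
    ∃ x' u' v' y' σ' : ℚ, ∃ X ∈ Zp p, NI p b h k x' u' v' y' σ' ∧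
      y' = (h ^ 2 - k ^ 2) / (b * h ^ 2) - y + p ^ 2 * X ∧ HH (b : ℝ) h k x = (x' : ℝ) := by
  have hh' : (h : ℝ) ≠ 0 := by exact_mod_cast hh.ne_zero
  have hk' : (k : ℝ) ≠ 0 := by exact_mod_cast hk0
  obtain ⟨rs, yne, xy, sg, ⟨y0, hy0, hy⟩, ⟨U0, hU0, hU⟩, ⟨V0, hV0, hV⟩⟩ := H
  have hD := (g_ne_iff (b := (b : ℝ)) (x := (x : ℝ)) hh' hk').2 hL
  rw [rs.uu, rs.vv] at hD
  have hD' : (u - v) ^ 2 - b ^ 2 ≠ 0 := by exact_mod_cast hD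
  have eu : u * y / y = u := by field_simp
  have ev : v * y / y = v := by field_simp
  have xy' : x * y = 1 := by rw [xy]; field_simp
  have hU2 : (u * y) ^ 2 = 1 + h ^ 2 * y ^ 2 := by
    rw [mul_pow, rs.hu]; linear_combination (x * y + 1) * xy'
  have hV2 : (v * y) ^ 2 = (1 - b * y) ^ 2 + k ^ 2 * y ^ 2 := by
    rw [mul_pow, rs.hv]; linear_combination (x * y + 1 - 2 * b * y) * xy'
  obtain ⟨X, hX, U1, hU1, V1, hV1, y', s, hs, hy'ne, hx', hy', hU', hV'⟩ :=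
    padH hp2 sg hb hh hk he0 hy0 hU0 hV0 hy yne hU hV he hU2 hV2 (by rw [eu, ev]; exact hD')
  rw [eu, ev, ← xy] at hs
  rw [eu, ev, ← xy] at hx'
  rw [eu] at hU'
  rw [ev] at hV'
  obtain ⟨⟨τ, hτ, h1⟩, h2⟩ := rs.hyp hh.ne_zero hk0 hL hs
  have hpm : (p : ℚ) ∈ Zp p := natCast_mem _ _
  have hτm := sig_mem (p := p) hτ
  refine ⟨_, _, _, y', τ * σ, X, hX, ⟨h1, hy'ne, hx', ?_, ?_, ⟨τ * U1, mul_mem hτm hU1, ?_⟩,
    ⟨τ * V1, mul_mem hτm hV1, ?_⟩⟩, hy', h2⟩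
  · rcases sg with h3 | h3 <;> rcases hτ with h4 | h4 <;> rw [h3, h4] <;> norm_num
  · have hbh : IsU p (b * h ^ 2) := by rw [pow_two]; exact hb.mul (hh.mul hh)
    refine ⟨e0 / (b * h ^ 2) - y0 + p * X, add_mem (sub_mem (div_mem_Zp he0 hbh) hy0)
      (mul_mem hpm hX), ?_⟩
    rw [hy', hy, he]; ring
  · linear_combination τ * hU'
  · linear_combination τ * hV'

end

end Pool.Agent.Helper500.RA
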