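import Mathlib
import Pool.Agent.Helper500.RA5

/-! Density of rational points for suitable parameters. -/

namespace Pool.Agent.Helper500.RA

open Real Filter Set Topology

variable {b h k : ℚ}

/-- rational version of the first orbit point -/
def x1q (b h k : ℚ) : ℚ := (4 * b ^ 2 * h ^ 2 - (h ^ 2 - k ^ 2) ^ 2) / (4 * b * (h ^ 2 - k ^ 2))

theorem x1q_cast : ((x1q b h k : ℚ) : ℝ) = x1 (b : ℝ) h k := by
  unfold x1q x1; push_cast; ring

theorem RS_x1 (hb : b ≠ 0) (hh : h ≠ 0) (_hk : k ≠ 0) (he : h ^ 2 - k ^ 2 ≠ 0) :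
    ∃ τ : ℚ, (τ = 1 ∨ τ = -1) ∧ RS b h k (x1q b h k)
      (τ * ((4 * b ^ 2 * h ^ 2 + (h ^ 2 - k ^ 2) ^ 2) / (4 * b * (h ^ 2 - k ^ 2))))
      (τ * ((4 * b ^ 2 * k ^ 2 + (h ^ 2 - k ^ 2) ^ 2) / (4 * b * (h ^ 2 - k ^ 2)))) := by
  obtain ⟨e, hee⟩ : ∃ e, e = h ^ 2 - k ^ 2 := ⟨_, rfl⟩
  have hk2 : k ^ 2 = h ^ 2 - e := by rw [hee]; ring
  unfold x1q
  rw [← hee] at he ⊢
  have hbe : 4 * b * e ≠ 0 := by positivity
  have q1 : ((4 * b ^ 2 * h ^ 2 + e ^ 2) / (4 * b * e)) ^ 2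
      = ((4 * b ^ 2 * h ^ 2 - e ^ 2) / (4 * b * e)) ^ 2 + h ^ 2 := by
    field_simp; ring
  have q2 : ((4 * b ^ 2 * k ^ 2 + e ^ 2) / (4 * b * e)) ^ 2
      = ((4 * b ^ 2 * h ^ 2 - e ^ 2) / (4 * b * e) - b) ^ 2 + k ^ 2 := by
    rw [hk2]; field_simp; ring
  have p1 : 0 < 4 * b ^ 2 * h ^ 2 + e ^ 2 := by positivity
  have p2 : 0 < 4 * b ^ 2 * k ^ 2 + e ^ 2 := by positivity
  rcases lt_or_gt_of_ne hbe with h1 | h1
  · refine ⟨-1, Or.inr rfl, ⟨?_, ?_, ?_, ?_⟩⟩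
    · rw [mul_pow, q1]; norm_num
    · rw [mul_pow, q2]; norm_num
    · have := div_neg_of_pos_of_neg p1 h1
      linarith
    · have := div_neg_of_pos_of_neg p2 h1
      linarith
  · refine ⟨1, Or.inl rfl, ⟨?_, ?_, ?_, ?_⟩⟩
    · rw [mul_pow, q1]; norm_num
    · rw [mul_pow, q2]; norm_num
    · have := div_pos p1 h1
      linarith
    · have := div_pos p2 h1
      linarith

section
variable {p : ℕ} [hp : Fact p.Prime]

theorem NI_x1 {e0 : ℚ} (hp2 : p ≠ 2) (hb : IsU p b) (hh : IsU p h) (hk : k ∈ Zp p)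
    (hk0 : k ≠ 0) (he0 : IsU p e0) (he : h ^ 2 - k ^ 2 = p * e0) :
    ∃ u v y σ : ℚ, ∃ X ∈ Zp p, NI p b h k (x1q b h k) u v y σ ∧
      y = (h ^ 2 - k ^ 2) / (b * h ^ 2) + p ^ 2 * X := by
  have hpm : (p : ℚ) ∈ Zp p := natCast_mem _ _
  have hp0 : (p : ℚ) ≠ 0 := by exact_mod_cast hp.out.ne_zero
  have hen : h ^ 2 - k ^ 2 ≠ 0 := by rw [he]; exact mul_ne_zero hp0 he0.ne_zero
  obtain ⟨τ, hτ, H⟩ := RS_x1 hb.ne_zero hh.ne_zero hk0 hen
  obtain ⟨e, hee⟩ : ∃ e, e = h ^ 2 - k ^ 2 := ⟨_, rfl⟩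
  have hk2 : k ^ 2 = h ^ 2 - e := by rw [hee]; ring
  rw [← hee] at he hen
  have hem : e ∈ Zp p := by rw [he]; exact mul_mem hpm he0.mem
  obtain ⟨D, hD⟩ : ∃ D, D = 4 * b ^ 2 * h ^ 2 - e ^ 2 := ⟨_, rfl⟩
  have hDU : IsU p D := by
    have : D = 4 * ((b * b) * (h * h)) + p * (-(e0 * e)) := by
      rw [hD]; linear_combination (-e) * he
    rw [this]
    exact ((isU_four hp2).mul ((hb.mul hb).mul (hh.mul hh))).add_p (neg_mem (mul_mem he0.mem hem))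
  have hD0 := hDU.ne_zero
  have hb0 := hb.ne_zero
  have hh0 := hh.ne_zero
  have hτm := sig_mem (p := p) hτ
  have h4m : (4 : ℚ) ∈ Zp p := ofNat_mem _ _
  have h2m : (2 : ℚ) ∈ Zp p := ofNat_mem _ _
  have hbh : IsU p (b * h ^ 2 * D) := by
    rw [pow_two]; exact (hb.mul (hh.mul hh)).mul hDU
  refine ⟨_, _, 4 * b * e / D, τ, p * e0 ^ 3 / (b * h ^ 2 * D), ?_,
    ⟨H, ?_, ?_, hτ, ⟨4 * b * e0 / D, ?_, ?_⟩, ⟨τ * (2 * e0 * e / D), ?_, ?_⟩,
      ⟨τ * ((-4 * b ^ 2 * e0 + 2 * e0 * e) / D), ?_, ?_⟩⟩, ?_⟩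
  · exact div_mem_Zp (mul_mem hpm (pow_mem he0.mem 3)) hbh
  · positivity
  · unfold x1q; rw [← hee, ← hD]; field_simp
  · exact div_mem_Zp (mul_mem (mul_mem h4m hb.mem) he0.mem) hDU
  · rw [he]; ring
  · exact mul_mem hτm (div_mem_Zp (mul_mem (mul_mem h2m he0.mem) hem) hDU)
  · rw [← hee]
    have e1 : p * (τ * (2 * e0 * e / D)) = τ * (2 * e ^ 2 / D) := by
      rw [show e ^ 2 = e * (p * e0) by rw [← he]; ring]; ring
    rw [e1]
    field_simp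
    rw [hD]; ring
  · have h4n : (-4 : ℚ) ∈ Zp p := neg_mem h4m
    exact mul_mem hτm (div_mem_Zp (add_mem (mul_mem (mul_mem h4n (pow_mem hb.mem 2)) he0.mem)
      (mul_mem (mul_mem h2m he0.mem) hem)) hDU)
  · rw [← hee]
    have e1 : p * (τ * ((-4 * b ^ 2 * e0 + 2 * e0 * e) / D)) = τ * ((-4 * b ^ 2 * e + 2 * e ^ 2) / D) := by
      rw [show e ^ 2 = e * (p * e0) by rw [← he]; ring]
      rw [show (-4 * b ^ 2 * e) = -4 * b ^ 2 * (p * e0) by rw [← he]]; ring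
    rw [e1, hk2]
    field_simp
    rw [hD]; ring
  · rw [← hee]
    have e1 : (p : ℚ) ^ 2 * (p * e0 ^ 3 / (b * h ^ 2 * D)) = e ^ 3 / (b * h ^ 2 * D) := by
      rw [he]; ring
    rw [e1]
    field_simp
    rw [hD]; ring

theorem orbit_ne {e0 : ℚ} (hp2 : p ≠ 2) (hb : IsU p b) (hh : IsU p h) (hk : k ∈ Zp p)
    (hk0 : k ≠ 0) (he0 : IsU p e0) (he : h ^ 2 - k ^ 2 = p * e0) (n : ℕ) (hn : n + 1 < p) :
    ∃ x u v y σ : ℚ, ∃ X ∈ Zp p, NI p b h k x u v y σ ∧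
      y = (n + 1) * ((h ^ 2 - k ^ 2) / (b * h ^ 2)) + p ^ 2 * X ∧
      GG (b : ℝ) h k x = Int.fract (((n : ℝ) + 1) * GG (b : ℝ) h k (x1 b h k)) := by
  have hpm : (p : ℚ) ∈ Zp p := natCast_mem _ _
  have hp0 : (p : ℚ) ≠ 0 := by exact_mod_cast hp.out.ne_zero
  have hen : h ^ 2 - k ^ 2 ≠ 0 := by rw [he]; exact mul_ne_zero hp0 he0.ne_zero
  have hh' : (h : ℝ) ≠ 0 := by exact_mod_cast hh.ne_zero
  have hk' : (k : ℝ) ≠ 0 := by exact_mod_cast hk0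
  have hb' : (b : ℝ) ≠ 0 := by exact_mod_cast hb.ne_zero
  have he' : (h : ℝ) ^ 2 - (k : ℝ) ^ 2 ≠ 0 := by exact_mod_cast hen
  induction n with
  | zero =>
    obtain ⟨u, v, y, σ, X, hX, H, hy⟩ := NI_x1 hp2 hb hh hk hk0 he0 he
    refine ⟨_, u, v, y, σ, X, hX, H, ?_, ?_⟩
    · rw [hy]; push_cast; ring
    · rw [x1q_cast]
      have a1 := GG_pos (b := (b : ℝ)) hh' hk' (x1 b h k)
      have a2 := GG_lt_one (b := (b : ℝ)) hh' hk' (x1 b h k)
      rw [eq_comm, Int.fract_eq_iff]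
      exact ⟨a1.le, a2, 0, by push_cast; ring⟩
  | succ n ih =>
    obtain ⟨x, u, v, y, σ, X, hX, H, hy, hG⟩ := ih (by omega)
    obtain ⟨x', u', v', y', X', hX', H', hy', hE⟩ := H.ell hp2 hh.ne_zero hk0 hb.mem
    -- x' is not the first point
    have hx' : (x' : ℝ) ≠ x1 (b : ℝ) h k := by
      intro h1
      rw [← x1q_cast] at h1
      have h2 : x' = x1q b h k := by exact_mod_cast h1
      obtain ⟨u1, v1, y1, σ1, X1, hX1, H1, hy1⟩ := NI_x1 hp2 hb hh hk hk0 he0 he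
      have h3 : y' = y1 := by
        have e1 := H'.xy
        have e2 := H1.xy
        rw [h2, e2] at e1
        have h5 := H'.yne
        have h6 := H1.yne
        field_simp at e1
        exact e1
      have hbh : IsU p (b * h ^ 2) := by rw [pow_two]; exact hb.mul (hh.mul hh)
      have hbh0 := hbh.ne_zero
      have h4 : ((n : ℚ) + 2) * e0 / (b * h ^ 2) = p * (X' - X - X1) := by
        have h7 : -y + p ^ 2 * X' = (h ^ 2 - k ^ 2) / (b * h ^ 2) + p ^ 2 * X1 := by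
          rw [← hy', h3, hy1]
        rw [hy, he] at h7
        have h8 : (p : ℚ) * (((n : ℚ) + 2) * e0 / (b * h ^ 2)) = p * (p * (X' - X - X1)) := by
          have e3 : (p : ℚ) * e0 / (b * h ^ 2) = p * (e0 / (b * h ^ 2)) := by ring
          rw [e3] at h7
          have e4 : ((n : ℚ) + 2) * e0 / (b * h ^ 2) = ((n : ℚ) + 2) * (e0 / (b * h ^ 2)) := by ring
          rw [e4]
          linear_combination (-1 : ℚ) * h7
        exact mul_left_cancel₀ hp0 h8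
      have h5 : IsU p (((n : ℚ) + 2) * e0 / (b * h ^ 2)) := by
        rw [div_eq_mul_inv]
        apply IsU.mul _ hbh.inv
        apply IsU.mul _ he0
        have h9 : ¬ (p : ℤ) ∣ ((n : ℤ) + 2) := by
          intro h10
          have h11 := Int.le_of_dvd (by positivity) h10
          omega
        have := isU_int (p := p) h9
        exact_mod_cast this
      rw [h4] at h5
      exact not_isU_p_mul (sub_mem (sub_mem hX' hX) hX1) h5
    have hL : LL (b : ℝ) h k x' ≠ 0 := (LL_ne_iff hb' he').2 hx'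
    obtain ⟨x'', u'', v'', y'', σ'', X'', hX'', H'', hy'', hH⟩ :=
      H'.hyp hp2 hb hh hk hk0 he0.mem he hL
    refine ⟨x'', u'', v'', y'', σ'', X - X' + X'', add_mem (sub_mem hX hX') hX'', H'', ?_, ?_⟩
    · rw [hy'', hy', hy]; push_cast; ring
    · rw [← hH, ← hE]
      rw [step_rot hh' hk' hb' he' (by rw [hE]; exact hx'), hG]
      rw [Int.fract_eq_fract]
      refine ⟨-⌊((n : ℝ) + 1) * GG (b : ℝ) h k (x1 b h k)⌋, ?_⟩
      have := Int.self_sub_floor (((n : ℝ) + 1) * GG (b : ℝ) h k (x1 b h k))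
      rw [← this]; push_cast; ring

end

theorem orbit_all (hb : b ≠ 0) (hh : h ≠ 0) (hk : k ≠ 0) (he : h ^ 2 - k ^ 2 ≠ 0) (n : ℕ) :
    Int.fract ((n : ℝ) * GG (b : ℝ) h k (x1 b h k)) = 0 ∨ ∃ x u v : ℚ, RS b h k x u v ∧
      GG (b : ℝ) h k x = Int.fract ((n : ℝ) * GG (b : ℝ) h k (x1 b h k)) := by
  have hh' : (h : ℝ) ≠ 0 := by exact_mod_cast hh
  have hk' : (k : ℝ) ≠ 0 := by exact_mod_cast hk
  have hb' : (b : ℝ) ≠ 0 := by exact_mod_cast hb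
  have he' : (h : ℝ) ^ 2 - (k : ℝ) ^ 2 ≠ 0 := by exact_mod_cast he
  induction n with
  | zero => left; simp
  | succ n ih =>
    rcases ih with h0 | ⟨x, u, v, H, hG⟩
    · right
      obtain ⟨τ, _, H⟩ := RS_x1 hb hh hk he
      refine ⟨_, _, _, H, ?_⟩
      rw [x1q_cast]
      have a1 := GG_pos (b := (b : ℝ)) hh' hk' (x1 b h k)
      have a2 := GG_lt_one (b := (b : ℝ)) hh' hk' (x1 b h k)
      rw [eq_comm, Int.fract_eq_iff]
      refine ⟨a1.le, a2, ⌊(n : ℝ) * GG (b : ℝ) h k (x1 b h k)⌋, ?_⟩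
      have := Int.self_sub_floor ((n : ℝ) * GG (b : ℝ) h k (x1 b h k))
      rw [h0] at this
      push_cast
      linarith
    · obtain ⟨x', u', v', H', hE⟩ := H.ell' hh hk
      have hfr : Int.fract ((((n + 1 : ℕ)) : ℝ) * GG (b : ℝ) h k (x1 b h k))
          = Int.fract (GG (b : ℝ) h k x + GG (b : ℝ) h k (x1 b h k)) := by
        rw [hG, Int.fract_eq_fract]
        refine ⟨⌊(n : ℝ) * GG (b : ℝ) h k (x1 b h k)⌋, ?_⟩
        have := Int.self_sub_floor ((n : ℝ) * GG (b : ℝ) h k (x1 b h k))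
        rw [← this]; push_cast; ring
      rw [hfr]
      by_cases hx' : EE (b : ℝ) h k x = x1 (b : ℝ) h k
      · left
        exact step_end hh' hk' hx'
      · right
        have hL : LL (b : ℝ) h k x' ≠ 0 := (LL_ne_iff hb' he').2 (by rwa [← hE])
        obtain ⟨x'', u'', v'', H'', hH⟩ := H'.hyp' hh hk hL
        refine ⟨x'', u'', v'', H'', ?_⟩
        rw [← hH, ← hE]
        exact step_rot hh' hk' hb' he' hx'

end Pool.Agent.Helper500.RA
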