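import Mathlib
import Pool.Agent.Helper500.RA6

/-! Choice of parameters and the core approximation theorem. -/

namespace Pool.Agent.Helper500.RA

open Real Filter Set Topology

section
variable {p : ℕ} [hp : Fact p.Prime] {b h k : ℚ}

theorem dense_core {e0 : ℚ} (hp2 : p ≠ 2) (hb : IsU p b) (hh : IsU p h) (hk : k ∈ Zp p)
    (hk0 : k ≠ 0) (he0 : IsU p e0) (he : h ^ 2 - k ^ 2 = p * e0) {s t : ℝ} (hs : 0 ≤ s)
    (ht : t ≤ 1) (hst : 1 / ((p - 1 : ℕ) : ℝ) < t - s) :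
    ∃ x u v : ℚ, RS b h k x u v ∧ GG (b : ℝ) h k x ∈ Ioo s t := by
  have hp0 : (p : ℚ) ≠ 0 := by exact_mod_cast hp.out.ne_zero
  have hen : h ^ 2 - k ^ 2 ≠ 0 := by rw [he]; exact mul_ne_zero hp0 he0.ne_zero
  have hh' : (h : ℝ) ≠ 0 := by exact_mod_cast hh.ne_zero
  have hk' : (k : ℝ) ≠ 0 := by exact_mod_cast hk0
  have hp1 := hp.out.one_lt
  obtain ⟨n, hn⟩ := orbit_dense (N := p - 1) (α := GG (b : ℝ) h k (x1 b h k)) (by omega)
    (by
      intro n hn0 hn1
      obtain ⟨m, rfl⟩ : ∃ m, n = m + 1 := ⟨n - 1, by omega⟩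
      obtain ⟨x, u, v, y, σ, X, hX, H, hy, hG⟩ := orbit_ne hp2 hb hh hk hk0 he0 he m (by omega)
      push_cast
      rw [← hG]
      exact (GG_pos hh' hk' _).ne') hs ht hst
  rcases orbit_all hb.ne_zero hh.ne_zero hk0 hen n with h0 | ⟨x, u, v, H, hG⟩
  · rw [h0] at hn
    exact absurd hn.1 (not_lt.2 hs)
  · exact ⟨x, u, v, H, by rw [hG]; exact hn⟩

theorem dense_unit (z : ℝ) {δ : ℝ} (hδ : 0 < δ) : ∃ q : ℚ, IsU p q ∧ |(q : ℝ) - z| < δ := by
  have hp1 := hp.out.one_lt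
  obtain ⟨L, hL⟩ := exists_nat_gt (1 / δ)
  set M : ℕ := p * L + 1 with hM
  have hML : (1 / δ) < M := by
    have : (L : ℝ) ≤ M := by
      have : L ≤ M := by
        have : 1 * L ≤ p * L := Nat.mul_le_mul_right _ hp1.le
        omega
      exact_mod_cast this
    linarith
  have hMp : (0 : ℝ) < M := lt_trans (by positivity) hML
  have hMU : IsU p (M : ℚ) := by
    have h1 : ¬ (p : ℤ) ∣ (M : ℤ) := by
      intro h
      have h2 : p ∣ M := by exact_mod_cast h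
      rw [hM] at h2
      have h3 : p ∣ 1 := (Nat.dvd_add_right (dvd_mul_right p L)).1 h2
      exact hp.out.one_lt.ne' (Nat.dvd_one.1 h3)
    have := isU_int (p := p) h1
    exact_mod_cast this
  have hinv : 1 / (M : ℝ) < δ := by
    rw [div_lt_iff₀ hMp]
    rw [div_lt_iff₀ hδ] at hML
    linarith
  obtain ⟨a, ha, hab⟩ : ∃ a : ℤ, ¬ (p : ℤ) ∣ a ∧ |(a : ℝ) - M * z| ≤ 1 := by
    by_cases h1 : (p : ℤ) ∣ ⌊(M : ℝ) * z⌋
    · refine ⟨⌊(M : ℝ) * z⌋ + 1, ?_, ?_⟩
      · intro h2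
        have h3 : (p : ℤ) ∣ 1 := (Int.dvd_add_right h1).1 h2
        have h4 : p ∣ 1 := by exact_mod_cast h3
        exact hp.out.one_lt.ne' (Nat.dvd_one.1 h4)
      · push_cast
        have h2 := Int.floor_le ((M : ℝ) * z)
        have h3 := Int.lt_floor_add_one ((M : ℝ) * z)
        rw [abs_le]; constructor <;> linarith
    · refine ⟨⌊(M : ℝ) * z⌋, h1, ?_⟩
      have h2 := Int.floor_le ((M : ℝ) * z)
      have h3 := Int.lt_floor_add_one ((M : ℝ) * z)
      rw [abs_le]; constructor <;> linarith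
  refine ⟨(a : ℚ) / M, ?_, ?_⟩
  · rw [div_eq_mul_inv]
    exact (isU_int ha).mul hMU.inv
  · push_cast
    have e : (a : ℝ) / M - z = (a - M * z) / M := by field_simp
    rw [e, abs_div, abs_of_pos hMp]
    exact lt_of_le_of_lt (div_le_div_of_nonneg_right hab hMp.le) hinv

theorem params (hp2 : p ≠ 2) (b0 h0 k0 : ℝ) (hhk : h0 ≠ k0) {δ : ℝ} (hδ : 0 < δ) :
    ∃ b h k d e0 : ℚ, IsU p b ∧ IsU p h ∧ IsU p k ∧ IsU p e0 ∧ h ^ 2 - k ^ 2 = p * e0 ∧
      b ^ 2 + (h - k) ^ 2 = d ^ 2 ∧ |(b : ℝ) - b0| < δ ∧ |(h : ℝ) - h0| < δ ∧ |(k : ℝ) - k0| < δ := by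
  have hpR : (0 : ℝ) < p := by exact_mod_cast hp.out.pos
  have hp0 : (p : ℚ) ≠ 0 := by exact_mod_cast hp.out.ne_zero
  set e := h0 - k0 with he
  have he0 : e ≠ 0 := sub_ne_zero.2 hhk
  set d0 := √(b0 ^ 2 + e ^ 2) with hd0
  have hd2 : d0 ^ 2 = b0 ^ 2 + e ^ 2 := Real.sq_sqrt (by positivity)
  have hd0p : 0 < d0 := Real.sqrt_pos.2 (by positivity)
  have hdb : 0 < d0 + b0 := by
    have : |b0| < d0 := by
      apply abs_lt_of_sq_lt_sq _ hd0p.le
      rw [hd2]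
      have : 0 < e ^ 2 := by positivity
      linarith
    have := (abs_lt.1 this).1
    linarith
  set r0 := e / (d0 + b0) with hr0
  have h1r : 1 + r0 ^ 2 = 2 * d0 / (d0 + b0) := by
    rw [hr0]; field_simp; linear_combination (-1 : ℝ) * hd2
  have hb0 : d0 * (1 - r0 ^ 2) / (1 + r0 ^ 2) = b0 := by
    rw [h1r, hr0]; field_simp; linear_combination (1 : ℝ) * hd2
  have hee : 2 * d0 * r0 / (1 + r0 ^ 2) = e := by
    rw [h1r, hr0]; field_simp
  have c1 : Continuous (fun z : ℝ × ℝ => z.2 * (1 - z.1 ^ 2) / (1 + z.1 ^ 2)) := by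
    refine Continuous.div (by fun_prop) (by fun_prop) (fun z => by positivity)
  have c2 : Continuous (fun z : ℝ × ℝ => 2 * z.2 * z.1 / (1 + z.1 ^ 2)) := by
    refine Continuous.div (by fun_prop) (by fun_prop) (fun z => by positivity)
  obtain ⟨δ1, hδ1, H1⟩ := Metric.continuous_iff.1 c1 (r0, d0) δ hδ
  obtain ⟨δ2, hδ2, H2⟩ := Metric.continuous_iff.1 c2 (r0, d0) (δ / 2) (by positivity)
  set δ' := min δ1 δ2 with hδ'
  have hδ'p : 0 < δ' := lt_min hδ1 hδ2
  obtain ⟨r', hr'U, hr'⟩ := dense_unit (p := p) (r0 / p) (δ := δ' / p) (by positivity)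
  obtain ⟨d, hdU, hd⟩ := dense_unit (p := p) d0 hδ'p
  obtain ⟨h, hhU, hh⟩ := dense_unit (p := p) h0 (δ := δ / 2) (by positivity)
  have hr : |((p * r' : ℚ) : ℝ) - r0| < δ' := by
    push_cast
    have e1 : (p : ℝ) * r' - r0 = p * (r' - r0 / p) := by field_simp
    rw [e1, abs_mul, abs_of_pos hpR]
    rw [lt_div_iff₀ hpR] at hr'
    linarith
  set r : ℚ := p * r' with hrr
  have hdist : dist ((r : ℝ), (d : ℝ)) (r0, d0) < δ' := by
    rw [Prod.dist_eq, max_lt_iff]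
    exact ⟨by rw [Real.dist_eq]; exact hr, by rw [Real.dist_eq]; exact hd⟩
  have H1' := H1 _ (lt_of_lt_of_le hdist (min_le_left _ _))
  have H2' := H2 _ (lt_of_lt_of_le hdist (min_le_right _ _))
  simp only [Real.dist_eq] at H1' H2'
  rw [hb0] at H1'
  rw [hee] at H2'
  have hpm : (p : ℚ) ∈ Zp p := natCast_mem _ _
  have h1p : IsU p (1 + r ^ 2) := by
    have : 1 + r ^ 2 = 1 + p * (p * r' ^ 2) := by rw [hrr]; ring
    rw [this]
    exact IsU.add_p (by unfold IsU; simp) (mul_mem hpm (pow_mem hr'U.mem 2))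
  have h1m : IsU p (1 - r ^ 2) := by
    have : 1 - r ^ 2 = 1 + p * (-(p * r' ^ 2)) := by rw [hrr]; ring
    rw [this]
    exact IsU.add_p (by unfold IsU; simp) (neg_mem (mul_mem hpm (pow_mem hr'U.mem 2)))
  set f : ℚ := 2 * d * r' / (1 + r ^ 2) with hf
  have hfU : IsU p f := by
    rw [hf, div_eq_mul_inv]
    exact (((isU_two hp2).mul hdU).mul hr'U).mul h1p.inv
  have h1pne := h1p.ne_zero
  have hkk : 2 * d * r / (1 + r ^ 2) = p * f := by rw [hf, hrr]; ring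
  have hkU : IsU p (h - 2 * d * r / (1 + r ^ 2)) := by
    rw [hkk, show h - p * f = h + p * (-f) by ring]
    exact hhU.add_p (neg_mem hfU.mem)
  refine ⟨d * (1 - r ^ 2) / (1 + r ^ 2), h, h - 2 * d * r / (1 + r ^ 2), d,
    f * (2 * h + p * (-f)), ?_, hhU, hkU, ?_, ?_, ?_, ?_, ?_, ?_⟩
  · rw [div_eq_mul_inv]; exact (hdU.mul h1m).mul h1p.inv
  · exact hfU.mul (((isU_two hp2).mul hhU).add_p (neg_mem hfU.mem))
  · rw [hkk]; ring
  · field_simp; ring
  · push_cast; exact H1'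
  · linarith
  · push_cast
    have e1 : (h : ℝ) - 2 * d * r / (1 + r ^ 2) - k0 = (h - h0) - (2 * d * r / (1 + r ^ 2) - e) := by
      rw [he]; ring
    rw [e1]
    have := abs_sub (( h : ℝ) - h0) (2 * d * r / (1 + r ^ 2) - e)
    linarith

end

theorem GG_gap {b h k m K R ε : ℝ} (hm : 0 < m) (hh : m ≤ |h|) (hk : m ≤ |k|) (hb : |b| ≤ K)
    (hhK : |h| ≤ K) (hkK : |k| ≤ K) (hε : 0 < ε) (hε1 : ε ≤ 1) {t : ℝ} (ht : |t| ≤ R) :
    2 * ε / ((R + 1 + K) * (R + 1 + 2 * K)) / ((3 + (2 * K ^ 2 + 2) / m ^ 2) * π)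
      ≤ GG b h k (t + ε) - GG b h k (t - ε) := by
  have hh0 : h ≠ 0 := by intro h0; rw [h0, abs_zero] at hh; linarith
  have hk0 : k ≠ 0 := by intro h0; rw [h0, abs_zero] at hk; linarith
  have hR : 0 ≤ R := (abs_nonneg t).trans ht
  have hK : 0 < K := lt_of_lt_of_le hm (hh.trans hhK)
  have hpi := Real.pi_pos
  set C := 3 + (2 * K ^ 2 + 2) / m ^ 2 with hC
  have hCp : 0 < C := by positivity
  have hΩ : Ap b h k - Am b h k ≤ C * π := by
    have h1 : Ap b h k ≤ C * (π / 2) :=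
      le_of_tendsto (tendsto_MM_top hh0 hk0) (Eventually.of_forall fun x =>
        (abs_le.1 (MM_bound hm hh hk hb x)).2)
    have h2 : -(C * (π / 2)) ≤ Am b h k :=
      ge_of_tendsto (tendsto_MM_bot hh0 hk0) (Eventually.of_forall fun x =>
        (abs_le.1 (MM_bound hm hh hk hb x)).1)
    linarith
  have hΩp := Om_pos (b := b) hh0 hk0
  obtain ⟨c, hc, hc2⟩ := exists_hasDerivAt_eq_slope (MM b h k) (ww b h k)
    (show t - ε < t + ε by linarith) (MM_continuous hh0 hk0).continuousOn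
    (fun x _ => hasDerivAt_MM hh0 hk0 x)
  have hcR : |c| ≤ R + 1 := by
    have := abs_le.1 ht
    rw [abs_le]; constructor <;> linarith [hc.1, hc.2]
  have hw : 1 / ((R + 1 + K) * (R + 1 + 2 * K)) ≤ ww b h k c := by
    unfold ww
    have hu : uu h c ≤ R + 1 + K := by
      unfold uu
      rw [Real.sqrt_le_left (by positivity)]
      have h1 : c ^ 2 + h ^ 2 ≤ (|c| + |h|) ^ 2 := by
        have := mul_nonneg (abs_nonneg c) (abs_nonneg h)
        nlinarith [sq_abs c, sq_abs h]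
      have h2 : (|c| + |h|) ^ 2 ≤ (R + 1 + K) ^ 2 := by
        apply pow_le_pow_left₀ (by positivity); linarith
      linarith
    have hv : vv b k c ≤ R + 1 + 2 * K := by
      unfold vv
      rw [Real.sqrt_le_left (by positivity)]
      have h1 : (c - b) ^ 2 + k ^ 2 ≤ (|c - b| + |k|) ^ 2 := by
        have := mul_nonneg (abs_nonneg (c - b)) (abs_nonneg k)
        nlinarith [sq_abs (c - b), sq_abs k]
      have h3 : |c - b| ≤ |c| + |b| := abs_sub c b
      have h2 : (|c - b| + |k|) ^ 2 ≤ (R + 1 + 2 * K) ^ 2 := by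
        apply pow_le_pow_left₀ (by positivity); linarith
      linarith
    apply one_div_le_one_div_of_le (mul_pos (uu_pos hh0) (vv_pos hk0))
    exact mul_le_mul hu hv (vv_pos hk0).le (by positivity)
  have hslope : 2 * ε / ((R + 1 + K) * (R + 1 + 2 * K)) ≤ MM b h k (t + ε) - MM b h k (t - ε) := by
    have e1 : t + ε - (t - ε) = 2 * ε := by ring
    rw [e1, eq_div_iff (by positivity)] at hc2
    rw [← hc2, ← mul_one_div, mul_comm]
    exact mul_le_mul_of_nonneg_right hw (by positivity)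
  have e2 : GG b h k (t + ε) - GG b h k (t - ε)
      = (MM b h k (t + ε) - MM b h k (t - ε)) / (Ap b h k - Am b h k) := by
    unfold GG; rw [← sub_div]; congr 1; ring
  rw [e2]
  exact div_le_div₀ (by
    have : 0 ≤ 2 * ε / ((R + 1 + K) * (R + 1 + 2 * K)) := by positivity
    linarith) hslope hΩp hΩ

/-- the core approximation theorem -/
theorem core (b0 h0 k0 R : ℝ) {ε : ℝ} (hε : 0 < ε) :
    ∃ b h k d : ℚ, h ≠ 0 ∧ k ≠ 0 ∧ |(b : ℝ) - b0| < ε ∧ |(h : ℝ) - h0| < ε ∧ |(k : ℝ) - k0| < ε ∧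
      b ^ 2 + (h - k) ^ 2 = d ^ 2 ∧
      ∀ t : ℝ, |t| ≤ R → ∃ x u v : ℚ, RS b h k x u v ∧ |(x : ℝ) - t| < ε := by
  -- generic position
  obtain ⟨h1, hh1, hh1'⟩ := ((Set.countable_singleton (0 : ℝ)).dense_compl ℝ).exists_dist_lt h0
    (show 0 < ε / 2 by positivity)
  obtain ⟨k1, hk1, hk1'⟩ := (((Set.countable_singleton (0 : ℝ)).union
    (Set.countable_singleton h1)).dense_compl ℝ).exists_dist_lt k0 (show 0 < ε / 2 by positivity)
  have hh1n : h1 ≠ 0 := by simpa using hh1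
  have hk1n : k1 ≠ 0 ∧ k1 ≠ h1 := by
    simp only [Set.mem_compl_iff, Set.mem_union, Set.mem_singleton_iff, not_or] at hk1
    exact hk1
  rw [Real.dist_eq] at hh1' hk1'
  set m := min |h1| |k1| / 2 with hm
  have hmin : 0 < min |h1| |k1| := lt_min (abs_pos.2 hh1n) (abs_pos.2 hk1n.1)
  have hmp : 0 < m := by rw [hm]; positivity
  have hmh : 2 * m ≤ |h1| := by rw [hm]; linarith [min_le_left |h1| |k1|]
  have hmk : 2 * m ≤ |k1| := by rw [hm]; linarith [min_le_right |h1| |k1|]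
  set K := |b0| + |h1| + |k1| + 1 with hK
  set ε' := min ε 1 with hε'
  have hε'p : 0 < ε' := lt_min hε one_pos
  set R' := |R| with hR'
  set κ := 2 * ε' / ((R' + 1 + K) * (R' + 1 + 2 * K)) / ((3 + (2 * K ^ 2 + 2) / m ^ 2) * π) with hκ
  have hKp : 0 < K := by
    have := abs_nonneg b0
    have := abs_nonneg h1
    have := abs_nonneg k1
    linarith
  have hR'p : 0 ≤ R' := abs_nonneg R
  have hpi := Real.pi_pos
  have hκp : 0 < κ := by rw [hκ]; positivity
  set δ := min (ε / 2) (min m 1) with hδ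
  have hδp : 0 < δ := lt_min (by positivity) (lt_min hmp one_pos)
  have hδ1 : δ ≤ ε / 2 := min_le_left _ _
  have hδ2 : δ ≤ m := (min_le_right _ _).trans (min_le_left _ _)
  have hδ3 : δ ≤ 1 := (min_le_right _ _).trans (min_le_right _ _)
  obtain ⟨L, hL⟩ := exists_nat_gt (1 / κ)
  obtain ⟨p, hpL, hpp⟩ := Nat.exists_infinite_primes (L + 3)
  have : Fact p.Prime := ⟨hpp⟩
  have hp2 : p ≠ 2 := by omega
  obtain ⟨b, h, k, d, e0, hbU, hhU, hkU, he0, he, hd, hb, hh, hk⟩ :=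
    params hp2 b0 h1 k1 hk1n.2.symm hδp
  have tri : ∀ a c : ℝ, |a - c| < δ → |c| - δ ≤ |a| ∧ |a| ≤ |c| + δ := by
    intro a c hac
    have t1 : |c| ≤ |a| + |a - c| := by
      have := abs_sub a (a - c)
      simpa using this
    have t2 : |a| ≤ |c| + |a - c| := by
      have := abs_add_le c (a - c)
      simpa using this
    constructor <;> linarith
  obtain ⟨th1, th2⟩ := tri _ _ hh
  obtain ⟨tk1, tk2⟩ := tri _ _ hk
  obtain ⟨tb1, tb2⟩ := tri _ _ hb
  have a1 := abs_nonneg b0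
  have a2 := abs_nonneg h1
  have a3 := abs_nonneg k1
  refine ⟨b, h, k, d, hhU.ne_zero, hkU.ne_zero, by linarith, ?_, ?_, hd, ?_⟩
  · have e1 : (h : ℝ) - h0 = (h - h1) + -(h0 - h1) := by ring
    have := abs_add_le ((h : ℝ) - h1) (-(h0 - h1))
    rw [abs_neg] at this
    rw [e1]; linarith
  · have e1 : (k : ℝ) - k0 = (k - k1) + -(k0 - k1) := by ring
    have := abs_add_le ((k : ℝ) - k1) (-(k0 - k1))
    rw [abs_neg] at this
    rw [e1]; linarith
  · intro t ht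
    have hgap := GG_gap (b := (b : ℝ)) (h := (h : ℝ)) (k := (k : ℝ)) (m := m) (K := K) (R := R')
      (ε := ε') hmp (by linarith) (by linarith) (by linarith) (by linarith) (by linarith) hε'p
      (min_le_right _ _) (t := t) (ht.trans (le_abs_self R))
    rw [← hκ] at hgap
    have hh' : (h : ℝ) ≠ 0 := by exact_mod_cast hhU.ne_zero
    have hk' : (k : ℝ) ≠ 0 := by exact_mod_cast hkU.ne_zero
    have hp1 : 1 / κ < ((p - 1 : ℕ) : ℝ) := by
      have : (L : ℝ) ≤ ((p - 1 : ℕ) : ℝ) := by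
        have : L ≤ p - 1 := by omega
        exact_mod_cast this
      linarith
    have hpos : (0 : ℝ) < ((p - 1 : ℕ) : ℝ) := lt_trans (by positivity) hp1
    have hlt : 1 / ((p - 1 : ℕ) : ℝ) < κ := by
      rw [div_lt_iff₀ hpos]
      rw [div_lt_iff₀ hκp] at hp1
      linarith
    obtain ⟨x, u, v, H, hx⟩ := dense_core hp2 hbU hhU hkU.mem hkU.ne_zero he0 he
      (s := GG (b : ℝ) h k (t - ε')) (t := GG (b : ℝ) h k (t + ε'))
      (GG_pos hh' hk' _).le (GG_lt_one hh' hk' _).le (by linarith)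
    refine ⟨x, u, v, H, ?_⟩
    have s1 := (GG_strictMono (b := (b : ℝ)) hh' hk').lt_iff_lt.1 hx.1
    have s2 := (GG_strictMono (b := (b : ℝ)) hh' hk').lt_iff_lt.1 hx.2
    have s3 : ε' ≤ ε := min_le_left _ _
    rw [abs_lt]; constructor <;> linarith

end Pool.Agent.Helper500.RA
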