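import Mathlib
import Pool.Agent.Helper500.RA7

/-! Line plus two points, circle plus one point. -/

namespace Pool.Agent.Helper500.RA

open Real Filter Set Topology

/-- the Euclidean plane -/
abbrev E2 := EuclideanSpace ℝ (Fin 2)

/-- rotated and translated coordinates -/
noncomputable def Ph (o : E2) (c s x y : ℝ) : E2 := !₂[o 0 + x * c - y * s, o 1 + x * s + y * c]

theorem Ph_dist {o : E2} {c s : ℝ} (hcs : c ^ 2 + s ^ 2 = 1) (x y x' y' : ℝ) :
    dist (Ph o c s x y) (Ph o c s x' y') = √((x - x') ^ 2 + (y - y') ^ 2) := by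
  rw [EuclideanSpace.dist_eq, Fin.sum_univ_two, Real.dist_eq, Real.dist_eq, sq_abs, sq_abs]
  unfold Ph
  congr 1
  simp only [Matrix.cons_val_zero, Matrix.cons_val_one]
  linear_combination ((x - x') ^ 2 + (y - y') ^ 2) * hcs

theorem Ph_surj {o : E2} {c s : ℝ} (hcs : c ^ 2 + s ^ 2 = 1) (z : E2) :
    ∃ x y, z = Ph o c s x y := by
  refine ⟨(z 0 - o 0) * c + (z 1 - o 1) * s, -(z 0 - o 0) * s + (z 1 - o 1) * c, ?_⟩
  ext i
  fin_cases i
  · simp only [Ph, PiLp.toLp_apply, Matrix.cons_val_zero, Fin.zero_eta]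
    linear_combination (o 0 - z 0) * hcs
  · simp only [Ph, PiLp.toLp_apply, Matrix.cons_val_one, Fin.mk_one]
    simp only [Matrix.cons_val_zero]
    linear_combination (o 1 - z 1) * hcs

theorem Ph_shift {o : E2} {c s x0 x y : ℝ} :
    Ph (Ph o c s x0 0) c s x y = Ph o c s (x0 + x) y := by
  ext i
  fin_cases i
  · simp [Ph]; ring
  · simp [Ph]; ring

/-- coordinates adapted to a collinear family -/
theorem col_coord {ι : Type*} {P : ι → E2} {S : Set ι} (h : Collinear ℝ (P '' S)) :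
    ∃ (o : E2) (c s : ℝ), c ^ 2 + s ^ 2 = 1 ∧ ∀ l ∈ S, ∃ t, P l = Ph o c s t 0 := by
  obtain ⟨p0, v, hv⟩ := (collinear_iff_exists_forall_eq_smul_vadd _).1 h
  by_cases hv0 : v = 0
  · refine ⟨p0, 1, 0, by norm_num, fun l hl => ⟨0, ?_⟩⟩
    obtain ⟨r, hr⟩ := hv _ ⟨l, hl, rfl⟩
    rw [hr, hv0]
    ext i
    fin_cases i <;> simp [Ph]
  · have hn : 0 < v 0 ^ 2 + v 1 ^ 2 := by
      by_contra hneg
      apply hv0
      have h0 : v 0 = 0 := by nlinarith [sq_nonneg (v 0), sq_nonneg (v 1)]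
      have h1 : v 1 = 0 := by nlinarith [sq_nonneg (v 0), sq_nonneg (v 1)]
      ext i
      fin_cases i
      · simpa using h0
      · simpa using h1
    set q := √(v 0 ^ 2 + v 1 ^ 2) with hq
    have hqp : 0 < q := Real.sqrt_pos.2 hn
    have hq2 : q ^ 2 = v 0 ^ 2 + v 1 ^ 2 := Real.sq_sqrt hn.le
    refine ⟨p0, v 0 / q, v 1 / q, ?_, fun l hl => ?_⟩
    · field_simp; exact hq2.symm
    · obtain ⟨r, hr⟩ := hv _ ⟨l, hl, rfl⟩
      refine ⟨r * q, ?_⟩
      rw [hr]
      ext i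
      fin_cases i
      · simp [Ph]; field_simp; ring
      · simp [Ph]; field_simp; ring

/-- **Line plus two points.** -/
theorem line_two {ι : Type*} (P : ι → E2) (a b : ι)
    (hcol : Collinear ℝ (P '' {l | l ≠ a ∧ l ≠ b})) (hbd : Bornology.IsBounded (range P))
    {ε : ℝ} (hε : 0 < ε) :
    ∃ Q : ι → E2, (∀ l, dist (P l) (Q l) < ε) ∧ ∀ l m, ∃ r : ℚ, dist (Q l) (Q m) = (r : ℝ) := by
  classical
  obtain ⟨o, c, s, hcs, hline⟩ := col_coord hcol
  obtain ⟨xa, ya, hPa⟩ := Ph_surj (o := o) hcs (P a)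
  -- shift the origin to the foot of `P a`
  set o' := Ph o c s xa 0 with ho'
  have hPa' : P a = Ph o' c s 0 ya := by rw [ho', Ph_shift, add_zero, hPa]
  have hline' : ∀ l, l ≠ a → l ≠ b → ∃ t, P l = Ph o' c s t 0 := by
    intro l h1 h2
    obtain ⟨t, ht⟩ := hline l ⟨h1, h2⟩
    exact ⟨t - xa, by rw [ho', Ph_shift, ht]; congr 1; ring⟩
  obtain ⟨xb, yb, hPb⟩ := Ph_surj (o := o') hcs (P b)
  obtain ⟨R, hR⟩ := hbd.subset_closedBall o'
  have hRt : ∀ l t, P l = Ph o' c s t 0 → |t| ≤ R := by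
    intro l t h
    have h1 : dist (P l) o' ≤ R := hR ⟨l, rfl⟩
    have h2 : o' = Ph o' c s 0 0 := by
      ext i; fin_cases i <;> simp [Ph]
    rw [h] at h1
    nth_rewrite 2 [h2] at h1
    rw [Ph_dist hcs] at h1
    simpa [Real.sqrt_sq_eq_abs] using h1
  choose! T hT using hline'
  obtain ⟨b', h', k', d, hh0, hk0, hb, hh, hk, hd, hx⟩ := core xb ya yb R (half_pos hε)
  choose! X U V hRS hX using hx
  have hRSuv : ∀ {x u v : ℚ}, RS b' h' k' x u v →
      √(((0 : ℝ) - x) ^ 2 + ((h' : ℝ) - 0) ^ 2) = (u : ℝ) ∧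
      √(((b' : ℝ) - x) ^ 2 + ((k' : ℝ) - 0) ^ 2) = (v : ℝ) := by
    intro x u v H
    have h1 := H.uu
    have h2 := H.vv
    unfold uu at h1
    unfold vv at h2
    constructor
    · rw [← h1]; congr 1; ring
    · rw [← h2]; congr 1; ring
  refine ⟨fun l => if l = a then Ph o' c s 0 h' else if l = b then Ph o' c s b' k'
    else Ph o' c s (X (T l)) 0, ?_, ?_⟩
  · intro l
    by_cases hla : l = a
    · simp only [hla, if_true]
      rw [hPa', Ph_dist hcs]
      have : ((0 : ℝ) - 0) ^ 2 + (ya - (h' : ℝ)) ^ 2 = ((h' : ℝ) - ya) ^ 2 := by ring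
      rw [this, Real.sqrt_sq_eq_abs]
      linarith
    · by_cases hlb : l = b
      · simp only [hlb]
        rw [hlb] at hla
        simp only [hla, if_false, if_true]
        rw [hPb, Ph_dist hcs]
        have h1 : √((xb - (b' : ℝ)) ^ 2 + (yb - (k' : ℝ)) ^ 2) ≤ |(b' : ℝ) - xb| + |(k' : ℝ) - yb| := by
          rw [Real.sqrt_le_left (by positivity)]
          have := mul_nonneg (abs_nonneg ((b' : ℝ) - xb)) (abs_nonneg ((k' : ℝ) - yb))
          nlinarith [sq_abs ((b' : ℝ) - xb), sq_abs ((k' : ℝ) - yb)]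
        linarith
      · simp only [hla, hlb, if_false]
        nth_rewrite 1 [hT l hla hlb]
        rw [Ph_dist hcs]
        have h2 := hX (T l) (hRt l _ (hT l hla hlb))
        have : (T l - ((X (T l) : ℚ) : ℝ)) ^ 2 + ((0 : ℝ) - 0) ^ 2 = (((X (T l) : ℚ) : ℝ) - T l) ^ 2 := by ring
        rw [this, Real.sqrt_sq_eq_abs]
        linarith
  · have key : ∀ l, (l = a ∨ l = b ∨ (l ≠ a ∧ l ≠ b)) := by
      intro l; by_cases h1 : l = a
      · exact Or.inl h1
      · by_cases h2 : l = b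
        · exact Or.inr (Or.inl h2)
        · exact Or.inr (Or.inr ⟨h1, h2⟩)
    -- the three kinds of points
    set A := Ph o' c s 0 h' with hA
    set B := Ph o' c s b' k' with hB
    have dAB : ∃ r : ℚ, dist A B = (r : ℝ) := by
      refine ⟨|d|, ?_⟩
      rw [hA, hB, Ph_dist hcs]
      have : ((0 : ℝ) - b') ^ 2 + ((h' : ℝ) - k') ^ 2 = (d : ℝ) ^ 2 := by
        have : (b' : ℝ) ^ 2 + ((h' : ℝ) - k') ^ 2 = (d : ℝ) ^ 2 := by exact_mod_cast hd
        linarith
      rw [this, Real.sqrt_sq_eq_abs]; push_cast; rfl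
    have dAX : ∀ {x u v : ℚ}, RS b' h' k' x u v → ∃ r : ℚ, dist A (Ph o' c s x 0) = (r : ℝ) := by
      intro x u v H
      exact ⟨u, by rw [hA, Ph_dist hcs]; exact (hRSuv H).1⟩
    have dBX : ∀ {x u v : ℚ}, RS b' h' k' x u v → ∃ r : ℚ, dist B (Ph o' c s x 0) = (r : ℝ) := by
      intro x u v H
      exact ⟨v, by rw [hB, Ph_dist hcs]; exact (hRSuv H).2⟩
    have dXX : ∀ x x' : ℚ, ∃ r : ℚ, dist (Ph o' c s x 0) (Ph o' c s x' 0) = (r : ℝ) := by
      intro x x'
      refine ⟨|x - x'|, ?_⟩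
      rw [Ph_dist hcs]
      have : ((x : ℝ) - x') ^ 2 + ((0 : ℝ) - 0) ^ 2 = ((x : ℝ) - x') ^ 2 := by ring
      rw [this, Real.sqrt_sq_eq_abs]; push_cast; rfl
    have hval : ∀ l, (if l = a then A else if l = b then B else Ph o' c s (X (T l)) 0) = A ∨
        (if l = a then A else if l = b then B else Ph o' c s (X (T l)) 0) = B ∨
        ∃ x u v : ℚ, RS b' h' k' x u v ∧
          (if l = a then A else if l = b then B else Ph o' c s (X (T l)) 0) = Ph o' c s x 0 := by
      intro l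
      by_cases h1 : l = a
      · left; simp [h1]
      · by_cases h2 : l = b
        · right; left; rw [if_neg h1, if_pos h2]
        · right; right
          exact ⟨X (T l), _, _, hRS (T l) (hRt l _ (hT l h1 h2)), by rw [if_neg h1, if_neg h2]⟩
    intro l m
    simp only []
    rcases hval l with h1 | h1 | ⟨x, u, v, H, h1⟩ <;> rcases hval m with h2 | h2 | ⟨x', u', v', H', h2⟩ <;>
      rw [h1, h2]
    · exact ⟨0, by simp⟩
    · exact dAB
    · exact dAX H'
    · rw [dist_comm]; exact dAB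
    · exact ⟨0, by simp⟩
    · exact dBX H'
    · rw [dist_comm]; exact dAX H
    · rw [dist_comm]; exact dBX H
    · exact dXX x x'

end Pool.Agent.Helper500.RA
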