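import Mathlib
import Pool.Agent.Helper500.RA8

/-! Circle plus one point. -/

namespace Pool.Agent.Helper500.RA

open Real Filter Set Topology EuclideanGeometry

/-- any family of points of a perpendicular bisector in the plane is collinear -/
theorem collinear_perpBisector {c d : E2} (hcd : c ≠ d) {S : Set E2}
    (hS : ∀ x ∈ S, x ∈ AffineSubspace.perpBisector c d) : Collinear ℝ S := by
  rw [collinear_iff_finrank_le_one]
  have h1 : vectorSpan ℝ S ≤ (AffineSubspace.perpBisector c d).direction := by
    have h2 : affineSpan ℝ S ≤ AffineSubspace.perpBisector c d := affineSpan_le.2 hS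
    have h3 := AffineSubspace.direction_le h2
    rwa [direction_affineSpan] at h3
  rw [AffineSubspace.direction_perpBisector] at h1
  have hv : d -ᵥ c ≠ 0 := by rw [vsub_ne_zero]; exact hcd.symm
  have : Fact (Module.finrank ℝ E2 = 1 + 1) := ⟨by simp⟩
  have h4 := Submodule.finrank_orthogonal_span_singleton (n := 1) (𝕜 := ℝ) hv
  exact (Submodule.finrank_mono h1).trans h4.le

/-- **Circle plus one point.** -/
theorem circle_one {ι : Type*} (P : ι → E2) (a : ι)
    (hco : EuclideanGeometry.Cospherical (P '' {l | l ≠ a})) {ε : ℝ} (hε : 0 < ε) :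
    ∃ Q : ι → E2, (∀ l, dist (P l) (Q l) < ε) ∧ ∀ l m, ∃ r : ℚ, dist (Q l) (Q m) = (r : ℝ) := by
  classical
  obtain ⟨z, ρ, hz⟩ := hco
  have hz' : ∀ l, l ≠ a → dist (P l) z = ρ := fun l hl => hz _ ⟨l, hl, rfl⟩
  rcases le_or_gt ρ 0 with hρ | hρ
  · 
    have hPz : ∀ l, l ≠ a → P l = z := by
      intro l hl
      have h1 := hz' l hl
      have h2 := dist_nonneg (x := P l) (y := z)
      exact dist_le_zero.1 (by linarith)
    apply line_two P a a _ _ hε
    · apply (collinear_singleton ℝ z).subset
      rintro _ ⟨l, hl, rfl⟩
      exact hPz l hl.1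
    · refine (Metric.isBounded_closedBall (x := z) (r := dist (P a) z)).subset ?_
      rintro _ ⟨l, rfl⟩
      by_cases hl : l = a
      · rw [hl]; exact Metric.mem_closedBall.2 le_rfl
      · rw [hPz l hl]; exact Metric.mem_closedBall.2 (by simp [dist_nonneg])
  · -- choose the centre of inversion on the circle
    obtain ⟨o, ho, hoa⟩ : ∃ o : E2, dist z o = ρ ∧ P a ≠ o := by
      set e : E2 := !₂[ρ, 0] with he
      have hne : ‖e‖ = ρ := by
        rw [he, EuclideanSpace.norm_eq, Fin.sum_univ_two]
        simp [Real.sqrt_sq_eq_abs, abs_of_pos hρ]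
      by_cases h1 : P a = z + e
      · refine ⟨z - e, ?_, ?_⟩
        · rw [dist_eq_norm]; simpa using hne
        · rw [h1]
          intro h2
          have h3 : e + e = 0 := by
            have : z + e - (z - e) = 0 := by rw [h2]; simp
            rw [← this]; abel
          have h4 : (2 : ℝ) • e = 0 := by rw [two_smul]; exact h3
          have h5 : e = 0 := by simpa using h4
          rw [h5, norm_zero] at hne
          linarith
      · refine ⟨z + e, ?_, h1⟩
        rw [dist_eq_norm]; simpa using hne
    have hzo : z ≠ o := by
      intro h; rw [h, dist_self] at ho; linarith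
    set L := AffineSubspace.perpBisector o (inversion o 1 z) with hL
    have hoz : o ≠ inversion o 1 z := by
      intro h
      rw [center_eq_inversion one_ne_zero] at h
      exact hzo h
    set mid := midpoint ℝ o (inversion o 1 z) with hmid
    have hmidL : mid ∈ L := AffineSubspace.midpoint_mem_perpBisector _ _
    -- the inverted family
    let P' : Option ι → E2 := fun i => match i with
      | none => o
      | some l => if l ≠ a ∧ dist (P l) o < ε / 2 then mid else inversion o 1 (P l)
    have hPne : ∀ l, ¬ (l ≠ a ∧ dist (P l) o < ε / 2) → P l ≠ o := by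
      intro l hl h
      by_cases h1 : l = a
      · rw [h1] at h; exact hoa h
      · exact hl ⟨h1, by rw [h, dist_self]; positivity⟩
    have hcol : Collinear ℝ (P' '' {i | i ≠ none ∧ i ≠ some a}) := by
      apply collinear_perpBisector hoz
      rintro _ ⟨i, ⟨hi1, hi2⟩, rfl⟩
      match i, hi1, hi2 with
      | none, h, _ => exact absurd rfl h
      | some l, _, h =>
        have hla : l ≠ a := fun h1 => h (by rw [h1])
        by_cases h1 : l ≠ a ∧ dist (P l) o < ε / 2
        · simp only [P', if_pos h1]; exact hmidL
        · simp only [P', if_neg h1]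
          rw [inversion_mem_perpBisector_inversion_iff one_ne_zero (hPne l h1) hzo]
          rw [hz' l hla, ho]
    -- bounds
    set D := 2 * ρ + dist (P a) o with hD
    have hDp : 0 < D := by have := dist_nonneg (x := P a) (y := o); positivity
    have hPD : ∀ l, dist (P l) o ≤ D := by
      intro l
      by_cases h1 : l = a
      · rw [h1, hD]; linarith
      · have h2 := dist_triangle (P l) z o
        rw [hz' l h1, ho] at h2
        have := dist_nonneg (x := P a) (y := o)
        linarith
    have hao : 0 < dist (P a) o := dist_pos.2 hoa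
    have hlow : ∀ l, ¬ (l ≠ a ∧ dist (P l) o < ε / 2) → min (ε / 2) (dist (P a) o) ≤ dist (P l) o := by
      intro l hl
      by_cases h1 : l = a
      · rw [h1]; exact min_le_right _ _
      · have : ¬ dist (P l) o < ε / 2 := fun h => hl ⟨h1, h⟩
        exact (min_le_left _ _).trans (not_lt.1 this)
    have hbd : Bornology.IsBounded (range P') := by
      refine (Metric.isBounded_closedBall (x := o)
        (r := max (dist mid o) (1 / min (ε / 2) (dist (P a) o)))).subset ?_
      rintro _ ⟨i, rfl⟩
      rw [Metric.mem_closedBall]
      match i with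
      | none => simp only [P', dist_self]; exact le_max_of_le_left dist_nonneg
      | some l =>
        by_cases h1 : l ≠ a ∧ dist (P l) o < ε / 2
        · simp only [P', if_pos h1]; exact le_max_left _ _
        · simp only [P', if_neg h1]
          rw [dist_inversion_center]
          apply le_max_of_le_right
          rw [one_pow]
          exact one_div_le_one_div_of_le (lt_min (by positivity) hao) (hlow l h1)
    -- approximate the inverted family
    set δ := min (1 / (4 * D)) (ε / (8 * D ^ 2)) with hδ
    have hδp : 0 < δ := lt_min (by positivity) (by positivity)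
    obtain ⟨Q', hQ1, hQ2⟩ := line_two P' none (some a) hcol hbd hδp
    have hPo : P' none = o := rfl
    let y : ι → E2 := fun l => Q' (some l) + (o - Q' none)
    have hyd : ∀ l m, dist (y l) (y m) = dist (Q' (some l)) (Q' (some m)) := by
      intro l m; simp only [y, dist_add_right]
    have hyo : ∀ l, dist (y l) o = dist (Q' (some l)) (Q' none) := by
      intro l
      simp only [y, dist_eq_norm]
      congr 1; abel
    have hyP : ∀ l, dist (y l) (P' (some l)) < 2 * δ := by
      intro l
      have h1 := hQ1 (some l)
      have h2 := hQ1 none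
      rw [hPo] at h2
      have h3 : dist (y l) (P' (some l)) ≤ dist (Q' (some l)) (P' (some l)) + dist o (Q' none) := by
        have e1 : dist (y l) (Q' (some l)) = dist o (Q' none) := by
          simp only [y, dist_eq_norm]
          congr 1; abel
        have := dist_triangle (y l) (Q' (some l)) (P' (some l))
        linarith
      rw [dist_comm] at h1
      linarith
    -- distances to the centre
    have hfar : ∀ l, ¬ (l ≠ a ∧ dist (P l) o < ε / 2) →
        1 / D ≤ dist (inversion o 1 (P l)) o ∧ 1 / (2 * D) ≤ dist (y l) o := by
      intro l hl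
      have h1 : 1 / D ≤ dist (inversion o 1 (P l)) o := by
        rw [dist_inversion_center, one_pow]
        exact one_div_le_one_div_of_le (dist_pos.2 (hPne l hl)) (hPD l)
      refine ⟨h1, ?_⟩
      have h2 := hyP l
      simp only [P', if_neg hl] at h2
      have h3 := dist_triangle (inversion o 1 (P l)) (y l) o
      rw [dist_comm] at h2
      have h4 : 2 * δ ≤ 2 * (1 / (4 * D)) := by
        have := min_le_left (1 / (4 * D)) (ε / (8 * D ^ 2)); linarith
      have h5 : 1 / D = 1 / (2 * D) + 2 * (1 / (4 * D)) := by field_simp; norm_num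
      linarith
    have hyne : ∀ l, ¬ (l ≠ a ∧ dist (P l) o < ε / 2) → y l ≠ o := by
      intro l hl h
      have h1 := (hfar l hl).2
      rw [h, dist_self] at h1
      have : 0 < 1 / (2 * D) := by positivity
      linarith
    refine ⟨fun l => if l ≠ a ∧ dist (P l) o < ε / 2 then o else inversion o 1 (y l), ?_, ?_⟩
    · intro l
      by_cases h1 : l ≠ a ∧ dist (P l) o < ε / 2
      · simp only [if_pos h1]; linarith [h1.2]
      · simp only [if_neg h1]
        have e1 : P l = inversion o 1 (inversion o 1 (P l)) := (inversion_inversion o one_ne_zero _).symm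
        have hin : inversion o 1 (P l) ≠ o := by
          rw [Ne, inversion_eq_center one_ne_zero]; exact hPne l h1
        rw [e1, dist_inversion_inversion hin (hyne l h1)]
        obtain ⟨f1, f2⟩ := hfar l h1
        have h2 := hyP l
        simp only [P', if_neg h1] at h2
        rw [dist_comm] at h2
        have g1 : 0 < dist (inversion o 1 (P l)) o := dist_pos.2 hin
        have g2 : 0 < dist (y l) o := dist_pos.2 (hyne l h1)
        have h3 : 1 / (2 * D ^ 2) ≤ dist (inversion o 1 (P l)) o * dist (y l) o := by
          have : 1 / (2 * D ^ 2) = (1 / D) * (1 / (2 * D)) := by field_simp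
          rw [this]
          exact mul_le_mul f1 f2 (by positivity) g1.le
        have h4 : δ ≤ ε / (8 * D ^ 2) := min_le_right _ _
        rw [one_pow, div_mul_eq_mul_div, one_mul, div_lt_iff₀ (mul_pos g1 g2)]
        have h5 : ε * (1 / (2 * D ^ 2)) ≤ ε * (dist (inversion o 1 (P l)) o * dist (y l) o) :=
          mul_le_mul_of_nonneg_left h3 hε.le
        have h6 : 2 * (ε / (8 * D ^ 2)) < ε * (1 / (2 * D ^ 2)) := by
          have : ε * (1 / (2 * D ^ 2)) = 4 * (ε / (8 * D ^ 2)) := by field_simp; norm_num
          rw [this]
          have : 0 < ε / (8 * D ^ 2) := by positivity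
          linarith
        linarith
    · have hrat : ∀ l, ∃ r : ℚ, dist (y l) o = (r : ℝ) := fun l => by
        rw [hyo]; exact hQ2 _ _
      intro l m
      by_cases h1 : l ≠ a ∧ dist (P l) o < ε / 2 <;> by_cases h2 : m ≠ a ∧ dist (P m) o < ε / 2
      · simp only [if_pos h1, if_pos h2]; exact ⟨0, by simp⟩
      · simp only [if_pos h1, if_neg h2]
        obtain ⟨r, hr⟩ := hrat m
        refine ⟨1 / r, ?_⟩
        rw [dist_comm, dist_inversion_center, hr]; push_cast; ring
      · simp only [if_neg h1, if_pos h2]
        obtain ⟨r, hr⟩ := hrat l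
        refine ⟨1 / r, ?_⟩
        rw [dist_inversion_center, hr]; push_cast; ring
      · simp only [if_neg h1, if_neg h2]
        obtain ⟨r1, hr1⟩ := hrat l
        obtain ⟨r2, hr2⟩ := hrat m
        obtain ⟨r3, hr3⟩ := hQ2 (some l) (some m)
        refine ⟨1 / (r1 * r2) * r3, ?_⟩
        rw [dist_inversion_inversion (hyne l h1) (hyne m h2), hyd, hr1, hr2, hr3]
        push_cast; ring

end Pool.Agent.Helper500.RA
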